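import Pool.Agent.MXC.NExt

namespace Pool.Agent.MXC

open Finset Pool.Agent.MP_710317_co.Rec

variable {V : Type*} [Fintype V] [DecidableEq V]

private theorem avg_fac {w u : V → V → ℤ} {s t : ℤ} (H : Hyp w u s t) (S : Finset V)
    {K : Type*} [Fintype K] [DecidableEq K] (τ : K → V → V) (hτ : ∀ k x, τ k (τ k x) = x)
    (hex : ∀ x ∈ S, ∀ y ∈ S, x ≠ y → ∃ k, τ k x = y) :
    inn u S ≤ 2 * t * (Fintype.card K : ℤ) := by
  classical
  have h1 : ∀ x ∈ S, ∑ y ∈ S, u x y ≤ ∑ k : K, u x (τ k x) := by
    intro x hx
    have h2 : ∑ y ∈ S, u x y = ∑ y ∈ S.erase x, u x y := by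
      rw [← Finset.add_sum_erase S _ hx, H.usym.diag, zero_add]
    have h3 : S.erase x ⊆ (univ : Finset K).image fun k => τ k x := by
      intro y hy
      rw [Finset.mem_erase] at hy
      obtain ⟨k, hk⟩ := hex x hx y hy.2 (Ne.symm hy.1)
      exact Finset.mem_image.2 ⟨k, Finset.mem_univ _, hk⟩
    rw [h2]
    calc ∑ y ∈ S.erase x, u x y ≤ ∑ y ∈ (univ : Finset K).image fun k => τ k x, u x y :=
          Finset.sum_le_sum_of_subset_of_nonneg h3 fun y _ _ => H.u0 x y
      _ ≤ ∑ k : K, u x (τ k x) := by
          rw [← Finset.sum_fiberwise_of_maps_to (s := (univ : Finset K))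
            (t := (univ : Finset K).image fun k => τ k x) (g := fun k => τ k x)
            (fun k _ => Finset.mem_image_of_mem _ (Finset.mem_univ k))]
          refine Finset.sum_le_sum fun y hy => ?_
          obtain ⟨k, _, hk⟩ := Finset.mem_image.1 hy
          have h4 : ∑ k' ∈ ({k} : Finset K), u x (τ k' x) ≤
              ∑ k' ∈ (univ : Finset K) with τ k' x = y, u x (τ k' x) :=
            Finset.sum_le_sum_of_subset_of_nonneg (by
              intro a ha
              rw [Finset.mem_singleton] at ha
              subst ha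
              simp [hk]) fun a _ _ => H.u0 _ _
          rw [Finset.sum_singleton, hk] at h4
          exact h4
  calc inn u S = ∑ x ∈ S, ∑ y ∈ S, u x y := rfl
    _ ≤ ∑ x ∈ S, ∑ k : K, u x (τ k x) := Finset.sum_le_sum h1
    _ ≤ ∑ x, ∑ k : K, u x (τ k x) :=
        Finset.sum_le_sum_of_subset_of_nonneg (Finset.subset_univ _) fun x _ _ =>
          Finset.sum_nonneg fun k _ => H.u0 _ _
    _ = ∑ k : K, ∑ x, u x (τ k x) := Finset.sum_comm
    _ ≤ ∑ k : K, 2 * t := Finset.sum_le_sum fun k _ => mat_bound H (τ k) (hτ k)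
    _ = 2 * t * (Fintype.card K : ℤ) := by
        rw [Finset.sum_const, Finset.card_univ, nsmul_eq_mul]
        ring

private theorem avg_half (n : ℕ) (hn : n % 2 = 1) : ∃ c : ZMod n, c + c = 1 := by
  obtain ⟨h, rfl⟩ : ∃ h, n = 2 * h + 1 := ⟨n / 2, by omega⟩
  refine ⟨((h + 1 : ℕ) : ZMod (2 * h + 1)), ?_⟩
  have h1 : (((2 * h + 1 : ℕ) : ℕ) : ZMod (2 * h + 1)) = 0 := ZMod.natCast_self _
  rw [← Nat.cast_add, show h + 1 + (h + 1) = 2 * h + 1 + 1 by ring, Nat.cast_add, h1]
  simp

/-- [MXC-AVG]  The weight inside a set of `σ` vertices is at most `t` times the number of matchings of a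
1-factorization.

Proof.  `mat_bound` with `τ = id` gives `0 ≤ t`.  `S = ∅` is trivial.
* `σ = S.card` odd: identify `S` with `ZMod σ` (`S ≃ Fin σ ≃ ZMod σ`, `f : S ≃ ZMod σ`).  For `k : ZMod σ`
  let `τ k x = f.symm (k - f x)` for `x ∈ S` and `x` otherwise; an involution.  For `x, y ∈ S` there is
  exactly one `k` with `τ k x = y` (`k = f x + f y`), so `∑_k ∑_{x} u x (τ k x) = ∑_{x∈S} ∑_{y∈S} u x y`
  (outside `S`: `u x x = 0`).  Each of the `σ` inner sums is `≤ 2 t` (`mat_bound`).
* `σ` even, `σ ≥ 2`: take `z ∈ S`, `S' = S.erase z`, `σ' = σ - 1` odd, `f : S' ≃ ZMod σ'`.  For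
  `k : ZMod σ'` the map `x ↦ k - x` on `ZMod σ'` has exactly one fixed point `c k` (`2` is invertible, `σ'`
  odd), and `k ↦ c k` is a bijection; let `τ k` be `x ↦ f.symm (k - f x)` on `S'` except that the fixed
  point is exchanged with `z`.  Every ordered pair of different elements of `S` occurs for exactly one
  `k`. -/
theorem avg {w u : V → V → ℤ} {s t : ℤ} (H : Hyp w u s t) (S : Finset V) :
    inn u S ≤ 2 * t * qf S.card := by
  classical
  have ht : 0 ≤ t := by
    have h := mat_bound H id (fun _ => rfl)
    have h2 : ∑ x, u x (id x) = 0 := Finset.sum_eq_zero fun x _ => H.usym.diag x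
    rw [h2] at h
    linarith
  rcases Nat.even_or_odd' S.card with ⟨m, hm | hm⟩
  · rcases S.eq_empty_or_nonempty with hS | ⟨z, hz⟩
    · subst hS
      simp [inn, qf]
    · -- even
      have hc : (S.erase z).card = S.card - 1 := Finset.card_erase_of_mem hz
      have hpos : 0 < S.card := Finset.card_pos.2 ⟨z, hz⟩
      obtain ⟨n, hn⟩ : ∃ n, n = S.card - 1 := ⟨_, rfl⟩
      have hodd : n % 2 = 1 := by omega
      have hne : NeZero n := ⟨by omega⟩
      have hq : qf S.card = n := by
        unfold qf
        rw [if_neg (by omega)]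
        omega
      have e : {x // x ∈ S.erase z} ≃ ZMod n := Fintype.equivOfCardEq (by
        rw [Fintype.card_coe, ZMod.card, hc, hn])
      obtain ⟨c2, hc2⟩ := avg_half n hodd
      let τ : {x // x ∈ S.erase z} → V → V := fun c x =>
        if x = z then c else if x = c then z else
          if hx : x ∈ S.erase z then (e.symm (e c + e c - e ⟨x, hx⟩) : V) else x
      have hzn : z ∉ S.erase z := Finset.notMem_erase z S
      have hcz : ∀ c : {x // x ∈ S.erase z}, (c : V) ≠ z := fun c h => by
        have h2 := c.2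
        rw [h] at h2
        exact hzn h2
      have t1 : ∀ c, τ c z = c := fun c => by simp only [τ, if_true]
      have t2 : ∀ c, τ c (c : V) = z := fun c => by
        simp only [τ]
        rw [if_neg (hcz c)]
        simp
      have t3 : ∀ c (x : {x // x ∈ S.erase z}), x ≠ c →
          τ c (x : V) = (e.symm (e c + e c - e x) : V) := fun c x hx => by
        simp only [τ]
        rw [if_neg (hcz x), if_neg (fun h => hx (Subtype.ext h)), dif_pos x.2]
      have t4 : ∀ c x, x ≠ z → x ∉ S.erase z → τ c x = x := fun c x h1 h2 => by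
        simp only [τ]
        have h3 : x ≠ c := fun h => by
          rw [h] at h2
          exact h2 c.2
        rw [if_neg h1, if_neg h3, dif_neg h2]
      have key : inn u S ≤ 2 * t * (Fintype.card {x // x ∈ S.erase z} : ℤ) := by
        refine avg_fac H S τ ?_ ?_
        · intro c x
          by_cases h1 : x = z
          · rw [h1, t1, t2]
          · by_cases h2 : x ∈ S.erase z
            · obtain ⟨x', hx'⟩ : ∃ x' : {x // x ∈ S.erase z}, (x' : V) = x := ⟨⟨x, h2⟩, rfl⟩
              rw [← hx']
              by_cases h3 : x' = c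
              · rw [h3, t2, t1]
              · rw [t3 c x' h3, t3 c (e.symm (e c + e c - e x'))]
                · rw [Equiv.apply_symm_apply, sub_sub_cancel, Equiv.symm_apply_apply]
                · intro h4
                  apply h3
                  rw [Equiv.symm_apply_eq] at h4
                  apply e.injective
                  have : e c + e c - e x' = e c := h4
                  have h5 : e c - e x' = 0 := by
                    have h6 : e c + (e c - e x') = e c + 0 := by
                      rw [add_zero, ← add_sub_assoc]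
                      exact this
                    exact add_left_cancel h6
                  exact (sub_eq_zero.1 h5).symm
            · rw [t4 c x h1 h2, t4 c x h1 h2]
        · intro x hx y hy hxy
          by_cases h1 : x = z
          · have hy' : y ∈ S.erase z := Finset.mem_erase.2 ⟨fun h => hxy (h1.trans h.symm), hy⟩
            refine ⟨⟨y, hy'⟩, ?_⟩
            have h2 := t1 ⟨y, hy'⟩
            have h3 : τ ⟨y, hy'⟩ x = τ ⟨y, hy'⟩ z := congrArg (τ ⟨y, hy'⟩) h1
            exact h3.trans h2
          · have hx' : x ∈ S.erase z := Finset.mem_erase.2 ⟨h1, hx⟩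
            by_cases h2 : y = z
            · refine ⟨⟨x, hx'⟩, ?_⟩
              rw [h2]
              exact t2 ⟨x, hx'⟩
            · have hy' : y ∈ S.erase z := Finset.mem_erase.2 ⟨h2, hy⟩
              obtain ⟨c, hc'⟩ : ∃ c, e c = c2 * (e ⟨x, hx'⟩ + e ⟨y, hy'⟩) :=
                ⟨e.symm _, Equiv.apply_symm_apply _ _⟩
              have h5 : e c + e c = e ⟨x, hx'⟩ + e ⟨y, hy'⟩ := by
                rw [hc', ← add_mul, hc2, one_mul]
              refine ⟨c, ?_⟩
              have h3 : (⟨x, hx'⟩ : {x // x ∈ S.erase z}) ≠ c := by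
                intro h4
                rw [← h4] at h5
                have h6 := e.injective (add_left_cancel h5)
                exact hxy (congrArg Subtype.val h6)
              have h7 := t3 c ⟨x, hx'⟩ h3
              rw [h5, add_sub_cancel_left, Equiv.symm_apply_apply] at h7
              exact h7
      rw [hq]
      rw [Fintype.card_coe, hc, ← hn] at key
      exact key
  · -- odd
    obtain ⟨n, hn⟩ : ∃ n, n = S.card := ⟨_, rfl⟩
    have hodd : n % 2 = 1 := by omega
    have hne : NeZero n := ⟨by omega⟩
    have hq : qf S.card = n := by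
      unfold qf
      rw [if_pos (by omega), hn]
    have e : {x // x ∈ S} ≃ ZMod n := Fintype.equivOfCardEq (by
      rw [Fintype.card_coe, ZMod.card, hn])
    let τ : ZMod n → V → V := fun k x =>
      if hx : x ∈ S then (e.symm (k - e ⟨x, hx⟩) : V) else x
    have t1 : ∀ k (x : {x // x ∈ S}), τ k (x : V) = (e.symm (k - e x) : V) := fun k x => by
      simp only [τ]
      rw [dif_pos x.2]
    have key : inn u S ≤ 2 * t * (Fintype.card (ZMod n) : ℤ) := by
      refine avg_fac H S τ ?_ ?_
      · intro k x
        by_cases hx : x ∈ S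
        · obtain ⟨x', hx'⟩ : ∃ x' : {x // x ∈ S}, (x' : V) = x := ⟨⟨x, hx⟩, rfl⟩
          rw [← hx', t1, t1, Equiv.apply_symm_apply, sub_sub_cancel, Equiv.symm_apply_apply]
        · simp only [τ]
          rw [dif_neg hx, dif_neg hx]
      · intro x hx y hy hxy
        refine ⟨e ⟨x, hx⟩ + e ⟨y, hy⟩, ?_⟩
        have h7 := t1 (e ⟨x, hx⟩ + e ⟨y, hy⟩) ⟨x, hx⟩
        rw [add_sub_cancel_left, Equiv.symm_apply_apply] at h7
        exact h7
    rw [hq]
    rw [ZMod.card] at key
    exact key

end Pool.Agent.MXC
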