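import Pool.Agent.MXC.Defs
import Pool.Agent.MP_710317_co.Rec.MaxP

/-!
# [MXC-NEXT]  Near-perfect matchings and the weight of a matching
-/

namespace Pool.Agent.MXC

open Finset Pool.Agent.MP_710317_co.Rec

variable {V : Type*} [Fintype V] [DecidableEq V]

/-- Take an involution `τ'` with `τ' x = τ x` on the non-fixed points of `τ` and with the largest number
of non-fixed points.  It has at most one fixed point (two fixed points of `τ'`, which are fixed points of
`τ`, can be joined), and the number of non-fixed points is even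
(`Equiv.Perm.card_fixedPoints_modEq` as in the proof of `max_pairing` in
`Pool.Agent.MP_710317_co.Rec.MaxP`), so it is `2 * (card V / 2)`. -/
theorem near_ext (τ : V → V) (hτ : ∀ x, τ (τ x) = x) :
    ∃ τ' : V → V, (∀ x, τ' (τ' x) = x) ∧ (∀ x, τ x ≠ x → τ' x = τ x) ∧
      (nfx τ').card = 2 * (Fintype.card V / 2) := by
  classical
  let ω : V → V → ℤ := fun x y => if x = y then 0 else 1
  have hsym : ∀ i j, ω i j = ω j i := fun i j => by
    simp only [ω, eq_comm (a := i) (b := j)]
  have hdiag : ∀ i, ω i i = 0 := fun i => by simp [ω]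
  have hsum : ∀ σ : V → V, ∑ x, ω x (σ x) = ((nfx σ).card : ℤ) := by
    intro σ
    have h1 : ∀ x, ω x (σ x) = if σ x ≠ x then 1 else 0 := by
      intro x
      by_cases hx : σ x = x
      · simp [ω, hx]
      · simp [ω, hx, Ne.symm hx]
    simp only [h1]
    rw [Finset.sum_ite]
    simp [nfx]
  obtain ⟨σ, hσm, hmax⟩ := Finset.exists_max_image
    ((univ : Finset (V → V)).filter fun σ => (∀ x, σ (σ x) = x) ∧ ∀ x, τ x ≠ x → σ x = τ x)
    (fun σ => ∑ x, ω x (σ x)) ⟨τ, by simp [hτ]⟩
  obtain ⟨hσ, hσe⟩ := (Finset.mem_filter.1 hσm).2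
  have hmax' : ∀ σ' : V → V, (∀ x, σ' (σ' x) = x) → (∀ x, τ x ≠ x → σ' x = τ x) →
      ∑ x, ω x (σ' x) ≤ ∑ x, ω x (σ x) := by
    intro σ' h h'
    exact hmax σ' (Finset.mem_filter.2 ⟨Finset.mem_univ _, h, h'⟩)
  refine ⟨σ, hσ, hσe, ?_⟩
  have hfix : (univ.filter fun x => σ x = x).card ≤ 1 := by
    rw [Finset.card_le_one]
    intro a ha b hb
    by_contra hab
    have ha' : σ a = a := (Finset.mem_filter.1 ha).2
    have hb' : σ b = b := (Finset.mem_filter.1 hb).2
    have hta : τ a = a := by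
      by_contra h
      exact h (by rw [← hσe a h, ha'])
    have htb : τ b = b := by
      by_contra h
      exact h (by rw [← hσe b h, hb'])
    obtain ⟨ρ, hρ, hρx, hρs⟩ := maxp_join ω hsym hdiag σ hσ a b hab ha' hb'
    have hC := hmax' ρ hρ fun x hx => by
      rw [hρx x (fun h => hx (by rw [h, hta])) (fun h => hx (by rw [h, htb])), hσe x hx]
    have h1 : ω a b = 1 := by simp [ω, hab]
    omega
  have hpar : Fintype.card V ≡ (univ.filter fun x => σ x = x).card [MOD 2] := by
    have : Fact (Nat.Prime 2) := ⟨Nat.prime_two⟩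
    have h3 := Equiv.Perm.card_fixedPoints_modEq (f := (σ : Function.End V)) (p := 2) (n := 1) (by
      funext x
      exact hσ x)
    have h4 : Fintype.card (Function.fixedPoints (σ : Function.End V)) =
        (univ.filter fun x => σ x = x).card := by
      rw [Fintype.card_subtype]
      congr 1
    rwa [h4] at h3
  have h5 : (univ.filter fun x => σ x = x).card + (nfx σ).card = Fintype.card V := by
    unfold nfx
    rw [Finset.card_filter_add_card_filter_not, Finset.card_univ]
  unfold Nat.ModEq at hpar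
  omega

/-- `near_ext`, then `pair_bound` for `τ'`: `∑ x, w x (τ' x) ≤ 2 s`; here `w x (τ' x) = 1 + u x (τ' x)` on
the non-fixed points and `w x x = 0`, `u x x = 0`; and `∑ x, u x (τ x) ≤ ∑ x, u x (τ' x)` (`u ≥ 0`). -/
theorem mat_bound {w u : V → V → ℤ} {s t : ℤ} (H : Hyp w u s t) (τ : V → V)
    (hτ : ∀ x, τ (τ x) = x) : ∑ x, u x (τ x) ≤ 2 * t := by
  obtain ⟨σ, hσ, hσe, hcard⟩ := near_ext τ hτ
  have h1 := pair_bound H.sym H.sb σ hσ
  have hle : ∑ x, u x (τ x) ≤ ∑ x, u x (σ x) := by
    refine Finset.sum_le_sum fun x _ => ?_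
    by_cases hx : τ x = x
    · rw [hx, H.usym.diag]
      exact H.u0 _ _
    · rw [hσe x hx]
  have h2 : ∑ x, w x (σ x) = ((nfx σ).card : ℤ) + ∑ x, u x (σ x) := by
    have h3 : ((nfx σ).card : ℤ) = ∑ x, if σ x ≠ x then (1 : ℤ) else 0 := by
      rw [Finset.sum_ite]
      simp [nfx]
    rw [h3, ← Finset.sum_add_distrib]
    refine Finset.sum_congr rfl fun x _ => ?_
    by_cases hx : σ x = x
    · simp [hx, H.sym.diag, H.usym.diag]
    · rw [if_pos hx, H.wu _ _ (Ne.symm hx)]
  have h3 := H.ht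
  rw [h2, hcard] at h1
  push_cast at h1 h3 ⊢
  linarith

end Pool.Agent.MXC
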