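import Pool.Agent.MXC.Defs
import Pool.Agent.MP_710317_co.Rec.MaxP

namespace Pool.Agent.MXC

open Finset Pool.Agent.MP_710317_co.Rec

variable {V : Type*} [Fintype V] [DecidableEq V]

/-- [MXC-PAIR]  A pairing of the elements of `I` with as many bichromatic pairs as possible.

Proof.  Among the involutions `σ` with `σ x = x` outside `I` and at most one fixed point in `I`
(there is one: if `σ` has the fewest fixed points in `I` it has at most one, as two can be joined) take one
with the largest `D σ = #{x ∈ I : f (σ x) ≠ f x}` (finite set of functions, `Finset.exists_max_image`).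
If there is no `z ∈ I` with `σ z ≠ z`, `f (σ z) = f z`, then `D ≥ |I| - 1`.  Otherwise let `b = f z`,
`z' = σ z`.
* Every `y ∈ I` with `σ y ≠ y`, `f (σ y) = f y` has `f y = b`: otherwise replace the pairs `z z'`, `y y'` by
  `z y`, `z' y'`; `D` grows by `4`.
* If `y ∈ I`, `σ y ≠ y` and `f (σ y) ≠ f y` then `f y = b` or `f (σ y) = b`: otherwise replace the pairs
  `z z'`, `y y'` by `z y`, `z' y'`; `D` grows by `2`.
* A fixed point `y ∈ I` has `f y = b`: otherwise replace `z z'` by `z y` (`z'` becomes the fixed point).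
So every `y ∈ I` with `f y ≠ b` has `f (σ y) = b ≠ f y`, and `y ↦ σ y` maps `{f y ≠ b}` injectively into
`{y ∈ I : f (σ y) ≠ f y, f y = b}`: `2 #{y ∈ I : f y ≠ b} ≤ D`. -/
theorem pair_div {β : Type*} [DecidableEq β] (I : Finset V) (f : V → β) :
    ∃ σ : V → V, (∀ x, σ (σ x) = x) ∧ (∀ x, x ∉ I → σ x = x) ∧
      (I.filter fun x => σ x = x).card ≤ 1 ∧
      (I.card ≤ (I.filter fun x => f (σ x) ≠ f x).card + 1 ∨
        ∃ b : β, 2 * (I.filter fun x => f x ≠ b).card ≤
          (I.filter fun x => f (σ x) ≠ f x).card) := by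
  classical
  let ω : {x // x ∈ I} → {x // x ∈ I} → ℤ := fun x y =>
    if x = y then 0 else if f x = f y then 1 else 2
  have hsym : ∀ x y, ω x y = ω y x := fun x y => by
    simp only [ω]
    by_cases h : x = y
    · rw [if_pos h, if_pos h.symm]
    · rw [if_neg h, if_neg (Ne.symm h)]
      by_cases h2 : f x = f y
      · rw [if_pos h2, if_pos h2.symm]
      · rw [if_neg h2, if_neg (Ne.symm h2)]
  have hdiag : ∀ x, ω x x = 0 := fun x => by simp [ω]
  have w1 : ∀ x y : {x // x ∈ I}, x ≠ y → f x = f y → ω x y = 1 := fun x y h h2 => by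
    simp only [ω]
    rw [if_neg h, if_pos h2]
  have w2 : ∀ x y : {x // x ∈ I}, f x ≠ f y → ω x y = 2 := fun x y h2 => by
    simp only [ω]
    rw [if_neg (fun h => h2 (by rw [h])), if_neg h2]
  have w0 : ∀ x y, x ≠ y → 1 ≤ ω x y := fun x y h => by
    by_cases h2 : f x = f y
    · rw [w1 x y h h2]
    · rw [w2 x y h2]
      norm_num
  obtain ⟨τ, hτm, hmax⟩ := Finset.exists_max_image
    ((univ : Finset ({x // x ∈ I} → {x // x ∈ I})).filter fun τ => ∀ i, τ (τ i) = i)
    (fun τ => ∑ i, ω i (τ i)) ⟨id, by simp⟩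
  have hτ : ∀ x, τ (τ x) = x := (Finset.mem_filter.1 hτm).2
  have hmax' : ∀ τ' : {x // x ∈ I} → {x // x ∈ I}, (∀ x, τ' (τ' x) = x) →
      ∑ i, ω i (τ' i) ≤ ∑ i, ω i (τ i) := by
    intro τ' h'
    exact hmax τ' (Finset.mem_filter.2 ⟨Finset.mem_univ _, h'⟩)
  have hinj : ∀ x y, τ x = τ y → x = y := fun x y hxy => by rw [← hτ x, hxy, hτ]
  -- at most one fixed point
  have hfix : ∀ a b, τ a = a → τ b = b → a = b := by
    intro a b ha hb
    by_contra hab
    obtain ⟨τc, hc, -, hcsum⟩ := maxp_join ω hsym hdiag τ hτ a b hab ha hb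
    have hC := hmax' τc hc
    have := w0 a b hab
    omega
  -- exchange of two pairs
  have hswap : ∀ z y, τ z ≠ z → τ y ≠ y → y ≠ z → y ≠ τ z →
      ω z y + ω (τ z) (τ y) ≤ ω z (τ z) + ω y (τ y) := by
    intro z y hz hy hyz hyz'
    have hyz'' : τ y ≠ z := fun h => hyz' (by rw [← h, hτ])
    have hne : τ z ≠ τ y := fun h => hyz (hinj _ _ h).symm
    obtain ⟨τa, ha, hai, hai', hax, hasum⟩ := maxp_cut ω hsym hdiag τ hτ z
    have haj : τa y = τ y := hax y hyz hyz'
    obtain ⟨τb, hb, hbj, hbj', hbx, hbsum⟩ := maxp_cut ω hsym hdiag τa ha y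
    rw [haj] at hbj' hbx hbsum
    have hbi : τb z = z := by rw [hbx z hyz.symm (Ne.symm hyz''), hai]
    obtain ⟨τc, hc, hcx, hcsum⟩ := maxp_join ω hsym hdiag τb hb z y hyz.symm hbi hbj
    have hci : τc (τ z) = τ z := by
      rw [hcx (τ z) hz hyz'.symm, hbx (τ z) hyz'.symm hne, hai']
    have hcj : τc (τ y) = τ y := by rw [hcx (τ y) hyz'' hy, hbj']
    obtain ⟨τd, hd, -, hdsum⟩ := maxp_join ω hsym hdiag τc hc (τ z) (τ y) hne hci hcj
    have hD := hmax' τd hd
    omega
  have hmove : ∀ z y, τ z ≠ z → τ y = y → ω z y ≤ ω z (τ z) := by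
    intro z y hz hy
    have hyz : y ≠ z := fun h => hz (by rw [← h, hy])
    have hyz' : y ≠ τ z := fun h => hyz (by rw [← hy, h, hτ])
    obtain ⟨τa, ha, hai, hai', hax, hasum⟩ := maxp_cut ω hsym hdiag τ hτ z
    have haj : τa y = y := (hax y hyz hyz').trans hy
    obtain ⟨τc, hc, hcx, hcsum⟩ := maxp_join ω hsym hdiag τa ha z y hyz.symm hai haj
    have hD := hmax' τc hc
    omega
  -- the extension
  let σ : V → V := fun x => if hx : x ∈ I then (τ ⟨x, hx⟩ : V) else x
  have s1 : ∀ x : {x // x ∈ I}, σ x = τ x := fun x => by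
    simp only [σ]
    rw [dif_pos x.2]
  have s2 : ∀ x, x ∉ I → σ x = x := fun x hx => by
    simp only [σ]
    rw [dif_neg hx]
  refine ⟨σ, ?_, s2, ?_, ?_⟩
  · intro x
    by_cases hx : x ∈ I
    · have h1 := s1 ⟨x, hx⟩
      have h2 := s1 (τ ⟨x, hx⟩)
      rw [hτ] at h2
      have h3 : σ x = (τ ⟨x, hx⟩ : V) := h1
      rw [h3]
      exact h2
    · rw [s2 x hx, s2 x hx]
  · rw [Finset.card_le_one]
    intro a ha b hb
    rw [Finset.mem_filter] at ha hb
    have h1 := s1 ⟨a, ha.1⟩
    have h2 := s1 ⟨b, hb.1⟩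
    have h3 : τ ⟨a, ha.1⟩ = ⟨a, ha.1⟩ := Subtype.ext (h1.symm.trans ha.2)
    have h4 : τ ⟨b, hb.1⟩ = ⟨b, hb.1⟩ := Subtype.ext (h2.symm.trans hb.2)
    exact congrArg Subtype.val (hfix _ _ h3 h4)
  · by_cases hz : ∃ z, τ z ≠ z ∧ f (τ z) = f z
    · right
      obtain ⟨z, hz1, hz2⟩ := hz
      have hw : ω z (τ z) = 1 := w1 z (τ z) (Ne.symm hz1) hz2.symm
      have hw' : ω (τ z) z = 1 := by rw [hsym, hw]
      -- every element with another value
      have key : ∀ y : {x // x ∈ I}, f y ≠ f z → f (τ y) = f z := by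
        intro y hy
        have hyz : y ≠ z := fun h => hy (by rw [h])
        have hyz' : y ≠ τ z := fun h => hy (by rw [h, hz2])
        by_cases hyf : τ y = y
        · exfalso
          have h1 := hmove z y hz1 hyf
          rw [w2 z y (Ne.symm hy)] at h1
          omega
        · by_contra hne
          have h1 := hswap z y hz1 hyf hyz hyz'
          rw [hw, w2 z y (Ne.symm hy), w2 (τ z) (τ y) (by rw [hz2]; exact Ne.symm hne)] at h1
          have h2 : ω y (τ y) ≤ 2 := by
            simp only [ω]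
            split_ifs <;> norm_num
          omega
      refine ⟨f z, ?_⟩
      have key2 : ∀ y ∈ I, f y ≠ f z → f (σ y) = f z := by
        intro y hy h
        have h1 := key ⟨y, hy⟩ h
        rw [← s1 ⟨y, hy⟩] at h1
        exact h1
      have hσI : ∀ y ∈ I, σ y ∈ I := by
        intro y hy
        have h1 := s1 ⟨y, hy⟩
        have h2 : σ y = (τ ⟨y, hy⟩ : V) := h1
        rw [h2]
        exact (τ ⟨y, hy⟩).2
      have hσσ : ∀ y ∈ I, σ (σ y) = y := by
        intro y hy
        have h1 := s1 ⟨y, hy⟩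
        have h2 := s1 (τ ⟨y, hy⟩)
        rw [hτ] at h2
        have h3 : σ y = (τ ⟨y, hy⟩ : V) := h1
        rw [h3]
        exact h2
      have hA : (I.filter fun x => f x ≠ f z).card +
          ((I.filter fun x => f x ≠ f z).image σ).card ≤
          (I.filter fun x => f (σ x) ≠ f x).card := by
        rw [← Finset.card_union_of_disjoint]
        · refine Finset.card_le_card ?_
          intro x hx
          rw [Finset.mem_union] at hx
          rcases hx with hx | hx
          · rw [Finset.mem_filter] at hx ⊢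
            refine ⟨hx.1, ?_⟩
            rw [key2 x hx.1 hx.2]
            exact Ne.symm hx.2
          · obtain ⟨y, hy, rfl⟩ := Finset.mem_image.1 hx
            rw [Finset.mem_filter] at hy ⊢
            refine ⟨hσI y hy.1, ?_⟩
            rw [hσσ y hy.1, key2 y hy.1 hy.2]
            exact hy.2
        · rw [Finset.disjoint_left]
          intro x hx hx'
          obtain ⟨y, hy, rfl⟩ := Finset.mem_image.1 hx'
          rw [Finset.mem_filter] at hy hx
          exact hx.2 (key2 y hy.1 hy.2)
      have hB : ((I.filter fun x => f x ≠ f z).image σ).card =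
          (I.filter fun x => f x ≠ f z).card := by
        apply Finset.card_image_of_injOn
        intro a ha b hb hab
        have ha' := (Finset.mem_filter.1 ha).1
        have hb' := (Finset.mem_filter.1 hb).1
        rw [← hσσ a ha', ← hσσ b hb']
        exact congrArg σ hab
      omega
    · left
      push Not at hz
      have h1 : I.card ≤ (I.filter fun x => f (σ x) ≠ f x).card +
          (I.filter fun x => σ x = x).card := by
        rw [← Finset.card_filter_add_card_filter_not (s := I) (fun x => f (σ x) ≠ f x)]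
        refine Nat.add_le_add_left (Finset.card_le_card ?_) _
        intro x hx
        rw [Finset.mem_filter] at hx ⊢
        refine ⟨hx.1, ?_⟩
        by_contra hne
        have h2 := s1 ⟨x, hx.1⟩
        have h3 : τ ⟨x, hx.1⟩ ≠ ⟨x, hx.1⟩ := fun h => hne (by
          have h4 : σ x = (τ ⟨x, hx.1⟩ : V) := h2
          rw [h4, h])
        have h5 := hz _ h3
        apply hx.2
        have h4 : σ x = (τ ⟨x, hx.1⟩ : V) := h2
        rw [h4]
        exact h5
      have h2 : (I.filter fun x => σ x = x).card ≤ 1 := by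
        rw [Finset.card_le_one]
        intro a ha b hb
        rw [Finset.mem_filter] at ha hb
        have h1 := s1 ⟨a, ha.1⟩
        have h2 := s1 ⟨b, hb.1⟩
        have h3 : τ ⟨a, ha.1⟩ = ⟨a, ha.1⟩ := Subtype.ext (h1.symm.trans ha.2)
        have h4 : τ ⟨b, hb.1⟩ = ⟨b, hb.1⟩ := Subtype.ext (h2.symm.trans hb.2)
        exact congrArg Subtype.val (hfix _ _ h3 h4)
      omega

end Pool.Agent.MXC
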