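import Pool.Agent.MXC.Gen2
import Pool.Agent.MXC.PairDiv
import Pool.Agent.MXC.NExt

namespace Pool.Agent.MXC

open Finset Pool.Agent.MP_710317_co.Rec

variable {V : Type*} [Fintype V] [DecidableEq V]

private def MAJ_B (idx : V → ℕ) (ρ : V → V) (k : V) : V → ℤ := fun i =>
  (if i = k then (if idx k < idx (ρ k) ∨ ρ k = k then 1 else 0) else 0) -
    (if i = ρ k then (if idx k < idx (ρ k) then 1 else 0) else 0)

private theorem MAJ_eval (idx : V → ℕ) (ρ : V → V) (hρ : ∀ x, ρ (ρ x) = x) (s : V → ℤ) (i : V) :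
    ∑ k, s k * MAJ_B idx ρ k i =
      s i * (if idx i < idx (ρ i) ∨ ρ i = i then 1 else 0) -
        s (ρ i) * (if idx (ρ i) < idx i then 1 else 0) := by
  have h1 : ∀ k, s k * MAJ_B idx ρ k i =
      (if k = i then s i * (if idx i < idx (ρ i) ∨ ρ i = i then 1 else 0) else 0) -
        (if k = ρ i then s (ρ i) * (if idx (ρ i) < idx i then 1 else 0) else 0) := by
    intro k
    unfold MAJ_B
    rw [mul_sub]
    congr 1
    · by_cases h : k = i
      · subst h
        simp
      · rw [if_neg h, if_neg (Ne.symm h), mul_zero]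
    · by_cases h : k = ρ i
      · subst h
        rw [hρ]
        simp
      · rw [if_neg h, if_neg (fun h2 => h (by rw [h2, hρ])), mul_zero]
  rw [Finset.sum_congr rfl fun k _ => h1 k, Finset.sum_sub_distrib]
  simp

private theorem MAJ_sumB (idx : V → ℕ) (ρ : V → V) (k : V) :
    ∑ i, MAJ_B idx ρ k i = if ρ k = k then 1 else 0 := by
  unfold MAJ_B
  rw [Finset.sum_sub_distrib]
  simp only [Finset.sum_ite_eq', Finset.mem_univ, if_true]
  by_cases h : ρ k = k
  · rw [if_pos (Or.inr h), if_pos h, if_neg (by rw [h]; exact lt_irrefl _)]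
    norm_num
  · rw [if_neg h]
    by_cases h2 : idx k < idx (ρ k)
    · rw [if_pos (Or.inl h2), if_pos h2]
      norm_num
    · rw [if_neg (by tauto), if_neg h2]
      norm_num

private theorem MAJ_Bpos (idx : V → ℕ) (ρ : V → V) (k : V) (h : idx k < idx (ρ k)) (i : V) :
    MAJ_B idx ρ k i = (if i = k then 1 else 0) - (if i = ρ k then 1 else 0) := by
  unfold MAJ_B
  rw [if_pos (Or.inl h), if_pos h]

private theorem MAJ_Bzero (idx : V → ℕ) (ρ : V → V) (k : V) (h : ¬ idx k < idx (ρ k))
    (h2 : ρ k ≠ k) (i : V) : MAJ_B idx ρ k i = 0 := by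
  unfold MAJ_B
  have h3 : ¬ (idx k < idx (ρ k) ∨ ρ k = k) := by tauto
  rw [if_neg h3, if_neg h]
  simp

private theorem MAJ_bil (v : V → V → ℤ) (a b c d : V) :
    bil v (fun i => (if i = a then 1 else 0) - (if i = b then 1 else 0))
      (fun i => (if i = c then 1 else 0) - (if i = d then 1 else 0)) =
      v a c - v a d - v b c + v b d := by
  have h1 : ∀ i, ∑ j, v i j * ((if i = a then 1 else 0) - (if i = b then 1 else 0)) *
      ((if j = c then 1 else 0) - (if j = d then 1 else 0)) =
      (if i = a then (v a c - v a d) else 0) - (if i = b then (v b c - v b d) else 0) := by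
    intro i
    have h2 : ∑ j, v i j * ((if j = c then (1 : ℤ) else 0) - (if j = d then 1 else 0)) =
        v i c - v i d := by
      simp only [mul_sub, mul_ite, mul_one, mul_zero]
      rw [Finset.sum_sub_distrib]
      simp
    have h3 : ∀ j, v i j * ((if i = a then (1 : ℤ) else 0) - (if i = b then 1 else 0)) *
        ((if j = c then 1 else 0) - (if j = d then 1 else 0)) =
        ((if i = a then (1 : ℤ) else 0) - (if i = b then 1 else 0)) *
          (v i j * ((if j = c then (1 : ℤ) else 0) - (if j = d then 1 else 0))) := by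
      intro j
      ring
    rw [Finset.sum_congr rfl fun j _ => h3 j, ← Finset.mul_sum, h2, sub_mul]
    congr 1
    · by_cases h : i = a
      · subst h
        simp
      · simp [h]
    · by_cases h : i = b
      · subst h
        simp
      · simp [h]
  unfold bil
  rw [Finset.sum_congr rfl fun i _ => h1 i, Finset.sum_sub_distrib]
  simp
  ring

private theorem MAJ_bil0 (v : V → V → ℤ) (I : Finset V) (φ ψ : V → ℤ)
    (h : ∀ i ∈ I, ∀ j ∈ I, v i j = 0) (h1 : ∀ i, i ∉ I → φ i = 0) (h2 : ∀ i, i ∉ I → ψ i = 0) :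
    bil v φ ψ = 0 := by
  unfold bil
  refine Finset.sum_eq_zero fun i _ => Finset.sum_eq_zero fun j _ => ?_
  by_cases hi : i ∈ I
  · by_cases hj : j ∈ I
    · rw [h i hi j hj]
      ring
    · rw [h2 j hj, mul_zero]
  · rw [h1 i hi]
    ring

private theorem MAJ_en {w u : V → V → ℤ} {s t : ℤ} (H : Hyp w u s t) (x : V → ℤ)
    (hx : IsSign x) : en w x = (Fintype.card V : ℤ) - (∑ i, x i) ^ 2 - bil u x x := by
  have h1 : ∀ i, ∑ j, w i j * x i * x j = x i * ∑ j, x j - 1 + ∑ j, u i j * x i * x j := by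
    intro i
    have h2 : ∀ j, w i j * x i * x j = x i * x j - (if i = j then x i * x j else 0) +
        u i j * x i * x j := by
      intro j
      by_cases hij : i = j
      · subst hij
        rw [H.sym.diag, H.usym.diag]
        simp
      · rw [H.wu i j hij, if_neg hij]
        ring
    rw [Finset.sum_congr rfl fun j _ => h2 j, Finset.sum_add_distrib, Finset.sum_sub_distrib,
      ← Finset.mul_sum]
    simp only [Finset.sum_ite_eq, Finset.mem_univ, if_true]
    have h3 : x i * x i = 1 := by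
      rcases hx i with h | h <;> rw [h] <;> norm_num
    rw [h3]
  unfold en bil
  rw [Finset.sum_congr rfl fun i _ => h1 i, Finset.sum_add_distrib, Finset.sum_sub_distrib,
    ← Finset.sum_mul]
  simp
  ring

/-- [MXC-MAJ]  Almost all fixed points of a matching have the same row differences.

Proof.  `I = Fx τ`, `f i = fun a => u a i - u (τ a) i`.  `pair_div I f` gives `σ`, let
`D = #{x ∈ I : f (σ x) ≠ f x}`.

Claim: `D + ∑ x, u x (τ x) ≤ 2 t`.  Let `ρ x = if τ x = x then σ x else τ x`; this is an involution of `V`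
with at most one fixed point (`σ` maps `I` to `I`).  Take a set of representatives of the pairs: fix a
linear order on `V` (`Fintype.equivFin`, or choose `P, K` as the Finsets of `x` with
`idx x < idx (ρ x)` for an injective `idx : V → ℕ`), `P = {x : τ x ≠ x, idx x < idx (τ x)}`,
`K = {x ∈ I : σ x = x ∨ idx x < idx (σ x)}`.  Blocks `φ p = e_p - e_{τ p}` (`p ∈ P`), units
`ψ κ = e_κ - e_{σ κ}` if `σ κ ≠ κ` and `e_κ` if `σ κ = κ` (`e_i` the unit vector).  `u = 0` on `I × I`, so
the units are orthogonal and `bil u (ψ κ) (ψ κ) = 0`.  `bil u (φ p) (φ p) = -2 u p (τ p)`, so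
`- ∑_p bil u (φ p) (φ p) = ∑ x, u x (τ x)`.  `bil u (φ p) (ψ κ) = f κ p - f (σ κ) p` (for `σ κ ≠ κ`); if
`f (σ κ) ≠ f κ` they differ at some `a`, then also at `τ a` (`f i (τ a) = - f i a`) and not at fixed points of
`τ`, so at some `p ∈ P`.  Hence `#{κ : ∃ p, ...} ≥ D / 2` (`D` counts both elements of each pair).
(Tip: index the blocks and the units by all of `V`, with the block `0` when `idx p < idx (τ p)` fails and
the unit `0` when `κ ∉ K`; zero blocks and units do no harm.)
`gen2` gives signs, and `x = ∑ η φ + ∑ ε ψ` is a sign vector with `|∑ i, x i| ≤ 1` (the blocks and the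
pairs have sum `0`, at most one single unit).  So `(∑ x) ^ 2 ≤ 1`, `≡ |V| (mod 2)`, and
`en w x = |V| - (∑ x) ^ 2 - bil u x x = 2 (|V| / 2) - bil u x x` (`w = 1 + u` off the diagonal).
With `en w x ≤ 2 s` this is `D + ∑ x, u x (τ x) ≤ 2 s - 2 (|V| / 2) = 2 t`.

If `|I| ≤ D + 1`: `∑ x, u x (τ x) ≥ #{x : τ x ≠ x} = |V| - |I|` (`hpm.pos`), so `2 t ≥ D + |V| - |I| ≥
|V| - 1`, contradiction with `t < |V| / 2` (then `2 t + 2 ≤ 2 (|V| / 2) ≤ |V|`).
Otherwise there is `b` with `2 #{x ∈ I : f x ≠ b} ≤ D`; take `δ = b` (`Fx τ \ Cs u τ δ` is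
`I.filter (f x ≠ b)`). -/
theorem majority {w u : V → V → ℤ} {s t : ℤ} (H : Hyp w u s t) {τ : V → V} (hpm : PM u τ)
    (hind : ∀ i j, τ i = i → τ j = j → u i j = 0) (ht : t < ((Fintype.card V / 2 : ℕ) : ℤ)) :
    ∃ δ : V → ℤ, 2 * (((Fx τ \ Cs u τ δ).card : ℕ) : ℤ) + ∑ x, u x (τ x) ≤ 2 * t := by
  classical
  obtain ⟨σ, hσ, hσ0, hσ1, halt⟩ := pair_div (Fx τ) (fun i => fun a => u a i - u (τ a) i)
  have memI : ∀ x, x ∈ Fx τ ↔ τ x = x := fun x => by simp [Fx]
  have hτ := hpm.inv
  obtain ⟨idx, hidx⟩ : ∃ idx : V → ℕ, Function.Injective idx :=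
    ⟨fun x => (Fintype.equivFin V x).val, fun a b h =>
      (Fintype.equivFin V).injective (Fin.val_injective h)⟩
  have hσI : ∀ x ∈ Fx τ, σ x ∈ Fx τ := by
    intro x hx
    by_contra hn
    have h1 := hσ0 _ hn
    rw [hσ] at h1
    exact hn (h1 ▸ hx)
  let ρ : V → V := fun x => if τ x = x then σ x else τ x
  have r1 : ∀ x, τ x = x → ρ x = σ x := fun x h => by simp only [ρ]; rw [if_pos h]
  have r2 : ∀ x, τ x ≠ x → ρ x = τ x := fun x h => by simp only [ρ]; rw [if_neg h]
  have hρ : ∀ x, ρ (ρ x) = x := by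
    intro x
    by_cases h : τ x = x
    · rw [r1 x h, r1 (σ x) ((memI _).1 (hσI x ((memI x).2 h))), hσ]
    · rw [r2 x h, r2 (τ x) (by rw [hτ]; exact Ne.symm h), hτ]
  let φ : V → V → ℤ := fun p i => if τ p = p then 0 else MAJ_B idx ρ p i
  let ψ : V → V → ℤ := fun κ i => if τ κ = κ then MAJ_B idx ρ κ i else 0
  have hψ0 : ∀ κ i, i ∉ Fx τ → ψ κ i = 0 := by
    intro κ i hi
    simp only [ψ]
    split_ifs with h
    · unfold MAJ_B
      have h1 : i ≠ κ := fun h2 => hi (by rw [h2]; exact (memI κ).2 h)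
      have h2 : i ≠ ρ κ := fun h2 => hi (by rw [h2, r1 κ h]; exact hσI κ ((memI κ).2 h))
      rw [if_neg h1, if_neg h2]
      norm_num
    · rfl
  have hu0 : ∀ i ∈ Fx τ, ∀ j ∈ Fx τ, u i j = 0 := fun i hi j hj =>
    hind i j ((memI i).1 hi) ((memI j).1 hj)
  have hψψ : ∀ κ κ', bil u (ψ κ) (ψ κ') = 0 := fun κ κ' =>
    MAJ_bil0 u (Fx τ) _ _ hu0 (hψ0 κ) (hψ0 κ')
  obtain ⟨η, ε, hη, hε, hg⟩ := gen2 H.usym φ ψ (fun κ κ' _ => hψψ κ κ')
  -- the sign vector
  obtain ⟨s', hs'⟩ : ∃ s' : V → ℤ, s' = fun k => if τ k = k then ε k else η k := ⟨_, rfl⟩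
  have hs's : IsSign s' := by
    intro k
    rw [hs']
    show (if τ k = k then ε k else η k) = 1 ∨ (if τ k = k then ε k else η k) = -1
    split_ifs
    · exact hε k
    · exact hη k
  have hxB : (fun i => ∑ p, η p * φ p i + ∑ κ, ε κ * ψ κ i) =
      fun i => ∑ k, s' k * MAJ_B idx ρ k i := by
    funext i
    rw [← Finset.sum_add_distrib]
    refine Finset.sum_congr rfl fun k _ => ?_
    rw [hs']
    show η k * (if τ k = k then 0 else MAJ_B idx ρ k i) +
      ε k * (if τ k = k then MAJ_B idx ρ k i else 0) =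
        (if τ k = k then ε k else η k) * MAJ_B idx ρ k i
    split_ifs
    · rw [mul_zero, zero_add]
    · rw [mul_zero, add_zero]
  rw [hxB] at hg
  obtain ⟨x, hx⟩ : ∃ x : V → ℤ, x = fun i => ∑ k, s' k * MAJ_B idx ρ k i := ⟨_, rfl⟩
  rw [← hx] at hg
  have hxs : IsSign x := by
    intro i
    rw [hx]
    show (∑ k, s' k * MAJ_B idx ρ k i) = 1 ∨ (∑ k, s' k * MAJ_B idx ρ k i) = -1
    rw [MAJ_eval idx ρ hρ]
    rcases lt_trichotomy (idx i) (idx (ρ i)) with h | h | h
    · rw [if_pos (Or.inl h), if_neg (by omega)]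
      have := hs's i
      omega
    · have h2 : ρ i = i := (hidx h).symm
      rw [if_pos (Or.inr h2), if_neg (by omega)]
      have := hs's i
      omega
    · have h2 : ρ i ≠ i := fun h3 => by rw [h3] at h; omega
      rw [if_neg (by push Not; exact ⟨by omega, h2⟩), if_pos h]
      have := hs's (ρ i)
      omega
  have hxsum : |∑ i, x i| ≤ 1 := by
    have e1 : ∑ i, x i = ∑ k ∈ univ.filter (fun k => ρ k = k), s' k := by
      rw [hx]
      show ∑ i, ∑ k, s' k * MAJ_B idx ρ k i = _
      rw [Finset.sum_comm, Finset.sum_filter]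
      refine Finset.sum_congr rfl fun k _ => ?_
      rw [← Finset.mul_sum, MAJ_sumB]
      split_ifs
      · rw [mul_one]
      · rw [mul_zero]
    have e2 : (univ.filter fun k => ρ k = k).card ≤ 1 := by
      refine le_trans (Finset.card_le_card ?_) hσ1
      intro k hk
      rw [Finset.mem_filter] at hk ⊢
      by_cases h : τ k = k
      · exact ⟨(memI k).2 h, by rw [← r1 k h]; exact hk.2⟩
      · exact absurd ((r2 k h).symm.trans hk.2) h
    rw [e1]
    refine (Finset.abs_sum_le_sum_abs _ _).trans ?_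
    have e3 : ∀ k ∈ univ.filter (fun k => ρ k = k), |s' k| = 1 := by
      intro k _
      rcases hs's k with h | h <;> rw [h] <;> norm_num
    rw [Finset.sum_congr rfl e3, Finset.sum_const, nsmul_eq_mul, mul_one]
    exact_mod_cast e2
  have hpar : (2 : ℤ) ∣ ∑ i, x i - (Fintype.card V : ℤ) := by
    have e1 : ∑ i, x i - (Fintype.card V : ℤ) = ∑ i, (x i - 1) := by
      rw [Finset.sum_sub_distrib]
      simp
    rw [e1]
    refine Finset.dvd_sum fun i _ => ?_
    rcases hxs i with h | h <;> rw [h] <;> norm_num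
  have hen := H.sb x hxs
  rw [MAJ_en H x hxs] at hen
  have hbil : - bil u x x ≤ 2 * t := by
    have h1 := H.ht
    have h2 : (∑ i, x i) ^ 2 ≤ (Fintype.card V : ℤ) - 2 * ((Fintype.card V / 2 : ℕ) : ℤ) := by
      rw [abs_le] at hxsum
      obtain ⟨c, hc⟩ := hpar
      have h3 : ∑ i, x i = -1 ∨ ∑ i, x i = 0 ∨ ∑ i, x i = 1 := by omega
      rcases h3 with h3 | h3 | h3
      · rw [h3] at hc ⊢
        norm_num
        omega
      · rw [h3] at hc ⊢
        norm_num
        omega
      · rw [h3] at hc ⊢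
        norm_num
        omega
    linarith
  -- the blocks
  have hφφ : - ∑ p, bil u (φ p) (φ p) = ∑ x, u x (τ x) := by
    have e1 : ∀ p, bil u (φ p) (φ p) = - (2 * (if idx p < idx (τ p) then u p (τ p) else 0)) := by
      intro p
      by_cases h : τ p = p
      · rw [if_neg (by rw [h]; exact lt_irrefl _)]
        have e2 : φ p = fun _ => 0 := by
          funext i
          simp only [φ]
          rw [if_pos h]
        rw [e2]
        simp [bil]
      · by_cases h2 : idx p < idx (τ p)
        · have e2 : φ p = fun i => (if i = p then 1 else 0) - (if i = τ p then 1 else 0) := by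
            funext i
            simp only [φ]
            rw [if_neg h, MAJ_Bpos idx ρ p (by rw [r2 p h]; exact h2), r2 p h]
          rw [e2, MAJ_bil, if_pos h2, H.usym.diag, H.usym.diag, H.usym.symm (τ p) p]
          ring
        · have e2 : φ p = fun _ => 0 := by
            funext i
            simp only [φ]
            rw [if_neg h, MAJ_Bzero idx ρ p (by rw [r2 p h]; exact h2) (by rw [r2 p h]; exact h)]
          rw [e2, if_neg h2]
          simp [bil]
    rw [Finset.sum_congr rfl fun p _ => e1 p, Finset.sum_neg_distrib, neg_neg, ← Finset.mul_sum]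
    have e3 : ∀ x, u x (τ x) = (if idx x < idx (τ x) then u x (τ x) else 0) +
        (if idx (τ x) < idx x then u x (τ x) else 0) := by
      intro x
      rcases lt_trichotomy (idx x) (idx (τ x)) with h | h | h
      · rw [if_pos h, if_neg (by omega), add_zero]
      · have h2 : x = τ x := hidx h
        rw [if_neg (by omega), if_neg (by omega), ← h2, H.usym.diag]
        norm_num
      · rw [if_neg (by omega), if_pos h, zero_add]
    have e4 : ∑ x, (if idx (τ x) < idx x then u x (τ x) else 0) =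
        ∑ x, (if idx x < idx (τ x) then u x (τ x) else 0) := by
      have e5 := Equiv.sum_comp (Function.Involutive.toPerm τ hτ)
        (fun x => if idx (τ x) < idx x then u x (τ x) else 0)
      rw [← e5]
      refine Finset.sum_congr rfl fun x _ => ?_
      simp only [Function.Involutive.coe_toPerm, hτ]
      rw [H.usym.symm (τ x) x]
    conv_rhs => rw [Finset.sum_congr rfl fun x _ => e3 x]
    rw [Finset.sum_add_distrib, e4]
    ring
  -- the units
  have hcnt : (((Fx τ).filter fun x => (fun a => u a (σ x) - u (τ a) (σ x)) ≠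
      fun a => u a x - u (τ a) x).card : ℤ) ≤
      2 * (((univ.filter fun κ => ∃ p, bil u (φ p) (ψ κ) ≠ 0).card : ℕ) : ℤ) := by
    set A := (Fx τ).filter fun x => idx x < idx (σ x) ∧ (fun a => u a (σ x) - u (τ a) (σ x)) ≠
      fun a => u a x - u (τ a) x with hA
    have c1 : ((Fx τ).filter fun x => (fun a => u a (σ x) - u (τ a) (σ x)) ≠
        fun a => u a x - u (τ a) x) ⊆ A ∪ A.image σ := by
      intro y hy
      rw [Finset.mem_filter] at hy
      rw [Finset.mem_union]
      rcases lt_trichotomy (idx y) (idx (σ y)) with h | h | h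
      · left
        rw [hA, Finset.mem_filter]
        exact ⟨hy.1, h, hy.2⟩
      · exact absurd (by rw [← hidx h]) hy.2
      · right
        rw [Finset.mem_image]
        refine ⟨σ y, ?_, hσ y⟩
        rw [hA, Finset.mem_filter, hσ]
        exact ⟨hσI y hy.1, h, Ne.symm hy.2⟩
    have c2 : A ⊆ univ.filter fun κ => ∃ p, bil u (φ p) (ψ κ) ≠ 0 := by
      intro κ hκ
      rw [hA, Finset.mem_filter] at hκ
      rw [Finset.mem_filter]
      refine ⟨Finset.mem_univ _, ?_⟩
      have hκτ : τ κ = κ := (memI κ).1 hκ.1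
      have hψκ : ψ κ = fun i => (if i = κ then 1 else 0) - (if i = σ κ then 1 else 0) := by
        funext i
        simp only [ψ]
        rw [if_pos hκτ, MAJ_Bpos idx ρ κ (by rw [r1 κ hκτ]; exact hκ.2.1), r1 κ hκτ]
      obtain ⟨a, ha⟩ : ∃ a, u a (σ κ) - u (τ a) (σ κ) ≠ u a κ - u (τ a) κ := by
        by_contra hn
        push Not at hn
        exact hκ.2.2 (funext hn)
      have haτ : τ a ≠ a := fun h => ha (by rw [h]; ring)
      have hval : ∀ p, τ p ≠ p → idx p < idx (τ p) →
          bil u (φ p) (ψ κ) = u p κ - u p (σ κ) - u (τ p) κ + u (τ p) (σ κ) := by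
        intro p hp hlt
        have e2 : φ p = fun i => (if i = p then 1 else 0) - (if i = τ p then 1 else 0) := by
          funext i
          simp only [φ]
          rw [if_neg hp, MAJ_Bpos idx ρ p (by rw [r2 p hp]; exact hlt), r2 p hp]
        rw [e2, hψκ, MAJ_bil]
      rcases lt_trichotomy (idx a) (idx (τ a)) with h | h | h
      · refine ⟨a, ?_⟩
        rw [hval a haτ h]
        intro h2
        apply ha
        linarith
      · exact absurd (hidx h).symm haτ
      · refine ⟨τ a, ?_⟩
        rw [hval (τ a) (by rw [hτ]; exact Ne.symm haτ) (by rw [hτ]; exact h), hτ]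
        intro h2
        apply ha
        linarith
    have c3 := Finset.card_le_card c1
    have c4 := Finset.card_union_le A (A.image σ)
    have c5 : (A.image σ).card ≤ A.card := Finset.card_image_le
    have c6 := Finset.card_le_card c2
    have c7 : ((Fx τ).filter fun x => (fun a => u a (σ x) - u (τ a) (σ x)) ≠
        fun a => u a x - u (τ a) x).card ≤
        2 * (univ.filter fun κ => ∃ p, bil u (φ p) (ψ κ) ≠ 0).card := by omega
    exact_mod_cast c7
  have hψs : ∑ κ, bil u (ψ κ) (ψ κ) = 0 := Finset.sum_eq_zero fun κ _ => hψψ κ κ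
  rw [hψs] at hg
  have hclaim : (((Fx τ).filter fun x => (fun a => u a (σ x) - u (τ a) (σ x)) ≠
      fun a => u a x - u (τ a) x).card : ℤ) + ∑ x, u x (τ x) ≤ 2 * t := by
    rw [← hφφ]
    linarith
  rcases halt with h | ⟨b, hb⟩
  · exfalso
    have h1 : (Fintype.card V : ℤ) - ((Fx τ).card : ℤ) ≤ ∑ x, u x (τ x) := by
      have e1 : ∑ x : V, (if τ x = x then (0 : ℤ) else 1) ≤ ∑ x, u x (τ x) := by
        refine Finset.sum_le_sum fun x _ => ?_
        split_ifs with h2
        · exact H.u0 _ _
        · have := hpm.pos x h2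
          omega
      have e2 : ∑ x : V, (if τ x = x then (0 : ℤ) else 1) =
          (Fintype.card V : ℤ) - ((Fx τ).card : ℤ) := by
        have e3 : ∀ x : V, (if τ x = x then (0 : ℤ) else 1) = 1 - (if τ x = x then 1 else 0) := by
          intro x
          split_ifs <;> norm_num
        rw [Finset.sum_congr rfl fun x _ => e3 x, Finset.sum_sub_distrib]
        simp [Fx]
      rw [e2] at e1
      exact e1
    have h2 : ((Fx τ).card : ℤ) ≤ (((Fx τ).filter fun x =>
        (fun a => u a (σ x) - u (τ a) (σ x)) ≠ fun a => u a x - u (τ a) x).card : ℤ) + 1 := by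
      exact_mod_cast h
    have h3 : 2 * ((Fintype.card V / 2 : ℕ) : ℤ) ≤ (Fintype.card V : ℤ) := by omega
    omega
  · refine ⟨b, ?_⟩
    have h1 : Fx τ \ Cs u τ b =
        (Fx τ).filter fun x => (fun a => u a x - u (τ a) x) ≠ b := by
      ext y
      rw [Finset.mem_sdiff, Finset.mem_filter]
      unfold Cs
      rw [Finset.mem_filter]
      constructor
      · rintro ⟨h2, h3⟩
        exact ⟨h2, fun h4 => h3 ⟨h2, fun a => congrFun h4 a⟩⟩
      · rintro ⟨h2, h3⟩
        exact ⟨h2, fun h4 => h3 (funext h4.2)⟩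
    rw [h1]
    have h2 : 2 * (((Fx τ).filter fun x => (fun a => u a x - u (τ a) x) ≠ b).card : ℤ) ≤
        (((Fx τ).filter fun x => (fun a => u a (σ x) - u (τ a) (σ x)) ≠
          fun a => u a x - u (τ a) x).card : ℤ) := by
      exact_mod_cast hb
    linarith

end Pool.Agent.MXC
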