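import Pool.Agent.MXC.Match
import Pool.Agent.MXC.Maj

/-!
# [MXC-CFG1]  First properties of the configuration

Notation: `C = Cs u τ δ`, `I = Fx τ`.
-/

namespace Pool.Agent.MXC

open Finset Pool.Agent.MP_710317_co.Rec

variable {V : Type*} [Fintype V] [DecidableEq V]

private theorem CFG1_Hb {τ : V → V} {δ : V → ℤ} {a : V} : a ∈ Hb τ δ ↔ τ a ≠ a ∧ 0 < δ a := by
  simp [Hb]

private theorem CFG1_Mr {τ : V → V} {δ : V → ℤ} {a : V} :
    a ∈ Mr τ δ ↔ τ a ≠ a ∧ a ∉ Hb τ δ ∧ τ a ∉ Hb τ δ := by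
  simp [Mr]

/-- `exists_maxPM`, `maxPM_indep`, `majority` (`t < |V| / 2` because `t ≥ 1` and `|V| ≥ 3 t + 1`). -/
theorem cfg_exists {w u : V → V → ℤ} {s t : ℤ} (H : Hyp w u s t) (ht : 1 ≤ t)
    (hN : 3 * t + 1 ≤ Fintype.card V) : ∃ τ δ, Cfg w u s t τ δ := by
  obtain ⟨τ, hτ⟩ := exists_maxPM u
  obtain ⟨δ, hδ⟩ := majority H hτ.pm (fun i j hi hj => maxPM_indep H.usym H.u0 hτ hi hj)
    (by omega)
  exact ⟨τ, δ, ⟨H, ht, hN, hτ, hδ⟩⟩

/-- `|nfx τ| ≤ ∑ x, u x (τ x)` (each non-fixed point contributes at least `1`, the fixed points `0`), and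
`maj`: `|C| = |V| - |nfx τ| - |I \ C|`, so `2 |C| ≥ 2 |V| - 2 |nfx τ| - 2 t + ∑ u x (τ x) ≥
2 |V| - |nfx τ| - 2 t ≥ 2 |V| - 4 t ≥ 2 t + 2`. -/
theorem cfg_C {w u : V → V → ℤ} {s t : ℤ} {τ : V → V} {δ : V → ℤ} (h : Cfg w u s t τ δ) :
    t + 1 ≤ ((Cs u τ δ).card : ℤ) := by
  have h1 : (nfx τ).card + (Fx τ).card = Fintype.card V := by
    have h2 := Finset.card_filter_add_card_filter_not (s := (univ : Finset V)) (fun x => τ x = x)
    rw [Finset.card_univ] at h2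
    have h3 : nfx τ = univ.filter (fun x => ¬ τ x = x) := rfl
    have h4 : Fx τ = univ.filter (fun x => τ x = x) := rfl
    rw [h3, h4]
    omega
  have hsub : Cs u τ δ ⊆ Fx τ := Finset.filter_subset _ _
  have h2 : (Fx τ \ Cs u τ δ).card + (Cs u τ δ).card = (Fx τ).card :=
    Finset.card_sdiff_add_card_eq_card hsub
  have h3 : ((nfx τ).card : ℤ) ≤ ∑ x, u x (τ x) := by
    have h4 : ∑ x ∈ nfx τ, (1 : ℤ) ≤ ∑ x ∈ nfx τ, u x (τ x) := by
      refine Finset.sum_le_sum fun x hx => ?_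
      have : τ x ≠ x := by simpa [nfx] using hx
      exact h.max.pm.pos x this
    have h5 : ∑ x ∈ nfx τ, u x (τ x) ≤ ∑ x, u x (τ x) :=
      Finset.sum_le_sum_of_subset_of_nonneg (Finset.subset_univ _) fun x _ _ => h.hyp.u0 _ _
    simp only [Finset.sum_const, nsmul_eq_mul, mul_one] at h4
    linarith
  have h4 := h.maj
  have h5 := h.card
  have h6 : ((nfx τ).card : ℤ) + ((Fx τ).card : ℤ) = Fintype.card V := by exact_mod_cast h1
  have h7 : ((Fx τ \ Cs u τ δ).card : ℤ) + ((Cs u τ δ).card : ℤ) = (Fx τ).card := by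
    exact_mod_cast h2
  have h8 : (0 : ℤ) ≤ ((Fx τ \ Cs u τ δ).card : ℤ) := by positivity
  linarith

/-- Evaluate the defining equations of an element `i` of `C` (nonempty by `cfg_C`) at `a` and at `τ a`. -/
theorem cfg_neg {w u : V → V → ℤ} {s t : ℤ} {τ : V → V} {δ : V → ℤ} (h : Cfg w u s t τ δ) (a : V) :
    δ (τ a) = - δ a := by
  have h1 := cfg_C h
  have h2 := h.tpos
  have h3 : 0 < (Cs u τ δ).card := by
    have : (0 : ℤ) < (Cs u τ δ).card := by linarith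
    exact_mod_cast this
  obtain ⟨i, hi⟩ := Finset.card_pos.mp h3
  have h4 : ∀ a, u a i - u (τ a) i = δ a := (Finset.mem_filter.mp hi).2
  have h5 := h4 a
  have h6 := h4 (τ a)
  rw [h.max.pm.inv] at h6
  linarith

/-- `a` a hub, `j ∈ I`: choose `i ∈ C`, `i ≠ j` (`|C| ≥ 2`); `u a i ≥ u a i - u (τ a) i = δ a > 0`, so
`u (τ a) j = 0` by `maxPM_aug`.  Then for `i ∈ C`: `u a i = δ a + u (τ a) i = δ a`. -/
theorem cfg_hub {w u : V → V → ℤ} {s t : ℤ} {τ : V → V} {δ : V → ℤ} (h : Cfg w u s t τ δ) {a : V}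
    (ha : a ∈ Hb τ δ) : (∀ i ∈ Cs u τ δ, u a i = δ a) ∧ ∀ j, τ j = j → u (τ a) j = 0 := by
  rw [CFG1_Hb] at ha
  have h1 := cfg_C h
  have h2 := h.tpos
  have h3 : 1 < (Cs u τ δ).card := by
    have : (1 : ℤ) < (Cs u τ δ).card := by linarith
    exact_mod_cast this
  have hj0 : ∀ j, τ j = j → u (τ a) j = 0 := by
    intro j hj
    obtain ⟨i, hi, hij⟩ := Finset.exists_mem_ne h3 j
    have h4 : ∀ a, u a i - u (τ a) i = δ a := (Finset.mem_filter.mp hi).2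
    have h5 : τ i = i := by
      have := (Finset.mem_filter.mp hi).1
      simpa [Fx] using this
    have h6 := h4 a
    have h7 := h.hyp.u0 (τ a) i
    have h8 := maxPM_aug h.hyp.usym h.max ha.1 h5 hj hij
    have h9 : 0 < u a i := by linarith [ha.2]
    by_contra h10
    exact h8 ⟨h9, lt_of_le_of_ne (h.hyp.u0 _ _) (Ne.symm h10)⟩
  refine ⟨fun i hi => ?_, hj0⟩
  have h4 : ∀ a, u a i - u (τ a) i = δ a := (Finset.mem_filter.mp hi).2
  have h5 : τ i = i := by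
    have := (Finset.mem_filter.mp hi).1
    simpa [Fx] using this
  have h6 := h4 a
  rw [hj0 i h5] at h6
  linarith

/-- `δ a ≤ 0` and `δ (τ a) = - δ a ≤ 0`. -/
theorem cfg_Mr0 {w u : V → V → ℤ} {s t : ℤ} {τ : V → V} {δ : V → ℤ} (h : Cfg w u s t τ δ) {a : V}
    (ha : a ∈ Mr τ δ) : δ a = 0 := by
  rw [CFG1_Mr, CFG1_Hb, CFG1_Hb] at ha
  obtain ⟨h1, h2, h3⟩ := ha
  have h4 : ¬ 0 < δ a := fun h5 => h2 ⟨h1, h5⟩
  have h5 : ¬ 0 < δ (τ a) := fun h6 => h3 ⟨by rw [h.max.pm.inv]; exact Ne.symm h1, h6⟩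
  rw [cfg_neg h a] at h5
  linarith

/-- `nfx τ` is the disjoint union of `Mr`, `Hb` and `τ (Hb)` (`τ a ∉ Hb` for `a ∈ Hb`, by `cfg_neg`). -/
theorem cfg_nfx {w u : V → V → ℤ} {s t : ℤ} {τ : V → V} {δ : V → ℤ} (h : Cfg w u s t τ δ) :
    (nfx τ).card = (Mr τ δ).card + 2 * (Hb τ δ).card := by
  have hinv := h.max.pm.inv
  have hinj : Function.Injective τ := fun x y hxy => by rw [← hinv x, hxy, hinv]
  have h1 : nfx τ = (Mr τ δ ∪ Hb τ δ) ∪ (Hb τ δ).image τ := by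
    ext x
    rw [Finset.mem_union, Finset.mem_union, CFG1_Mr, Finset.mem_image]
    have hx : x ∈ nfx τ ↔ τ x ≠ x := by simp [nfx]
    rw [hx]
    constructor
    · intro hx
      by_cases h2 : x ∈ Hb τ δ
      · exact Or.inl (Or.inr h2)
      · by_cases h3 : τ x ∈ Hb τ δ
        · exact Or.inr ⟨τ x, h3, hinv x⟩
        · exact Or.inl (Or.inl ⟨hx, h2, h3⟩)
    · rintro ((h2 | h2) | ⟨a, ha, rfl⟩)
      · exact h2.1
      · exact (CFG1_Hb.mp h2).1
      · rw [hinv]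
        exact Ne.symm (CFG1_Hb.mp ha).1
  have hd1 : Disjoint (Mr τ δ) (Hb τ δ) := by
    rw [Finset.disjoint_left]
    intro x hx hx'
    exact (CFG1_Mr.mp hx).2.1 hx'
  have hd2 : Disjoint (Mr τ δ ∪ Hb τ δ) ((Hb τ δ).image τ) := by
    rw [Finset.disjoint_left]
    intro x hx hx'
    obtain ⟨a, ha, rfl⟩ := Finset.mem_image.mp hx'
    rcases Finset.mem_union.mp hx with h2 | h2
    · apply (CFG1_Mr.mp h2).2.2
      rw [hinv]
      exact ha
    · have h3 := (CFG1_Hb.mp h2).2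
      have h4 := (CFG1_Hb.mp ha).2
      rw [cfg_neg h a] at h3
      linarith
  rw [h1, Finset.card_union_of_disjoint hd2, Finset.card_union_of_disjoint hd1,
    Finset.card_image_of_injective _ hinj]
  ring

/-- `univ \ IP = Hb ∪ Mr` (disjoint). -/
theorem cfg_IP {w u : V → V → ℤ} {s t : ℤ} {τ : V → V} {δ : V → ℤ} (h : Cfg w u s t τ δ) :
    Fintype.card V = (IP τ δ).card + (Hb τ δ).card + (Mr τ δ).card := by
  have hinv := h.max.pm.inv
  have hIP : ∀ x, x ∈ IP τ δ ↔ τ x = x ∨ τ x ∈ Hb τ δ := fun x => by simp [IP]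
  have hc : (IP τ δ)ᶜ = Hb τ δ ∪ Mr τ δ := by
    ext x
    rw [Finset.mem_compl, hIP, Finset.mem_union, not_or, CFG1_Mr]
    constructor
    · rintro ⟨h1, h2⟩
      by_cases h3 : x ∈ Hb τ δ
      · exact Or.inl h3
      · exact Or.inr ⟨h1, h3, h2⟩
    · rintro (h1 | h1)
      · have h2 := CFG1_Hb.mp h1
        refine ⟨h2.1, fun h3 => ?_⟩
        have h4 := (CFG1_Hb.mp h3).2
        rw [cfg_neg h x] at h4
        linarith [h2.2]
      · exact ⟨h1.1, h1.2.2⟩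
  have hd1 : Disjoint (Hb τ δ) (Mr τ δ) := by
    rw [Finset.disjoint_left]
    intro x hx hx'
    exact (CFG1_Mr.mp hx').2.1 hx
  have h1 := Finset.card_add_card_compl (IP τ δ)
  rw [hc, Finset.card_union_of_disjoint hd1] at h1
  omega

end Pool.Agent.MXC
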