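import Pool.Agent.MXC.Cfg1

/-!
# [MXC-CFG2]  Counting in the configuration
-/

namespace Pool.Agent.MXC

open Finset Pool.Agent.MP_710317_co.Rec

variable {V : Type*} [Fintype V] [DecidableEq V]

private lemma cfg2_Mr_sub (τ : V → V) (δ : V → ℤ) : Mr τ δ ⊆ nfx τ := by
  intro x hx
  have := (Finset.mem_filter.1 hx).2
  exact Finset.mem_filter.2 ⟨Finset.mem_univ _, this.1⟩

private lemma cfg2_facts {w u : V → V → ℤ} {s t : ℤ} {τ : V → V} {δ : V → ℤ}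
    (h : Cfg w u s t τ δ) :
    ∃ F : ℤ, 0 ≤ F ∧
      (Fintype.card V : ℤ) = ((nfx τ).card : ℤ) + F + ((Cs u τ δ).card : ℤ) ∧
      2 * F + ∑ x, u x (τ x) ≤ 2 * t ∧
      ∑ x ∈ Mr τ δ, u x (τ x) + 2 * ((Hb τ δ).card : ℤ) ≤ ∑ x, u x (τ x) ∧
      ((nfx τ).card : ℤ) ≤ ∑ x, u x (τ x) := by
  classical
  have hpos : ∀ x ∈ nfx τ, (1 : ℤ) ≤ u x (τ x) := fun x hx =>
    h.max.pm.pos x (Finset.mem_filter.1 hx).2
  have hsplit : ∑ x, u x (τ x) = ∑ x ∈ nfx τ, u x (τ x) := by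
    symm
    refine Finset.sum_subset (Finset.subset_univ _) ?_
    intro x _ hx
    have hx' : τ x = x := by
      by_contra hne
      exact hx (Finset.mem_filter.2 ⟨Finset.mem_univ _, hne⟩)
    rw [hx', h.hyp.usym.diag]
  refine ⟨((Fx τ \ Cs u τ δ).card : ℤ), Int.natCast_nonneg _, ?_, h.maj, ?_, ?_⟩
  · have h1 : (nfx τ).card + (Fx τ).card = Fintype.card V := by
      have hd : Disjoint (nfx τ) (Fx τ) := by
        rw [Finset.disjoint_left]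
        intro x hx hx'
        exact (Finset.mem_filter.1 hx).2 (Finset.mem_filter.1 hx').2
      rw [← Finset.card_union_of_disjoint hd, ← Finset.card_univ]
      congr 1
      ext x
      simp only [nfx, Fx, Finset.mem_union, Finset.mem_filter, Finset.mem_univ, true_and, iff_true]
      exact (ne_or_eq _ _)
    have h2 : (Fx τ \ Cs u τ δ).card + (Cs u τ δ).card = (Fx τ).card :=
      Finset.card_sdiff_add_card_eq_card (Finset.filter_subset _ _)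
    omega
  · have h1 : ∑ x ∈ nfx τ \ Mr τ δ, u x (τ x) + ∑ x ∈ Mr τ δ, u x (τ x) =
        ∑ x ∈ nfx τ, u x (τ x) := Finset.sum_sdiff (cfg2_Mr_sub τ δ)
    have h2 : ((nfx τ \ Mr τ δ).card : ℤ) ≤ ∑ x ∈ nfx τ \ Mr τ δ, u x (τ x) := by
      have := Finset.sum_le_sum (fun x (hx : x ∈ nfx τ \ Mr τ δ) =>
        hpos x (Finset.mem_sdiff.1 hx).1)
      simpa using this
    have h3 : (nfx τ \ Mr τ δ).card + (Mr τ δ).card = (nfx τ).card :=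
      Finset.card_sdiff_add_card_eq_card (cfg2_Mr_sub τ δ)
    have h4 := cfg_nfx h
    have h5 : (nfx τ \ Mr τ δ).card = 2 * (Hb τ δ).card := by omega
    rw [h5] at h2
    push_cast at h2
    linarith
  · rw [hsplit]
    have := Finset.sum_le_sum hpos
    simpa using this

/-- every vertex of `Mr` has `u x (τ x) ≥ 1` -/
theorem cfg_Mr_le {w u : V → V → ℤ} {s t : ℤ} {τ : V → V} {δ : V → ℤ} (h : Cfg w u s t τ δ) :
    ((Mr τ δ).card : ℤ) ≤ ∑ x ∈ Mr τ δ, u x (τ x) := by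
  have := Finset.sum_le_sum (fun x (hx : x ∈ Mr τ δ) =>
    (show (1 : ℤ) ≤ u x (τ x) from h.max.pm.pos x (Finset.mem_filter.1 hx).2.1))
  simpa using this

/-- `δ a ≥ 1` on the hubs -/
theorem cfg_Hb_le {w u : V → V → ℤ} {s t : ℤ} {τ : V → V} {δ : V → ℤ} (h : Cfg w u s t τ δ) :
    ((Hb τ δ).card : ℤ) ≤ ∑ a ∈ Hb τ δ, δ a := by
  have := Finset.sum_le_sum (fun x (hx : x ∈ Hb τ δ) =>
    (show (1 : ℤ) ≤ δ x from (Finset.mem_filter.1 hx).2.2))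
  simpa using this

/-- Let `H = |Hb|`, `D = ∑_{Hb} δ ≥ H`, `UM = ∑_x u x (τ x)`, `UM' = ∑_{Mr} u x (τ x) ≥ |Mr|`,
`UM ≥ UM' + 2 H` (the vertices of `Hb` and `τ (Hb)` have `u x (τ x) ≥ 1`), `2 t ≥ UM`,
`|nfx| = |Mr| + 2 H`, `|V| = |nfx| + |I \ C| + |C|`, `2 |I \ C| ≤ 2 t - UM` (`maj`).  So
`2 |C| - 2 H - (2 t - 2 D - UM') ≥ 2 |V| - 2 |nfx| - (2 t - UM) - 2 H - 2 t + 2 D + UM'
≥ 2 |V| - 4 t - 2 |Mr| - 6 H + 2 D + UM + UM' ≥ 2 |V| - 4 t - 4 H + 2 D ≥ 2 |V| - 4 t - 2 H ≥ 2 |V| - 6 t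
≥ 2` (`2 H ≤ UM ≤ 2 t`). -/
theorem cfg_cnt {w u : V → V → ℤ} {s t : ℤ} {τ : V → V} {δ : V → ℤ} (h : Cfg w u s t τ δ) :
    2 * t - 2 * ∑ a ∈ Hb τ δ, δ a - ∑ x ∈ Mr τ δ, u x (τ x) <
      2 * ((Cs u τ δ).card - (Hb τ δ).card) := by
  obtain ⟨F, h0, h1, h2, h3, h4⟩ := cfg2_facts h
  have h5 := cfg_Mr_le h
  have h6 := cfg_Hb_le h
  have h7 := cfg_nfx h
  have h8 : ((nfx τ).card : ℤ) = (Mr τ δ).card + 2 * (Hb τ δ).card := by
    rw [h7]; push_cast; ring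
  have h9 := h.card
  have h10 : (0 : ℤ) ≤ ((Mr τ δ).card : ℤ) := Int.natCast_nonneg _
  rw [h8] at h1
  linarith

/-- `2 |C| ≥ 2 |V| - 2 |nfx| - (2 t - UM) ≥ 2 |V| - |nfx| - 2 t`, `|nfx| ≤ UM ≤ 2 t`, and
`2 H ≤ |nfx|`: `2 |C| - 2 H ≥ 2 |V| - 2 |nfx| - 2 t ≥ 2 |V| - 6 t ≥ 2`. -/
theorem cfg_HC {w u : V → V → ℤ} {s t : ℤ} {τ : V → V} {δ : V → ℤ} (h : Cfg w u s t τ δ) :
    (Hb τ δ).card + 1 ≤ (Cs u τ δ).card := by
  obtain ⟨F, h0, h1, h2, h3, h4⟩ := cfg2_facts h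
  have h7 := cfg_nfx h
  have h8 : ((nfx τ).card : ℤ) = (Mr τ δ).card + 2 * (Hb τ δ).card := by
    rw [h7]; push_cast; ring
  have h9 := h.card
  have h10 : (0 : ℤ) ≤ ((Mr τ δ).card : ℤ) := Int.natCast_nonneg _
  have : (((Hb τ δ).card : ℤ)) + 1 ≤ ((Cs u τ δ).card : ℤ) := by
    linarith
  exact_mod_cast this

end Pool.Agent.MXC
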