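import Pool.Agent.MXC.Cfg1

/-!
# [MXC-CFG3]  Exchanging the partners of the hubs for majority vertices
-/

namespace Pool.Agent.MXC

open Finset Pool.Agent.MP_710317_co.Rec

variable {V : Type*} [Fintype V] [DecidableEq V]

private theorem CFG3_Hb {τ : V → V} {δ : V → ℤ} {a : V} : a ∈ Hb τ δ ↔ τ a ≠ a ∧ 0 < δ a := by
  simp [Hb]

private theorem CFG3_Mr {τ : V → V} {δ : V → ℤ} {a : V} :
    a ∈ Mr τ δ ↔ τ a ≠ a ∧ a ∉ Hb τ δ ∧ τ a ∉ Hb τ δ := by
  simp [Mr]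

private theorem CFG3_bij (S T : Finset V) (h : T.card = S.card) :
    ∃ f g : V → V, (∀ x ∈ S, f x ∈ T) ∧ (∀ x ∈ T, g x ∈ S) ∧ (∀ x ∈ S, g (f x) = x) ∧
      ∀ x ∈ T, f (g x) = x := by
  have e : S ≃ T := Finset.equivOfCardEq h.symm
  refine ⟨fun x => if h : x ∈ S then e ⟨x, h⟩ else x, fun x => if h : x ∈ T then e.symm ⟨x, h⟩ else x,
    ?_, ?_, ?_, ?_⟩
  · intro x hx
    simp [hx]
  · intro x hx
    simp [hx]
  · intro x hx
    simp [hx]
  · intro x hx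
    simp [hx]

/-- Choose `A ⊆ Cs \ Z` with `A.card = (Hb).card` (`Finset.exists_subset_card_eq`) and a bijection
`e : Hb ≃ A` (`Finset.equivOfCardEq`).  Put `τ' x = e x` for `x ∈ Hb`, `e.symm x` for `x ∈ A`,
`τ' x = x` if `τ x ∈ Hb` (the partners), `τ' x = τ x` otherwise.  (`Hb`, `A ⊆ Fx τ` and
`{x : τ x ∈ Hb}` are disjoint: `τ a ∉ Hb` for `a ∈ Hb` by `cfg_neg`.)  It is an involution, `PM` because
`u a i = δ a > 0` for `a ∈ Hb`, `i ∈ Cs` (`cfg_hub`) and `u` is symmetric.  Its non-fixed points are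
`Hb ∪ A ∪ Mr`, as many as `|Mr| + 2 |Hb| = |nfx τ|` (`cfg_nfx`), so it is a `MaxPM`. -/
theorem cfg_swap {w u : V → V → ℤ} {s t : ℤ} {τ : V → V} {δ : V → ℤ} (h : Cfg w u s t τ δ)
    (Z : Finset V) (hZ : (Hb τ δ).card ≤ (Cs u τ δ \ Z).card) :
    ∃ (τ' : V → V) (A : Finset V), A ⊆ Cs u τ δ \ Z ∧ A.card = (Hb τ δ).card ∧ MaxPM u τ' ∧
      Fx τ' = IP τ δ \ A ∧ (∀ a ∈ Mr τ δ, τ' a = τ a) ∧ (∀ a ∈ Hb τ δ, τ' a ∈ A) ∧
      ∀ x ∈ A, τ' x ∈ Hb τ δ := by
  have hinv := h.max.pm.inv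
  obtain ⟨A, hA, hAc⟩ := Finset.exists_subset_card_eq hZ
  obtain ⟨f, g, hf, hg, hgf, hfg⟩ := CFG3_bij (Hb τ δ) A hAc
  have hAC : ∀ x ∈ A, x ∈ Cs u τ δ := fun x hx => (Finset.mem_sdiff.mp (hA hx)).1
  have hAF : ∀ x ∈ A, τ x = x := by
    intro x hx
    have := (Finset.mem_filter.mp (hAC x hx)).1
    simpa [Fx] using this
  have hHA : ∀ x ∈ Hb τ δ, x ∉ A := fun x hx hx' => (CFG3_Hb.mp hx).1 (hAF x hx')
  have hAH : ∀ x ∈ A, x ∉ Hb τ δ := fun x hx hx' => hHA x hx' hx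
  have hHH : ∀ x ∈ Hb τ δ, τ x ∉ Hb τ δ := by
    intro x hx hx'
    have h3 := (CFG3_Hb.mp hx').2
    have h4 := (CFG3_Hb.mp hx).2
    rw [cfg_neg h x] at h3
    linarith
  obtain ⟨τ', hτ'⟩ : ∃ τ' : V → V, τ' = fun x => if x ∈ Hb τ δ then f x else
    if x ∈ A then g x else if τ x ∈ Hb τ δ then x else τ x := ⟨_, rfl⟩
  have t1 : ∀ x ∈ Hb τ δ, τ' x = f x := by
    intro x hx
    rw [hτ']
    simp only [hx, if_true]
  have t2 : ∀ x ∈ A, τ' x = g x := by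
    intro x hx
    rw [hτ']
    simp only [hAH x hx, hx, if_true, if_false]
  have t3 : ∀ x, x ∉ Hb τ δ → x ∉ A → τ x ∈ Hb τ δ → τ' x = x := by
    intro x h1 h2 h3
    rw [hτ']
    simp only [h1, h2, h3, if_true, if_false]
  have t4 : ∀ x, x ∉ Hb τ δ → x ∉ A → τ x ∉ Hb τ δ → τ' x = τ x := by
    intro x h1 h2 h3
    rw [hτ']
    simp only [h1, h2, h3, if_false]
  have hPM : PM u τ' := by
    constructor
    · intro x
      by_cases h1 : x ∈ Hb τ δ
      · rw [t1 x h1, t2 _ (hf x h1), hgf x h1]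
      by_cases h2 : x ∈ A
      · rw [t2 x h2, t1 _ (hg x h2), hfg x h2]
      by_cases h3 : τ x ∈ Hb τ δ
      · rw [t3 x h1 h2 h3, t3 x h1 h2 h3]
      · have h4 : τ x ∉ A := by
          intro h4
          have h5 := hAF _ h4
          rw [hinv] at h5
          exact h2 (h5 ▸ h4)
        rw [t4 x h1 h2 h3, t4 _ h3 h4 (by rw [hinv]; exact h1), hinv]
    · intro x hx
      by_cases h1 : x ∈ Hb τ δ
      · rw [t1 x h1, (cfg_hub h h1).1 _ (hAC _ (hf x h1))]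
        exact (CFG3_Hb.mp h1).2
      by_cases h2 : x ∈ A
      · rw [t2 x h2, h.hyp.usym.symm, (cfg_hub h (hg x h2)).1 _ (hAC _ h2)]
        exact (CFG3_Hb.mp (hg x h2)).2
      by_cases h3 : τ x ∈ Hb τ δ
      · exact absurd (t3 x h1 h2 h3) hx
      · rw [t4 x h1 h2 h3] at hx ⊢
        exact h.max.pm.pos x hx
  have hnf : nfx τ' = (Hb τ δ ∪ A) ∪ Mr τ δ := by
    ext x
    rw [Finset.mem_union, Finset.mem_union, CFG3_Mr]
    have hx : x ∈ nfx τ' ↔ τ' x ≠ x := by simp [nfx]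
    rw [hx]
    by_cases h1 : x ∈ Hb τ δ
    · refine ⟨fun _ => Or.inl (Or.inl h1), fun _ => ?_⟩
      rw [t1 x h1]
      intro h2
      exact hHA x h1 (h2 ▸ hf x h1)
    by_cases h2 : x ∈ A
    · refine ⟨fun _ => Or.inl (Or.inr h2), fun _ => ?_⟩
      rw [t2 x h2]
      intro h3
      exact h1 (h3 ▸ hg x h2)
    by_cases h3 : τ x ∈ Hb τ δ
    · rw [t3 x h1 h2 h3]
      constructor
      · intro h4
        exact absurd rfl h4
      · rintro ((h4 | h4) | h4)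
        · exact absurd h4 h1
        · exact absurd h4 h2
        · exact absurd h3 h4.2.2
    · rw [t4 x h1 h2 h3]
      constructor
      · intro h4
        exact Or.inr ⟨h4, h1, h3⟩
      · rintro ((h4 | h4) | h4)
        · exact absurd h4 h1
        · exact absurd h4 h2
        · exact h4.1
  have hd1 : Disjoint (Hb τ δ) A := by
    rw [Finset.disjoint_left]
    exact fun x hx => hHA x hx
  have hd2 : Disjoint (Hb τ δ ∪ A) (Mr τ δ) := by
    rw [Finset.disjoint_left]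
    intro x hx hx'
    rw [CFG3_Mr] at hx'
    rcases Finset.mem_union.mp hx with h1 | h1
    · exact hx'.2.1 h1
    · exact hx'.1 (hAF x h1)
  have hcard : (nfx τ').card = (nfx τ).card := by
    rw [hnf, Finset.card_union_of_disjoint hd2, Finset.card_union_of_disjoint hd1, hAc, cfg_nfx h]
    ring
  refine ⟨τ', A, hA, hAc, ⟨hPM, fun σ hσ => by rw [hcard]; exact h.max.max σ hσ⟩, ?_, ?_, ?_, ?_⟩
  · ext x
    have hx1 : x ∈ Fx τ' ↔ τ' x = x := by simp [Fx]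
    have hx2 : x ∈ IP τ δ ↔ τ x = x ∨ τ x ∈ Hb τ δ := by simp [IP]
    rw [hx1, Finset.mem_sdiff, hx2]
    by_cases h1 : x ∈ Hb τ δ
    · rw [t1 x h1]
      constructor
      · intro h2
        exact absurd (h2 ▸ hf x h1) (hHA x h1)
      · rintro ⟨h2 | h2, _⟩
        · exact absurd h2 (CFG3_Hb.mp h1).1
        · exact absurd h2 (hHH x h1)
    by_cases h2 : x ∈ A
    · rw [t2 x h2]
      constructor
      · intro h3
        exact absurd (h3 ▸ hg x h2) h1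
      · rintro ⟨_, h3⟩
        exact absurd h2 h3
    by_cases h3 : τ x ∈ Hb τ δ
    · rw [t3 x h1 h2 h3]
      exact ⟨fun _ => ⟨Or.inr h3, h2⟩, fun _ => rfl⟩
    · rw [t4 x h1 h2 h3]
      constructor
      · intro h4
        exact ⟨Or.inl h4, h2⟩
      · rintro ⟨h4 | h4, _⟩
        · exact h4
        · exact absurd h4 h3
  · intro a ha
    rw [CFG3_Mr] at ha
    exact t4 a ha.2.1 (fun h2 => ha.1 (hAF a h2)) ha.2.2
  · intro a ha
    rw [t1 a ha]
    exact hf a ha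
  · intro x hx
    rw [t2 x hx]
    exact hg x hx

end Pool.Agent.MXC
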