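import Pool.Agent.MXC.Cfg2
import Pool.Agent.MXC.Cfg3

/-!
# [MXC-CFG4]  Independence, and the edges to the remaining pairs
-/

namespace Pool.Agent.MXC

open Finset Pool.Agent.MP_710317_co.Rec

variable {V : Type*} [Fintype V] [DecidableEq V]

private theorem cfg4_swap {w u : V → V → ℤ} {s t : ℤ} {τ : V → V} {δ : V → ℤ}
    (h : Cfg w u s t τ δ) {x y : V} (hx : x ∈ IP τ δ) (hy : y ∈ IP τ δ)
    (hne : ¬ (τ x = x ∧ τ y = y)) :
    ∃ τ' : V → V, MaxPM u τ' ∧ τ' x = x ∧ τ' y = y ∧ ∀ a ∈ Mr τ δ, τ' a = τ a := by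
  have hC : ∀ z, z ∈ Cs u τ δ → τ z = z := by
    intro z hz
    have h1 := (mem_filter.1 hz).1
    exact (mem_filter.1 h1).2
  have hcard : (Cs u τ δ).card ≤ (Cs u τ δ \ {x, y}).card + 1 := by
    by_cases hτx : τ x = x
    · have hτy : τ y ≠ y := fun h2 => hne ⟨hτx, h2⟩
      have h3 : Cs u τ δ ⊆ insert x (Cs u τ δ \ {x, y}) := by
        intro z hz
        by_cases hzx : z = x
        · simp [hzx]
        · refine mem_insert_of_mem (mem_sdiff.2 ⟨hz, ?_⟩)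
          have hzy : z ≠ y := fun h4 => hτy (h4 ▸ hC z hz)
          simp [hzx, hzy]
      exact (card_le_card h3).trans (card_insert_le _ _)
    · have h3 : Cs u τ δ ⊆ insert y (Cs u τ δ \ {x, y}) := by
        intro z hz
        by_cases hzy : z = y
        · simp [hzy]
        · refine mem_insert_of_mem (mem_sdiff.2 ⟨hz, ?_⟩)
          have hzx : z ≠ x := fun h4 => hτx (h4 ▸ hC z hz)
          simp [hzx, hzy]
      exact (card_le_card h3).trans (card_insert_le _ _)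
  have hHC := cfg_HC h
  obtain ⟨τ', A, hA, _, hmax, hFx, hMr, _, _⟩ := cfg_swap h {x, y} (by omega)
  have hmem : ∀ z, z ∈ IP τ δ → (z = x ∨ z = y) → τ' z = z := by
    intro z hz hzz
    have h1 : z ∈ Fx τ' := by
      rw [hFx]
      refine mem_sdiff.2 ⟨hz, fun h2 => ?_⟩
      have h3 := (mem_sdiff.1 (hA h2)).2
      apply h3
      rcases hzz with h4 | h4 <;> simp [h4]
    exact (mem_filter.1 h1).2
  exact ⟨τ', hmax, hmem x hx (Or.inl rfl), hmem y hy (Or.inr rfl), hMr⟩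

/-- If `x` and `y` are both fixed by `τ`: `maxPM_indep`.  Otherwise at most one of them lies in
`Cs ⊆ Fx τ`, so `|Cs \ {x, y}| ≥ |Cs| - 1 ≥ |Hb|` (`cfg_HC`); `cfg_swap` with `Z = {x, y}` gives a `MaxPM`
`τ'` with `x, y ∈ IP \ A = Fx τ'`; `maxPM_indep` for `τ'`. -/
theorem cfg_indep {w u : V → V → ℤ} {s t : ℤ} {τ : V → V} {δ : V → ℤ} (h : Cfg w u s t τ δ)
    {x y : V} (hx : x ∈ IP τ δ) (hy : y ∈ IP τ δ) : u x y = 0 := by
  by_cases hne : τ x = x ∧ τ y = y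
  · exact maxPM_indep h.hyp.usym h.hyp.u0 h.max hne.1 hne.2
  · obtain ⟨τ', hmax, h1, h2, _⟩ := cfg4_swap h hx hy hne
    exact maxPM_indep h.hyp.usym h.hyp.u0 hmax h1 h2

/-- The same with `maxPM_aug`: if `r` and `r'` are both fixed by `τ` use `maxPM_aug` for `τ` (`τ a ≠ a`
as `a ∈ Mr`); otherwise `cfg_swap` with `Z = {r, r'}`, `r, r' ∈ Fx τ'`, `τ' a = τ a ≠ a`. -/
theorem cfg_bad {w u : V → V → ℤ} {s t : ℤ} {τ : V → V} {δ : V → ℤ} (h : Cfg w u s t τ δ)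
    {a r r' : V} (ha : a ∈ Mr τ δ) (hr : r ∈ IP τ δ) (hr' : r' ∈ IP τ δ) (hne : r ≠ r') :
    ¬ (0 < u a r ∧ 0 < u (τ a) r') := by
  have hτa : τ a ≠ a := (mem_filter.1 ha).2.1
  by_cases hf : τ r = r ∧ τ r' = r'
  · exact maxPM_aug h.hyp.usym h.max hτa hf.1 hf.2 hne
  · obtain ⟨τ', hmax, h1, h2, h3⟩ := cfg4_swap h hr hr' hf
    have h4 := h3 a ha
    have h5 := maxPM_aug h.hyp.usym hmax (a := a) (by rw [h4]; exact hτa) h1 h2 hne
    rwa [h4] at h5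

end Pool.Agent.MXC
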