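import Pool.Agent.MXC.Cfg4

namespace Pool.Agent.MXC

open Finset Pool.Agent.MP_710317_co.Rec

variable {V : Type*} [Fintype V] [DecidableEq V]

/-- [MXC-CFG5]  Few vertices of `IP` are not typical.

Proof.  `cfg_swap` with `Z = ∅` (`cfg_HC`): `τ'`, `A ⊆ Cs`.  `majority` for `τ'` (`maxPM_indep`;
`t < |V| / 2` from `tpos`, `card`): `δ'` with `2 |Fx τ' \ C'| + ∑ x, u x (τ' x) ≤ 2 t`,
`C' = Cs u τ' δ'`.
* `∑ x, u x (τ' x) = ∑_{Mr} u x (τ x) + 2 ∑_{Hb} δ`: the non-fixed points of `τ'` are `Mr`, `Hb`, `A`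
  (`Fx τ' = IP \ A`, `cfg_IP`, `A ⊆ Cs ⊆ IP`); for `a ∈ Hb`: `u a (τ' a) = δ a` (`cfg_hub`, `τ' a ∈ Cs`);
  `a ↦ τ' a` is a bijection from `Hb` to `A` and `u` is symmetric.
* So `2 |Fx τ' \ C'| ≤ 2 t - 2 ∑ δ - ∑_{Mr} < 2 (|Cs| - |Hb|) = 2 |Cs \ A|` (`cfg_cnt`), and
  `Cs \ A ⊆ Fx τ'`: there is `c0 ∈ Cs \ A` with `c0 ∈ C'`.
* Every `r ∈ C'` is `Good`: `a ∈ Hb`: `u a r - u (τ' a) r = δ' a = u a c0 - u (τ' a) c0`, and
  `u (τ' a) r = 0 = u (τ' a) c0` (`cfg_indep`; `τ' a ∈ A ⊆ IP`, `r, c0 ∈ Fx τ' ⊆ IP`), `u a c0 = δ a`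
  (`cfg_hub`).  `a ∈ Mr`: `τ' a = τ a`, `u a r - u (τ a) r = u a c0 - u (τ a) c0 = δ a = 0` (`c0 ∈ Cs`,
  `cfg_Mr0`).
* Every `r ∈ A ⊆ Cs` is `Good` (`cfg_hub`; `cfg_Mr0` and the definition of `Cs`).
So `IP.filter (¬ Good) ⊆ Fx τ' \ C'`. -/
theorem cfg_X {w u : V → V → ℤ} {s t : ℤ} {τ : V → V} {δ : V → ℤ} (h : Cfg w u s t τ δ) :
    2 * ((((IP τ δ).filter fun r => ¬ Good u τ δ r).card : ℕ) : ℤ) + 2 * ∑ a ∈ Hb τ δ, δ a +
      ∑ x ∈ Mr τ δ, u x (τ x) ≤ 2 * t := by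
  classical
  have hHC := cfg_HC h
  obtain ⟨τ', A, hA, hAc, hmax', hFx', hMr', hHb', hA'⟩ := cfg_swap h ∅ (by rw [sdiff_empty]; omega)
  rw [sdiff_empty] at hA
  have hu := h.hyp.usym
  have hind' : ∀ i j, τ' i = i → τ' j = j → u i j = 0 := fun i j hi hj =>
    maxPM_indep hu h.hyp.u0 hmax' hi hj
  obtain ⟨δ', hδ'⟩ := majority h.hyp hmax'.pm hind' (by
    have h1 := h.tpos
    have h2 := h.card
    omega)
  have hCsFx : ∀ x ∈ Cs u τ δ, τ x = x := by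
    intro x hx
    simp only [Cs, Fx, mem_filter, mem_univ, true_and] at hx
    exact hx.1
  have hCsE : ∀ x ∈ Cs u τ δ, ∀ a, u a x - u (τ a) x = δ a := by
    intro x hx
    simp only [Cs, Fx, mem_filter, mem_univ, true_and] at hx
    exact hx.2
  have hAfx : ∀ x ∈ A, τ x = x := fun x hx => hCsFx x (hA hx)
  have hfxIP : ∀ x, τ x = x → x ∈ IP τ δ := by
    intro x hx
    simp only [IP, mem_filter, mem_univ, true_and]
    exact Or.inl hx
  have hmHb : ∀ x ∈ Hb τ δ, τ x ≠ x := by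
    intro x hx
    simp only [Hb, mem_filter, mem_univ, true_and] at hx
    exact hx.1
  have hmMr : ∀ x ∈ Mr τ δ, τ x ≠ x ∧ x ∉ Hb τ δ ∧ τ x ∉ Hb τ δ := by
    intro x hx
    simp only [Mr, mem_filter, mem_univ, true_and] at hx
    exact hx
  have hmMr' : ∀ x, τ x ≠ x → x ∉ Hb τ δ → τ x ∉ Hb τ δ → x ∈ Mr τ δ := by
    intro x h1 h2 h3
    simp only [Mr, mem_filter, mem_univ, true_and]
    exact ⟨h1, h2, h3⟩
  have hpt : ∀ x, u x (τ' x) = (if x ∈ Mr τ δ then u x (τ x) else 0) +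
      (if x ∈ Hb τ δ then δ x else 0) + (if x ∈ A then δ (τ' x) else 0) := by
    intro x
    by_cases h1 : x ∈ Mr τ δ
    · have h2 : x ∉ Hb τ δ := (hmMr x h1).2.1
      have h3 : x ∉ A := fun h4 => (hmMr x h1).1 (hAfx x h4)
      rw [if_pos h1, if_neg h2, if_neg h3, hMr' x h1]
      ring
    · by_cases h2 : x ∈ Hb τ δ
      · have h3 : x ∉ A := fun h4 => (hmHb x h2) (hAfx x h4)
        rw [if_neg h1, if_pos h2, if_neg h3, (cfg_hub h h2).1 _ (hA (hHb' x h2))]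
        ring
      · by_cases h3 : x ∈ A
        · rw [if_neg h1, if_neg h2, if_pos h3, hu.symm, (cfg_hub h (hA' x h3)).1 _ (hA h3)]
          ring
        · rw [if_neg h1, if_neg h2, if_neg h3]
          have h4 : x ∈ IP τ δ := by
            simp only [IP, mem_filter, mem_univ, true_and]
            by_contra h5
            push Not at h5
            exact h1 (hmMr' x h5.1 h2 h5.2)
          have h5 : x ∈ Fx τ' := by
            rw [hFx', mem_sdiff]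
            exact ⟨h4, h3⟩
          simp only [Fx, mem_filter, mem_univ, true_and] at h5
          rw [h5, hu.diag]
          ring
  have hbij : ∑ x ∈ A, δ (τ' x) = ∑ a ∈ Hb τ δ, δ a :=
    Finset.sum_nbij' τ' τ' (fun x hx => hA' x hx) (fun x hx => hHb' x hx)
      (fun x _ => hmax'.pm.inv x) (fun x _ => hmax'.pm.inv x) (fun x _ => rfl)
  have hsum : ∑ x, u x (τ' x) = ∑ x ∈ Mr τ δ, u x (τ x) + 2 * ∑ a ∈ Hb τ δ, δ a := by
    rw [Finset.sum_congr rfl fun x _ => hpt x, Finset.sum_add_distrib, Finset.sum_add_distrib,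
      Finset.sum_ite_mem, Finset.sum_ite_mem, Finset.sum_ite_mem, univ_inter, univ_inter, univ_inter,
      hbij]
    ring
  have hcnt := cfg_cnt h
  have hsd : (Cs u τ δ \ A).card = (Cs u τ δ).card - A.card := card_sdiff_of_subset hA
  have hlt : (Fx τ' \ Cs u τ' δ').card < (Cs u τ δ \ A).card := by
    have h1 : A.card ≤ (Cs u τ δ).card := card_le_card hA
    zify [h1] at hsd ⊢
    rw [hsd]
    rw [hsum] at hδ'
    have h2 : (A.card : ℤ) = (Hb τ δ).card := by exact_mod_cast hAc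
    linarith
  obtain ⟨c0, hc0, hc0'⟩ := exists_mem_notMem_of_card_lt_card hlt
  rw [mem_sdiff] at hc0
  have hc0Fx : c0 ∈ Fx τ' := by
    rw [hFx', mem_sdiff]
    exact ⟨hfxIP c0 (hCsFx c0 hc0.1), hc0.2⟩
  have hc0C : c0 ∈ Cs u τ' δ' := by
    by_contra h1
    exact hc0' (mem_sdiff.2 ⟨hc0Fx, h1⟩)
  have hAIP : ∀ x ∈ A, x ∈ IP τ δ := fun x hx => hfxIP x (hAfx x hx)
  have hC'E : ∀ r ∈ Cs u τ' δ', ∀ a, u a r - u (τ' a) r = δ' a := by
    intro x hx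
    simp only [Cs, Fx, mem_filter, mem_univ, true_and] at hx
    exact hx.2
  have hFxIP : ∀ r ∈ Fx τ', r ∈ IP τ δ := by
    intro r hr
    rw [hFx', mem_sdiff] at hr
    exact hr.1
  have hgood1 : ∀ r ∈ Fx τ', r ∈ Cs u τ' δ' → Good u τ δ r := by
    intro r hrF hr
    have hrIP := hFxIP r hrF
    have hcIP := hFxIP c0 hc0Fx
    refine ⟨fun a ha => ?_, fun a ha => ?_⟩
    · have h1 := hC'E r hr a
      have h2 := hC'E c0 hc0C a
      have h3 := cfg_indep h (hAIP _ (hHb' a ha)) hrIP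
      have h4 := cfg_indep h (hAIP _ (hHb' a ha)) hcIP
      have h5 := (cfg_hub h ha).1 c0 hc0.1
      linarith
    · have h1 := hC'E r hr a
      have h2 := hC'E c0 hc0C a
      rw [hMr' a ha] at h1 h2
      have h3 := hCsE c0 hc0.1 a
      have h4 := cfg_Mr0 h ha
      linarith
  have hgood2 : ∀ r ∈ A, Good u τ δ r := by
    intro r hr
    refine ⟨fun a ha => (cfg_hub h ha).1 r (hA hr), fun a ha => ?_⟩
    have h3 := hCsE r (hA hr) a
    have h4 := cfg_Mr0 h ha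
    linarith
  have hsub : ((IP τ δ).filter fun r => ¬ Good u τ δ r) ⊆ Fx τ' \ Cs u τ' δ' := by
    intro r hr
    rw [mem_filter] at hr
    have h1 : r ∉ A := fun h2 => hr.2 (hgood2 r h2)
    have h2 : r ∈ Fx τ' := by
      rw [hFx', mem_sdiff]
      exact ⟨hr.1, h1⟩
    exact mem_sdiff.2 ⟨h2, fun h3 => hr.2 (hgood1 r h2 h3)⟩
  have hle : ((((IP τ δ).filter fun r => ¬ Good u τ δ r).card : ℕ) : ℤ) ≤
      (((Fx τ' \ Cs u τ' δ').card : ℕ) : ℤ) := by exact_mod_cast card_le_card hsub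
  rw [hsum] at hδ'
  linarith

end Pool.Agent.MXC
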