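import Pool.Agent.MXC.Defs
import Pool.Agent.MP_710317_co.Rec.Clq1

namespace Pool.Agent.MXC

open Finset Pool.Agent.MP_710317_co.Rec

private lemma contr_cw {V : Type} [Fintype V] [DecidableEq V] {w : V → V → ℤ} (hw : Sym w)
    {i j : V} (hij : i ≠ j) :
    cw w (fun x => if x = j then i else x) = 2 * w i j := by
  have hpt : ∀ x y : V, (if (if x = j then i else x) = (if y = j then i else y) then w x y else 0) =
      (if x = i then (if y = j then w i j else 0) else 0) +
      (if x = j then (if y = i then w i j else 0) else 0) := by
    intro x y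
    by_cases hxj : x = j
    · subst hxj
      rw [if_pos rfl, if_neg (Ne.symm hij), if_pos rfl, zero_add]
      by_cases hyx : y = x
      · subst hyx
        rw [if_pos rfl, if_pos rfl, if_neg (Ne.symm hij), hw.diag]
      · rw [if_neg hyx]
        by_cases hyi : y = i
        · subst hyi
          rw [if_pos rfl, if_pos rfl, hw.symm]
        · rw [if_neg (Ne.symm hyi), if_neg hyi]
    · rw [if_neg hxj, if_neg hxj, add_zero]
      by_cases hxi : x = i
      · subst hxi
        rw [if_pos rfl]
        by_cases hyj : y = j
        · subst hyj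
          rw [if_pos rfl, if_pos rfl, if_pos rfl]
        · rw [if_neg hyj, if_neg hyj]
          by_cases hxy : x = y
          · rw [if_pos hxy, ← hxy, hw.diag]
          · rw [if_neg hxy]
      · rw [if_neg hxi]
        by_cases hyj : y = j
        · rw [if_pos hyj, if_neg hxi]
        · rw [if_neg hyj]
          by_cases hxy : x = y
          · rw [if_pos hxy, ← hxy, hw.diag]
          · rw [if_neg hxy]
  unfold cw
  simp only [hpt]
  rw [Finset.sum_congr rfl (fun x _ => Finset.sum_add_distrib), Finset.sum_add_distrib]
  have h1 : ∑ x : V, ∑ y : V, (if x = i then (if y = j then w i j else 0) else 0) = w i j := by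
    rw [Finset.sum_eq_single i]
    · simp
    · intro x _ hx
      simp [hx]
    · intro h; exact absurd (Finset.mem_univ _) h
  have h2 : ∑ x : V, ∑ y : V, (if x = j then (if y = i then w i j else 0) else 0) = w i j := by
    rw [Finset.sum_eq_single j]
    · simp
    · intro x _ hx
      simp [hx]
    · intro h; exact absurd (Finset.mem_univ _) h
  rw [h1, h2]; ring

/-- [MXC-CONTR]  Identify two vertices.

Proof.  `c x = if x = j then i else x`, `V' = {k // k ∈ univ.image c}` (does not contain `j`, so its card
is smaller), `w' = quot w c`: `quot_sym`, `quot_inn`, `quot_en` from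
`Pool.Agent.MP_710317_co.Rec.Clq1` (definitions of `quot`, `cw` in `ClqDefs`, `PartDefs`), and
`cw w c = ∑_{x, y, c x = c y} w x y = 2 w i j` (`w x x = 0`; the only pairs `x ≠ y` with `c x = c y` are
`(i, j)`, `(j, i)`). -/
theorem contract {V : Type} [Fintype V] [DecidableEq V] {w : V → V → ℤ} (hw : Sym w) {s : ℤ}
    (hs : Sb w s) {i j : V} (hij : i ≠ j) :
    ∃ (V' : Type) (_ : Fintype V') (_ : DecidableEq V') (w' : V' → V' → ℤ),
      Fintype.card V' < Fintype.card V ∧ Sym w' ∧ inn w' univ = inn w univ - 2 * w i j ∧
      Sb w' (s + w i j) := by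
  set c : V → V := fun x => if x = j then i else x with hc
  have hcw : cw w c = 2 * w i j := contr_cw hw hij
  refine ⟨{k // k ∈ univ.image c}, Finset.Subtype.fintype (univ.image c), inferInstance, quot w c,
    ?_, quot_sym hw c, ?_, ?_⟩
  · have hcc : @Fintype.card {k // k ∈ univ.image c} (Finset.Subtype.fintype (univ.image c)) =
        (univ.image c).card := by
      rw [← Fintype.card_coe]
    rw [hcc, ← Finset.card_univ]
    refine Finset.card_lt_card ?_
    rw [Finset.ssubset_univ_iff]
    intro h
    have hj : j ∈ univ.image c := by rw [h]; exact Finset.mem_univ j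
    obtain ⟨x, _, hx⟩ := Finset.mem_image.1 hj
    by_cases hxj : x = j
    · simp only [hc, if_pos hxj] at hx
      exact hij hx
    · simp only [hc, if_neg hxj] at hx
      exact hxj hx
  · exact (quot_inn w c).trans (by rw [hcw])
  · intro e he
    have h1 := hs (fun x => e ⟨c x, mem_image_of_mem c (mem_univ x)⟩) (fun x => he _)
    have h2 := quot_en w c e he
    rw [hcw] at h2
    refine le_of_eq_of_le h2 ?_
    linarith

end Pool.Agent.MXC
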