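import Pool.Agent.MXC.TP

/-!
# [MXC-DEC]  The optimal union of complete graphs
-/

namespace Pool.Agent.MXC

open Finset Pool.Agent.MP_710317_co.Rec

private theorem Dec_two_fq (L : List ℕ) : 2 * fq L = cl L + (L.map fun B => B / 2).sum := by
  induction L with
  | nil => simp [fq, cl]
  | cons b L ih =>
    have h := two_sq b
    simp only [fq, cl, List.map_cons, List.sum_cons] at ih ⊢
    omega

private theorem Dec_T_nat (m : ℕ) : T (m : ℤ) = 2 * (mc m : ℤ) - m := by
  simp [T]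

private theorem Dec_cl_bd (B : ℕ) (L : List ℕ) (h : ∀ b ∈ L, b ≤ B) :
    cl L ≤ B * (L.map fun b => b / 2).sum := by
  induction L with
  | nil => simp [cl]
  | cons b L ih =>
    have h1 := ih fun c hc => h c (List.mem_cons_of_mem _ hc)
    have hb : b ≤ B := h b (List.mem_cons_self ..)
    have h2 : b.choose 2 ≤ B * (b / 2) := by
      rw [Nat.choose_two_right]
      rcases Nat.even_or_odd' b with ⟨k, rfl | rfl⟩
      · have e1 : 2 * k / 2 = k := by omega
        have e2 : 2 * k * (2 * k - 1) / 2 = k * (2 * k - 1) := by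
          rw [mul_assoc, Nat.mul_div_cancel_left _ (by norm_num)]
        rw [e1, e2, mul_comm B k]
        exact Nat.mul_le_mul_left _ (by omega)
      · have e1 : (2 * k + 1) / 2 = k := by omega
        have e2 : (2 * k + 1) * (2 * k + 1 - 1) / 2 = (2 * k + 1) * k := by
          have : 2 * k + 1 - 1 = 2 * k := by omega
          rw [this, show (2 * k + 1) * (2 * k) = 2 * ((2 * k + 1) * k) by ring,
            Nat.mul_div_cancel_left _ (by norm_num)]
        rw [e1, e2]
        exact Nat.mul_le_mul_right _ hb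
    simp only [cl, List.map_cons, List.sum_cons] at h1 ⊢
    rw [mul_add]
    omega

/-- Take `L` with `m ≤ cl L`, `fq L = mc m` (`mc_spec`).  Some element of `L` is `≥ 2` (otherwise
`cl L = 0 < m`); let `B` be the largest element of `L`, `L' = L.erase B` (so `cl L = C(B,2) + cl L'`,
`fq L = B ^ 2 / 4 + fq L'`, e.g. from `List.perm_cons_erase` and the invariance of `cl`, `fq` under
permutations).
(1) `T m = B / 2 + T (m - C(B,2))`: `≤` is `T_step`; `≥`: `m - C(B,2) ≤ cl L'` gives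
`mc (m - C(B,2)).toNat ≤ fq L'` (`mc_le`), so `T (m - C(B,2)) ≤ 2 fq L' - (m - C(B,2)) =
2 fq L - 2 (B ^ 2 / 4) + C(B,2) - m = T m - B / 2` (`two_sq`).
(2) `m ≤ B * T m`: `T m = 2 fq L - m = ∑ (b / 2) + cl L - m` (`two_sq` termwise), `B * (b / 2) ≥ C(b,2)` for
`b ≤ B` (`b (b - 1) / 2 ≤ b * (b / 2)`), so `B * T m ≥ cl L + B (cl L - m) ≥ m`. -/
theorem T_dec (m : ℕ) (hm : 1 ≤ m) : ∃ B : ℕ, 2 ≤ B ∧
    T m = ((B / 2 : ℕ) : ℤ) + T ((m : ℤ) - ((B.choose 2 : ℕ) : ℤ)) ∧ (m : ℤ) ≤ B * T m := by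
  obtain ⟨L, hL, hfq⟩ := mc_spec m
  have hne : L ≠ [] := by
    rintro rfl
    simp [cl] at hL
    omega
  obtain ⟨B, hBm, hBmax⟩ := L.toFinset.exists_max_image id (by
    obtain ⟨x, hx⟩ := List.exists_mem_of_ne_nil L hne
    exact ⟨x, by simpa using hx⟩)
  have hBL : B ∈ L := by simpa using hBm
  have hmax : ∀ b ∈ L, b ≤ B := fun b hb => hBmax b (by simpa using hb)
  have hperm := List.perm_cons_erase hBL
  have hcl : cl L = B.choose 2 + cl (L.erase B) := by
    have := (hperm.map fun B => B.choose 2).sum_eq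
    simpa [cl] using this
  have hfq' : fq L = B ^ 2 / 4 + fq (L.erase B) := by
    have := (hperm.map fun B => B ^ 2 / 4).sum_eq
    simpa [fq] using this
  have hbd := Dec_cl_bd B L hmax
  have h2 := Dec_two_fq L
  have hTm := Dec_T_nat m
  have hB2 : 2 ≤ B := by
    by_contra hlt
    have hz : (L.map fun b => b / 2).sum = 0 := by
      apply List.sum_eq_zero
      intro x hx
      obtain ⟨b, hb, rfl⟩ := List.mem_map.1 hx
      have := hmax b hb
      omega
    rw [hz] at hbd
    omega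
  refine ⟨B, hB2, le_antisymm (T_step B m) ?_, ?_⟩
  · have hle : mc ((m : ℤ) - ((B.choose 2 : ℕ) : ℤ)).toNat ≤ fq (L.erase B) := mc_le (by omega)
    have hT : T ((m : ℤ) - ((B.choose 2 : ℕ) : ℤ)) =
      2 * (mc ((m : ℤ) - ((B.choose 2 : ℕ) : ℤ)).toNat : ℤ) - ((m : ℤ) - ((B.choose 2 : ℕ) : ℤ)) := rfl
    have h2B := two_sq B
    rw [hT, hTm]
    omega
  · have hTm' : T (m : ℤ) = ((L.map fun B => B / 2).sum : ℕ) + ((cl L : ℤ) - m) := by
      rw [hTm]
      omega
    rw [hTm']
    have h3 : (0 : ℤ) ≤ (cl L : ℤ) - m := by omega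
    have h4 : (cl L : ℤ) ≤ B * ((L.map fun b => b / 2).sum : ℕ) := by exact_mod_cast hbd
    have h5 : (0 : ℤ) ≤ B * ((cl L : ℤ) - m) := by positivity
    have h6 : (m : ℤ) ≤ cl L := by omega
    calc (m : ℤ) ≤ cl L := h6
      _ ≤ B * ((L.map fun b => b / 2).sum : ℕ) + B * ((cl L : ℤ) - m) := by linarith
      _ = _ := by ring

private theorem Dec_S (L : List ℕ) :
    2 * cl L ≤ (L.map fun b => b - 1).sum * ((L.map fun b => b - 1).sum + 1) ∧
    (L.map fun b => b - 1).sum ≤ 2 * (L.map fun b => b / 2).sum := by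
  induction L with
  | nil => simp [cl]
  | cons b L ih =>
    obtain ⟨ih1, ih2⟩ := ih
    simp only [cl, List.map_cons, List.sum_cons] at ih1 ih2 ⊢
    set s := (L.map fun b => b - 1).sum
    constructor
    · have hb : 2 * b.choose 2 = (b - 1) * (b - 1 + 1) := by
        rcases b with _ | b
        · simp
        · rw [Nat.choose_two_right, Nat.mul_div_cancel' (by
            simpa [mul_comm] using (Nat.even_mul_succ_self b).two_dvd)]
          simp [mul_comm]
      have : (b - 1 + s) * (b - 1 + s + 1) = (b - 1) * (b - 1 + 1) + s * (s + 1) + 2 * ((b - 1) * s) := by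
        ring
      rw [this, mul_add, hb]
      omega
    · omega

/-- `L` as before, `S = ∑ (b - 1)` over the elements `b ≥ 1` of `L` (natural subtraction).
`S ≤ 2 ∑ (b / 2) ≤ 2 T m` (`T m = ∑ (b / 2) + (cl L - m)`), and `2 cl L ≤ S (S + 1)` by induction on the
list (`b (b - 1) = (b - 1) ^ 2 + (b - 1)`, and `(x + y) (x + y + 1) ≥ x (x + 1) + y (y + 1)`).
So `2 m ≤ 2 cl L ≤ S (S + 1) ≤ 2 T m (2 T m + 1)`. -/
theorem T_edw (m : ℕ) : (m : ℤ) ≤ T m * (2 * T m + 1) := by
  obtain ⟨L, hL, hfq⟩ := mc_spec m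
  obtain ⟨h1, h2⟩ := Dec_S L
  have h3 := Dec_two_fq L
  have hTm := Dec_T_nat m
  set s := (L.map fun b => b - 1).sum
  have hs : (s : ℤ) ≤ 2 * T m := by rw [hTm]; omega
  have h4 : 2 * (m : ℤ) ≤ s * (s + 1) := by
    have : 2 * m ≤ s * (s + 1) := by omega
    exact_mod_cast this
  have hs0 : (0 : ℤ) ≤ s := by positivity
  nlinarith

end Pool.Agent.MXC
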