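import Pool.Agent.MP_710317_co.Rec.Pair
import Pool.Agent.MP_710317_co.Rec.Gen

/-!
# The least Max-Cut for every number of edges: definitions

`Sym w`, `inn w S` (sum over ordered pairs inside `S`), `IsSign e`, `en w e = - ∑ i, ∑ j, w i j e i e j`
(twice the surplus of the cut of the signs `e`) and `Sb w s` (all surpluses are at most `s`) are from
`Pool.Agent.MP_710317_co.Rec`.
-/

namespace Pool.Agent.MXC

open Finset Pool.Agent.MP_710317_co.Rec

/-- The number of edges of the disjoint union of the complete graphs with the orders in `L`. -/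
def cl (L : List ℕ) : ℕ := (L.map fun B => B.choose 2).sum

/-- The largest cut of the disjoint union of the complete graphs with the orders in `L`. -/
def fq (L : List ℕ) : ℕ := (L.map fun B => B ^ 2 / 4).sum

/-- The least largest cut over the disjoint unions of complete graphs with at least `m` edges. -/
noncomputable def mc (m : ℕ) : ℕ := sInf {c | ∃ L : List ℕ, m ≤ cl L ∧ fq L = c}

/-- The surplus function `2 mc(m) - m` (and `-m` for `m ≤ 0`). -/
noncomputable def T (m : ℤ) : ℤ := 2 * (mc m.toNat : ℤ) - m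

/-- the number of matchings needed to cover a complete graph (`σ` for odd `σ`, `σ - 1` for even) -/
def qf (σ : ℕ) : ℕ := if σ % 2 = 1 then σ else σ - 1

section

variable {V : Type*} [Fintype V] [DecidableEq V]

/-- `w = 1 + u` off the diagonal, `u ≥ 0`, all surpluses of `w` are at most `s`,
`t = s - ⌊|V|/2⌋`. -/
structure Hyp (w u : V → V → ℤ) (s t : ℤ) : Prop where
  sym : Sym w
  usym : Sym u
  u0 : ∀ i j, 0 ≤ u i j
  wu : ∀ i j, i ≠ j → w i j = 1 + u i j
  sb : Sb w s
  ht : t = s - ((Fintype.card V / 2 : ℕ) : ℤ)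

/-- the bilinear form of `v` -/
def bil (v : V → V → ℤ) (φ ψ : V → ℤ) : ℤ := ∑ i, ∑ j, v i j * φ i * ψ j

/-- The vertices of `R` have weight `b j` to every other vertex `j`, and `b = 1` on `R`. -/
structure Twin (w : V → V → ℤ) (b : V → ℤ) (R : Finset V) : Prop where
  one : ∀ r ∈ R, b r = 1
  row : ∀ r ∈ R, ∀ j, j ≠ r → w r j = b j

/-- The rest matrix `w - b b^T` on the vertices outside `R`. -/
def rv (w : V → V → ℤ) (b : V → ℤ) (R : Finset V) :
    {x // x ∉ R} → {x // x ∉ R} → ℤ :=
  fun x y => if x = y then 0 else w x y - b x * b y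

/-- the non-fixed points of `τ` -/
def nfx (τ : V → V) : Finset V := univ.filter fun x => τ x ≠ x

/-- the fixed points of `τ` -/
def Fx (τ : V → V) : Finset V := univ.filter fun x => τ x = x

/-- `τ` is (the involution of) a matching of pairs with positive `u` -/
structure PM (u : V → V → ℤ) (τ : V → V) : Prop where
  inv : ∀ x, τ (τ x) = x
  pos : ∀ x, τ x ≠ x → 0 < u x (τ x)

/-- a matching of positive pairs with the largest number of pairs -/
structure MaxPM (u : V → V → ℤ) (τ : V → V) : Prop where
  pm : PM u τ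
  max : ∀ σ, PM u σ → (nfx σ).card ≤ (nfx τ).card

/-- the fixed points whose row differences along `τ` are `δ` -/
def Cs (u : V → V → ℤ) (τ : V → V) (δ : V → ℤ) : Finset V :=
  (Fx τ).filter fun i => ∀ a, u a i - u (τ a) i = δ a

/-- the hubs -/
def Hb (τ : V → V) (δ : V → ℤ) : Finset V := univ.filter fun a => τ a ≠ a ∧ 0 < δ a

/-- the fixed points and the partners of the hubs -/
def IP (τ : V → V) (δ : V → ℤ) : Finset V := univ.filter fun x => τ x = x ∨ τ x ∈ Hb τ δ

/-- the vertices of the remaining pairs (no hub) -/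
def Mr (τ : V → V) (δ : V → ℤ) : Finset V :=
  univ.filter fun x => τ x ≠ x ∧ x ∉ Hb τ δ ∧ τ x ∉ Hb τ δ

/-- `r` has the typical row: `δ a` at the hubs, equal values on the remaining pairs -/
def Good (u : V → V → ℤ) (τ : V → V) (δ : V → ℤ) (r : V) : Prop :=
  (∀ a ∈ Hb τ δ, u a r = δ a) ∧ ∀ a ∈ Mr τ δ, u a r = u (τ a) r

instance (u : V → V → ℤ) (τ : V → V) (δ : V → ℤ) : DecidablePred (Good u τ δ) := fun r => by
  unfold Good; infer_instance

/-- The configuration: a largest matching `τ` of positive pairs, and the majority row differences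
`δ` of its fixed points. -/
structure Cfg (w u : V → V → ℤ) (s t : ℤ) (τ : V → V) (δ : V → ℤ) : Prop where
  hyp : Hyp w u s t
  tpos : 1 ≤ t
  card : 3 * t + 1 ≤ Fintype.card V
  max : MaxPM u τ
  maj : 2 * (((Fx τ \ Cs u τ δ).card : ℕ) : ℤ) + ∑ x, u x (τ x) ≤ 2 * t

end

end Pool.Agent.MXC
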