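import Pool.Agent.MXC.Avg

namespace Pool.Agent.MXC

open Finset Pool.Agent.MP_710317_co.Rec

variable {V : Type*} [Fintype V] [DecidableEq V]

/-- [MXC-EDGE]  The total weight in terms of the twin class.

Proof.  Split the double sum by `R` and `Rᶜ`: inside `R` it is `0` (`u r j = β j = 0` for `j ∈ R`), the
two mixed parts are `∑_{r∈R} ∑_{j∈Rᶜ} β j = |R| ∑ β` (`β = 0` on `R`), inside `Rᶜ` use `avg`. -/
theorem edge_bound {w u : V → V → ℤ} {s t : ℤ} (H : Hyp w u s t) {R : Finset V} {β : V → ℤ}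
    (h0 : ∀ r ∈ R, β r = 0) (h : ∀ r ∈ R, ∀ j, u r j = β j) :
    inn u univ ≤ 2 * ((∑ j, β j) * R.card + t * qf (Rᶜ).card) := by
  have hav := avg H Rᶜ
  have h1 : ∀ r ∈ R, ∑ j, u r j = ∑ j, β j := fun r hr =>
    Finset.sum_congr rfl fun j _ => h r hr j
  have h2 : inn u univ = (∑ j, β j) * R.card + ∑ i ∈ Rᶜ, ∑ j, u i j := by
    unfold inn
    rw [← Finset.sum_add_sum_compl R, Finset.sum_congr rfl h1, Finset.sum_const, nsmul_eq_mul,
      mul_comm]
  have h3 : ∑ i ∈ Rᶜ, ∑ j, u i j = (∑ i ∈ Rᶜ, ∑ j ∈ R, u i j) + inn u Rᶜ := by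
    unfold inn
    rw [← Finset.sum_add_distrib]
    exact Finset.sum_congr rfl fun i _ => (Finset.sum_add_sum_compl R _).symm
  have h4 : ∑ i ∈ Rᶜ, ∑ j ∈ R, u i j = (∑ j, β j) * R.card := by
    rw [Finset.sum_comm]
    have h5 : ∀ j ∈ R, ∑ i ∈ Rᶜ, u i j = ∑ j, β j := by
      intro j hj
      rw [← Finset.sum_add_sum_compl R β, Finset.sum_eq_zero h0, zero_add]
      refine Finset.sum_congr rfl fun i _ => ?_
      rw [H.usym.symm i j, h j hj]
    rw [Finset.sum_congr rfl h5, Finset.sum_const, nsmul_eq_mul, mul_comm]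
  rw [h2, h3, h4]
  linarith

end Pool.Agent.MXC
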