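import Pool.Agent.MXC.Defs

/-!
# [MXC-EXT]  Restriction to the complement of a twin class
-/

namespace Pool.Agent.MXC

open Finset Pool.Agent.MP_710317_co.Rec

variable {V : Type*} [Fintype V] [DecidableEq V]

/-- Balanced filling.  Induction on `R` (`Finset.induction_on`, generalizing `z`): for `insert a R` choose
`e a = -1` if `z > 0` and `e a = 1` otherwise, then `|z + e a| ≤ max (|z| - 1) 1 ≤ R.card + 1`; apply the
induction hypothesis to `z + e a` and change it at `a` (`a ∉ R`). -/
theorem bal (R : Finset V) (z : ℤ) (hz : |z| ≤ (R.card : ℤ) + 1) (e0 : V → ℤ) (he0 : IsSign e0) :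
    ∃ e : V → ℤ, IsSign e ∧ (∀ x, x ∉ R → e x = e0 x) ∧ |z + ∑ i ∈ R, e i| ≤ 1 := by
  induction R using Finset.induction_on generalizing z with
  | empty =>
    refine ⟨e0, he0, fun _ _ => rfl, ?_⟩
    simpa using hz
  | insert a R ha ih =>
    rw [Finset.card_insert_of_notMem ha] at hz
    push_cast at hz
    obtain ⟨t, ht, hzt⟩ : ∃ t : ℤ, (t = 1 ∨ t = -1) ∧ |z + t| ≤ (R.card : ℤ) + 1 := by
      rw [abs_le] at hz
      rcases lt_or_ge 0 z with h | h
      · refine ⟨-1, Or.inr rfl, ?_⟩
        rw [abs_le]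
        constructor <;> linarith [hz.1, hz.2, (Nat.cast_nonneg R.card : (0 : ℤ) ≤ R.card)]
      · refine ⟨1, Or.inl rfl, ?_⟩
        rw [abs_le]
        constructor <;> linarith [hz.1, hz.2, (Nat.cast_nonneg R.card : (0 : ℤ) ≤ R.card)]
    obtain ⟨e, he, hout, hle⟩ := ih (z + t) hzt
    refine ⟨Function.update e a t, ?_, ?_, ?_⟩
    · intro i
      by_cases hi : i = a
      · subst hi
        rw [Function.update_self]
        exact ht
      · rw [Function.update_of_ne hi]
        exact he i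
    · intro x hx
      rw [Finset.mem_insert, not_or] at hx
      rw [Function.update_of_ne hx.1]
      exact hout x hx.2
    · rw [Finset.sum_insert ha, Function.update_self]
      have h1 : ∑ i ∈ R, Function.update e a t i = ∑ i ∈ R, e i :=
        Finset.sum_congr rfl fun i hi => Function.update_of_ne (fun h : i = a => ha (h ▸ hi)) _ _
      rw [h1, ← add_assoc]
      exact hle

theorem rv_sym {w : V → V → ℤ} (hw : Sym w) (b : V → ℤ) (R : Finset V) : Sym (rv w b R) := by
  constructor
  · intro x y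
    unfold rv
    by_cases h : x = y
    · subst h
      rfl
    · rw [if_neg h, if_neg (Ne.symm h), hw.symm x y, mul_comm]
  · intro x
    unfold rv
    rw [if_pos rfl]

/-- For every `e : V → ℤ` put `M = ∑_{i ≠ j} (w i j - b i b j) e i e j` (over `V`).  The terms with `i ∈ R`
or `j ∈ R` vanish (`hT.row`, `hT.one`, symmetry of `w`), so `M = ∑_{x,y} rv w b R x y e x e y`
(sums over the subtype: `Finset.sum_subtype` or `Finset.sum_coe_sort`/`Finset.sum_attach` over `Rᶜ`);
and `M = ∑ w e e - (∑ b e) ^ 2 + ∑ b ^ 2 e ^ 2` (`w i i = 0`). -/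
theorem rv_form {w : V → V → ℤ} (hw : Sym w) {b : V → ℤ} {R : Finset V} (hT : Twin w b R)
    (e : V → ℤ) :
    ∑ x, ∑ y, rv w b R x y * e x * e y =
      ∑ i, ∑ j, w i j * e i * e j - (∑ i, b i * e i) ^ 2 + ∑ i, b i ^ 2 * e i ^ 2 := by
  obtain ⟨g, hg⟩ : ∃ g : V → V → ℤ, g = fun i j => if i = j then 0 else w i j - b i * b j := ⟨_, rfl⟩
  have hgR : ∀ i j, (i ∈ R ∨ j ∈ R) → g i j = 0 := by
    intro i j hij
    rw [hg]
    by_cases h : i = j
    · simp [h]
    · simp only [h, if_false]
      rcases hij with hi | hj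
      · rw [hT.row i hi j (Ne.symm h), hT.one i hi]
        ring
      · rw [hw.symm i j, hT.row j hj i h, hT.one j hj]
        ring
  have h1 : ∑ x : {x // x ∉ R}, ∑ y : {x // x ∉ R}, rv w b R x y * e x * e y =
      ∑ x ∈ Rᶜ, ∑ y ∈ Rᶜ, g x y * e x * e y := by
    rw [Finset.sum_subtype (s := Rᶜ) (p := fun x => x ∉ R) (fun x => Finset.mem_compl)
      (fun x => ∑ y ∈ Rᶜ, g x y * e x * e y)]
    refine Finset.sum_congr rfl fun x _ => ?_
    rw [Finset.sum_subtype (s := Rᶜ) (p := fun x => x ∉ R) (fun x => Finset.mem_compl)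
      (fun y => g x y * e x * e y)]
    refine Finset.sum_congr rfl fun y _ => ?_
    unfold rv
    rw [hg]
    simp only [Subtype.ext_iff]
  have h2 : ∑ x ∈ Rᶜ, ∑ y ∈ Rᶜ, g x y * e x * e y = ∑ x, ∑ y, g x y * e x * e y := by
    rw [← Finset.sum_subset (Finset.subset_univ Rᶜ)]
    · refine Finset.sum_congr rfl fun x _ => ?_
      apply Finset.sum_subset (Finset.subset_univ Rᶜ)
      intro y _ hy
      rw [Finset.mem_compl, not_not] at hy
      rw [hgR x y (Or.inr hy)]
      ring
    · intro x _ hx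
      rw [Finset.mem_compl, not_not] at hx
      exact Finset.sum_eq_zero fun y _ => by rw [hgR x y (Or.inl hx)]; ring
  rw [h1, h2]
  have h3 : ∀ x y, g x y * e x * e y = w x y * e x * e y - (b x * e x) * (b y * e y) +
      (if x = y then b x ^ 2 * e x ^ 2 else 0) := by
    intro x y
    rw [hg]
    by_cases h : x = y
    · subst h
      simp only [if_true, hw.diag]
      ring
    · simp only [h, if_false]
      ring
  simp only [h3, Finset.sum_add_distrib, Finset.sum_sub_distrib, Finset.sum_ite_eq,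
    Finset.mem_univ, if_true, ← Finset.mul_sum, ← Finset.sum_mul]
  ring

/-- `rv_form` with `e = 1`. -/
theorem rv_inn {w : V → V → ℤ} (hw : Sym w) {b : V → ℤ} {R : Finset V} (hT : Twin w b R) :
    inn (rv w b R) univ = inn w univ - (∑ i, b i) ^ 2 + ∑ i, b i ^ 2 := by
  have h := rv_form hw hT (fun _ => 1)
  unfold inn
  simpa using h

/-- Extend `x` by arbitrary signs, then use `bal` with `z = ∑_{x ∉ R} b x`: there are signs `e` on `V`,
`e = x` outside `R`, with `|∑ i, b i * e i| ≤ 1` (`b = 1` on `R`).  As `∑ b e ≡ ∑ b (mod 2)`,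
`(∑ b e) ^ 2 = (∑ b) % 2`.  Then `rv_form` (`e ^ 2 = 1`) and `hs e`. -/
theorem ext1 {w : V → V → ℤ} (hw : Sym w) {s : ℤ} (hs : Sb w s) {b : V → ℤ} {R : Finset V}
    (hT : Twin w b R) (x : {x // x ∉ R} → ℤ) (hx : IsSign x)
    (hfill : |∑ i : {x // x ∉ R}, b i * x i| ≤ (R.card : ℤ) + 1) :
    en (rv w b R) x ≤ 2 * s - (∑ i, b i ^ 2 - (∑ i, b i) % 2) := by
  set z : ℤ := ∑ i : {x // x ∉ R}, b i * x i with hz
  obtain ⟨e, he, hout, hle⟩ := bal R z hfill (fun v => if h : v ∉ R then x ⟨v, h⟩ else 1) (by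
    intro v
    by_cases h : v ∉ R
    · simp only [h, not_false_eq_true, dif_pos]
      exact hx ⟨v, h⟩
    · simp [h])
  have hex : ∀ v : {x // x ∉ R}, e v = x v := by
    intro v
    rw [hout v v.2]
    simp only [v.2, not_false_eq_true, dif_pos, Subtype.coe_eta]
  have h1 : ∑ i, b i * e i = z + ∑ i ∈ R, e i := by
    rw [← Finset.sum_add_sum_compl R (fun i => b i * e i), add_comm]
    congr 1
    · rw [Finset.sum_subtype (s := Rᶜ) (p := fun x => x ∉ R) (fun x => Finset.mem_compl)
        (fun i => b i * e i), hz]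
      exact Finset.sum_congr rfl fun v _ => by rw [hex v]
    · exact Finset.sum_congr rfl fun i hi => by rw [hT.one i hi, one_mul]
  have h2 : (∑ i, b i * e i) ^ 2 = (∑ i, b i) % 2 := by
    have h3 : (2 : ℤ) ∣ (∑ i, b i * e i) - ∑ i, b i := by
      rw [← Finset.sum_sub_distrib]
      refine Finset.dvd_sum fun i _ => ?_
      rcases he i with h | h
      · rw [h]
        simp
      · rw [h]
        exact ⟨-b i, by ring⟩
    rw [← h1, abs_le] at hle
    generalize (∑ i, b i * e i) = S at h3 hle ⊢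
    have h4 : S = -1 ∨ S = 0 ∨ S = 1 := by omega
    rcases h4 with h4 | h4 | h4 <;> subst h4 <;> norm_num <;> omega
  have h5 := hs e he
  have h6 := rv_form hw hT e
  have h7 : ∑ i, b i ^ 2 * e i ^ 2 = ∑ i, b i ^ 2 := by
    refine Finset.sum_congr rfl fun i _ => ?_
    rcases he i with h | h <;> rw [h] <;> ring
  have h8 : en (rv w b R) x = - ∑ x : {x // x ∉ R}, ∑ y : {x // x ∉ R}, rv w b R x y * e x * e y := by
    unfold en
    simp only [hex]
  rw [h8, h6, h2, h7]
  unfold en at h5
  linarith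

end Pool.Agent.MXC
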