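import Pool.Agent.MXC.Defs
import Pool.Agent.MP_710317_co.Rec.Bridge3

/-!
# [MXC-GUP]  Graphs with few edges in every cut
-/

namespace Pool.Agent.MXC

open Finset Pool.Agent.MP_710317_co Pool.Agent.MP_710317_co.Rec

private theorem GUp_ncard {V : Type} [Fintype V] (G : SimpleGraph V) :
    ord G (univ : Finset V) = 2 * (G.edgeSet.ncard : ℤ) := by
  classical
  rw [ord_eq_inside]
  have h : inside G ((univ : Finset V) : Set V) = G.edgeSet.ncard := by
    unfold inside
    congr 1
    ext e
    simp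
  rw [h]

private theorem GUp_arith {a b B : ℕ} (h : a + b = B) : a * b ≤ B ^ 2 / 4 := by
  rw [Nat.le_div_iff_mul_le (by norm_num), ← h]
  zify
  nlinarith [sq_nonneg ((a : ℤ) - (b : ℤ))]

private theorem GUp_top_crs (B : ℕ) (S : Finset (Fin B)) :
    crs (ad (⊤ : SimpleGraph (Fin B))) S Sᶜ ≤ ((B ^ 2 / 4 : ℕ) : ℤ) := by
  have h1 : crs (ad (⊤ : SimpleGraph (Fin B))) S Sᶜ = ((S.card * Sᶜ.card : ℕ) : ℤ) := by
    unfold crs
    have h2 : ∀ i ∈ S, ∑ j ∈ Sᶜ, ad (⊤ : SimpleGraph (Fin B)) i j = (Sᶜ.card : ℤ) := by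
      intro i hi
      rw [Finset.sum_congr rfl (g := fun _ => (1 : ℤ))]
      · simp
      · intro j hj
        refine ad_of_adj _ ?_
        rw [SimpleGraph.top_adj]
        rintro rfl
        exact (Finset.mem_compl.1 hj) hi
    rw [Finset.sum_congr rfl h2, Finset.sum_const, nsmul_eq_mul]
    push_cast
    ring
  rw [h1]
  have h3 : S.card + Sᶜ.card = B := by
    rw [Finset.card_add_card_compl, Fintype.card_fin]
  have h4 : S.card * Sᶜ.card ≤ B ^ 2 / 4 := GUp_arith h3
  exact_mod_cast h4

private theorem GUp_top_ord (B : ℕ) :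
    ord (⊤ : SimpleGraph (Fin B)) univ = 2 * ((B.choose 2 : ℕ) : ℤ) := by
  have h2 : ∀ i ∈ (univ : Finset (Fin B)), ∑ j, ad (⊤ : SimpleGraph (Fin B)) i j = (B : ℤ) - 1 := by
    intro i _
    have h3 : ∀ j ∈ (univ : Finset (Fin B)), ad (⊤ : SimpleGraph (Fin B)) i j =
        1 - (if i = j then 1 else 0) := by
      intro j _
      by_cases h : i = j
      · subst h
        rw [ad_self, if_pos rfl]
        norm_num
      · rw [ad_of_adj _ ((SimpleGraph.top_adj _ _).2 h), if_neg h]
        norm_num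
    rw [Finset.sum_congr rfl h3, Finset.sum_sub_distrib, Finset.sum_ite_eq, if_pos (mem_univ _)]
    simp
  unfold ord
  rw [Finset.sum_congr rfl h2, Finset.sum_const, nsmul_eq_mul, Finset.card_univ, Fintype.card_fin]
  rcases Nat.eq_zero_or_pos B with h | h
  · subst h; simp
  · have h5 : B * (B - 1) = 2 * B.choose 2 := by
      rw [Nat.choose_two_right]
      have h6 : 2 ∣ B * (B - 1) := (Nat.even_mul_pred_self B).two_dvd
      omega
    have h7 : ((B - 1 : ℕ) : ℤ) = (B : ℤ) - 1 := by
      rw [Nat.cast_sub h]; simp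
    rw [← h7]
    exact_mod_cast h5

private theorem GUp_sum_ord {W V : Type} [Fintype W] [Fintype V] (H : SimpleGraph W)
    (G : SimpleGraph V) : ord (H ⊕g G) univ = ord H univ + ord G univ := by
  unfold ord
  rw [Fintype.sum_sum_type]
  congr 1
  · refine Finset.sum_congr rfl fun i _ => ?_
    rw [Fintype.sum_sum_type]
    have h1 : ∀ j ∈ (univ : Finset V), ad (H ⊕g G) (Sum.inl i) (Sum.inr j) = 0 := by
      intro j _
      refine ad_of_not_adj _ ?_
      simp
    rw [Finset.sum_congr rfl h1, Finset.sum_const_zero, add_zero]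
    rfl
  · refine Finset.sum_congr rfl fun i _ => ?_
    rw [Fintype.sum_sum_type]
    have h1 : ∀ j ∈ (univ : Finset W), ad (H ⊕g G) (Sum.inr i) (Sum.inl j) = 0 := by
      intro j _
      refine ad_of_not_adj _ ?_
      simp
    rw [Finset.sum_congr rfl h1, Finset.sum_const_zero, zero_add]
    rfl

private theorem GUp_disj_crs {W V : Type} (H : SimpleGraph W) (G : SimpleGraph V)
    (A1 C1 : Finset W) (A2 C2 : Finset V) :
    crs (ad (H ⊕g G)) (A1.disjSum A2) (C1.disjSum C2) = crs (ad H) A1 C1 + crs (ad G) A2 C2 := by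
  unfold crs
  rw [Finset.sum_disjSum]
  congr 1
  · refine Finset.sum_congr rfl fun i _ => ?_
    rw [Finset.sum_disjSum]
    have h1 : ∀ j ∈ C2, ad (H ⊕g G) (Sum.inl i) (Sum.inr j) = 0 := by
      intro j _
      refine ad_of_not_adj _ ?_
      simp
    rw [Finset.sum_congr rfl h1, Finset.sum_const_zero, add_zero]
    rfl
  · refine Finset.sum_congr rfl fun i _ => ?_
    rw [Finset.sum_disjSum]
    have h1 : ∀ j ∈ C1, ad (H ⊕g G) (Sum.inr i) (Sum.inl j) = 0 := by
      intro j _
      refine ad_of_not_adj _ ?_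
      simp
    rw [Finset.sum_congr rfl h1, Finset.sum_const_zero, zero_add]
    rfl

private theorem GUp_sum_crs {W V : Type} [Fintype W] [Fintype V] [DecidableEq W] [DecidableEq V]
    (H : SimpleGraph W) (G : SimpleGraph V) (S : Finset (W ⊕ V)) :
    crs (ad (H ⊕g G)) S Sᶜ =
      crs (ad H) S.toLeft S.toLeftᶜ + crs (ad G) S.toRight S.toRightᶜ := by
  have hc : Sᶜ = S.toLeftᶜ.disjSum S.toRightᶜ := by
    ext x
    rcases x with x | x <;> simp
  have hS : S.toLeft.disjSum S.toRight = S := Finset.toLeft_disjSum_toRight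
  rw [← GUp_disj_crs H G, hS, ← hc]

/-- Induction on `L`.  `[]`: the empty graph on `Fin 0` (or `Fin 1`).  `B :: L`: on `Fin B ⊕ V` take the
complete graph on `Fin B` together with the graph `G` of the induction hypothesis; a cut has
`k (B - k) ≤ B ^ 2 / 4` edges in the first part (`k` vertices of `Fin B` on one side) and at most `fq L` in
the second. -/
theorem union_graph (L : List ℕ) : ∃ (V : Type) (_ : Fintype V) (_ : DecidableEq V)
    (G : SimpleGraph V), G.edgeSet.ncard = cl L ∧
      ∀ S : Finset V, crs (ad G) S Sᶜ ≤ (fq L : ℤ) := by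
  induction L with
  | nil =>
    refine ⟨Fin 0, inferInstance, inferInstance, ⊥, ?_, ?_⟩
    · simp [cl]
    · intro S
      have : S = ∅ := by
        ext x
        exact x.elim0
      subst this
      simp [crs, fq]
  | cons B L ih =>
    obtain ⟨V, i1, i2, G, h1, h2⟩ := ih
    refine ⟨Fin B ⊕ V, inferInstance, inferInstance, (⊤ : SimpleGraph (Fin B)) ⊕g G, ?_, ?_⟩
    · have e1 := GUp_ncard ((⊤ : SimpleGraph (Fin B)) ⊕g G)
      have e2 := GUp_ncard G
      rw [GUp_sum_ord, GUp_top_ord, e2, h1] at e1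
      have e3 : cl (B :: L) = B.choose 2 + cl L := by simp [cl]
      rw [e3]
      have : (2 : ℤ) * (((⊤ : SimpleGraph (Fin B)) ⊕g G).edgeSet.ncard : ℤ) =
          2 * ((B.choose 2 + cl L : ℕ) : ℤ) := by
        rw [← e1]
        push_cast
        ring
      exact_mod_cast mul_left_cancel₀ (two_ne_zero) this
    · intro S
      rw [GUp_sum_crs]
      have e3 : fq (B :: L) = B ^ 2 / 4 + fq L := by simp [fq]
      rw [e3, Nat.cast_add]
      exact add_le_add (GUp_top_crs B _) (h2 _)

/-- Take `m` of the `cl L` edges (`SimpleGraph.fromEdgeSet`, or induction deleting one edge at a time): a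
subgraph has `ad G' ≤ ad G`, so all cuts are at most as large.  Then transport to `Fin N`
(`Fintype.equivFin`, as in `Pool.Agent.MP_710317_co.Rec.Bridge2`). -/
theorem exists_graph (L : List ℕ) (m : ℕ) (h : m ≤ cl L) : ∃ (N : ℕ) (G : SimpleGraph (Fin N)),
    G.edgeSet.ncard = m ∧ ∀ S : Finset (Fin N), crs (ad G) S Sᶜ ≤ (fq L : ℤ) := by
  classical
  obtain ⟨V, i1, i2, G, h1, h2⟩ := union_graph L
  obtain ⟨t, ht, htm⟩ := Set.exists_subset_card_eq (s := G.edgeSet) (n := m) (by rw [h1]; exact h)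
  let G' : SimpleGraph V := SimpleGraph.fromEdgeSet t
  have hE : G'.edgeSet = t := by
    rw [SimpleGraph.edgeSet_fromEdgeSet]
    ext e
    constructor
    · exact fun h => h.1
    · intro he
      refine ⟨he, ?_⟩
      exact SimpleGraph.not_isDiag_of_mem_edgeSet G (ht he)
  have hle : G' ≤ G := by
    rw [← SimpleGraph.edgeSet_subset_edgeSet, hE]
    exact ht
  have had : ∀ u v, ad G' u v ≤ ad G u v := by
    intro u v
    by_cases h : G'.Adj u v
    · rw [ad_of_adj _ h, ad_of_adj _ (hle h)]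
    · rw [ad_of_not_adj _ h]
      exact ad_nonneg _ _ _
  let φ : Fin (Fintype.card V) ≃ V := (Fintype.equivFin V).symm
  refine ⟨Fintype.card V, G'.comap φ, ?_, fun S => ?_⟩
  · have e1 : (G'.comap φ).edgeSet.ncard = G'.edgeSet.ncard := by
      rw [← Nat.card_coe_set_eq, ← Nat.card_coe_set_eq]
      exact Nat.card_congr (SimpleGraph.Iso.comap φ G').mapEdgeSet
    rw [e1, hE, htm]
  · have hcrs : ∀ S T : Finset (Fin (Fintype.card V)), crs (ad (G'.comap φ)) S T =
        crs (ad G') (S.map φ.toEmbedding) (T.map φ.toEmbedding) := by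
      intro S T
      unfold crs
      rw [Finset.sum_map]
      apply Finset.sum_congr rfl
      intro i _
      rw [Finset.sum_map]
      rfl
    have hcompl : Sᶜ.map φ.toEmbedding = (S.map φ.toEmbedding)ᶜ := by
      ext v
      simp only [Finset.mem_map, Finset.mem_compl, Equiv.coe_toEmbedding]
      constructor
      · rintro ⟨a, ha, rfl⟩ ⟨b, hb, hab⟩
        exact ha (φ.injective hab ▸ hb)
      · intro hv
        refine ⟨φ.symm v, fun hS => hv ⟨_, hS, φ.apply_symm_apply v⟩, φ.apply_symm_apply v⟩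
    rw [hcrs, hcompl]
    refine le_trans ?_ (h2 (S.map φ.toEmbedding))
    unfold crs
    exact Finset.sum_le_sum fun i _ => Finset.sum_le_sum fun j _ => had i j

end Pool.Agent.MXC
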