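import Pool.Agent.MXC.QN
import Pool.Agent.MP_710317_co.Rec.QId4

/-!
# [MXC-QF]  The formula `2 Q(m) = (m - f)² + D²` from numerical bounds for `f`

`f = fl 0 m`, `D = Dl 0 m` (definitions in `Pool.Agent.MP_710317_co.Rec.Defs`).
-/

namespace Pool.Agent.MXC

open Finset Pool.Agent.MP_710317_co Pool.Agent.MP_710317_co.Rec

private theorem QF_key {N m : ℕ} (G : SimpleGraph (Fin N)) (hG : G.edgeSet.ncard = m)
    (S : Finset (Fin N)) : ∃ a b : ℕ, inn (ad G) S = 2 * (a : ℤ) ∧ inn (ad G) Sᶜ = 2 * (b : ℤ) ∧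
      (m : ℤ) = a + b + crs (ad G) S Sᶜ ∧ (qval G : ℤ) ≤ (a : ℤ) ^ 2 + (b : ℤ) ^ 2 := by
  have hsym : Sym (ad G) := ⟨ad_comm G, ad_self G⟩
  have htot : inn (ad G) univ = 2 * (m : ℤ) := ord_univ_eq G m hG
  refine ⟨inside G (S : Set (Fin N)), inside G ((Sᶜ : Finset (Fin N)) : Set (Fin N)),
    ord_eq_inside G S, ord_eq_inside G Sᶜ, ?_, ?_⟩
  · have h1 := tot_split hsym S
    have h2 : inn (ad G) S = 2 * (inside G (S : Set (Fin N)) : ℤ) := ord_eq_inside G S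
    have h3 : inn (ad G) Sᶜ = 2 * (inside G ((Sᶜ : Finset (Fin N)) : Set (Fin N)) : ℤ) :=
      ord_eq_inside G Sᶜ
    rw [htot, h2, h3] at h1
    linarith
  · have h1 := qval_le G S
    rw [ord_eq_inside G S, ord_eq_inside G Sᶜ] at h1
    nlinarith

private theorem QF_upf {N m : ℕ} (G : SimpleGraph (Fin N)) (hG : G.edgeSet.ncard = m)
    (hfm : fl 0 m ≤ m) (hcut : ∀ S, crs (ad G) S Sᶜ ≤ fl 0 m) :
    2 * qval G ≤ (m - fl 0 m) ^ 2 + (Dl 0 m) ^ 2 := by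
  classical
  have hsym : Sym (ad G) := ⟨ad_comm G, ad_self G⟩
  have hmk : Mk 0 (ad G) := ⟨G, fun i => i.elim0, fun i j _ => by simp⟩
  have htot : inn (ad G) univ = 2 * (m : ℤ) := ord_univ_eq G m hG
  have hex : Ex 0 (m : ℤ) (ad G) (fl 0 m : ℤ) := ⟨hsym, hmk, htot, hcut⟩
  have hS : ∃ S, crs (ad G) S Sᶜ = fl 0 m ∧
      |inn (ad G) S - inn (ad G) Sᶜ| < 2 * ((Dl 0 m + 1 : ℕ) : ℤ) := by
    by_contra hcon
    push Not at hcon
    have h1 : Dl 0 m + 1 ∈ lowVals 0 m := mem_lowVals hex hcon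
    have h2 := le_Dl h1
    omega
  obtain ⟨S, hS1, hS2⟩ := hS
  obtain ⟨a, b, ha, hb, hab, hq⟩ := QF_key G hG S
  rw [hS1] at hab
  rw [ha, hb, abs_lt] at hS2
  push_cast at hS2
  have h1 : |(a : ℤ) - b| ≤ (Dl 0 m : ℤ) := by
    rw [abs_le]
    constructor
    · linarith [hS2.1, hS2.2]
    · linarith [hS2.1, hS2.2]
  have h2 : ((a : ℤ) - b) ^ 2 ≤ (Dl 0 m : ℤ) ^ 2 := by
    rw [← sq_abs ((a : ℤ) - b)]
    exact pow_le_pow_left₀ (abs_nonneg _) h1 2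
  zify [hfm]
  have h3 : (m : ℤ) - (fl 0 m : ℕ) = a + b := by linarith
  rw [h3]
  nlinarith

/-- The proof of `q_upper` in `Pool.Agent.MP_710317_co.Rec.QId3`, with `qnum9` instead of `qnum` and with the
hypotheses `hfm`, `hq2`, `hq9` instead of `qnum2 m hm`. -/
theorem q_upper9 {N m : ℕ} (G : SimpleGraph (Fin N)) (hG : G.edgeSet.ncard = m)
    (hfm : fl 0 m ≤ m) (hq2 : ((2 * (fl 0 m : ℤ) - m) + 2) ^ 2 + 1 ≤ 2 * ((m : ℤ) - fl 0 m))
    (hq9 : 9 * (2 * (fl 0 m : ℤ) - m) ≤ (m : ℤ) - fl 0 m) :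
    2 * qval G ≤ (m - fl 0 m) ^ 2 + (Dl 0 m) ^ 2 := by
  classical
  set w := ad G with hw
  have hsym : Sym w := ⟨ad_comm G, ad_self G⟩
  have hmk : Mk 0 w := ⟨G, fun i => i.elim0, fun i j _ => by simp [hw]⟩
  have htot : inn w univ = 2 * (m : ℤ) := ord_univ_eq G m hG
  obtain ⟨U, -, hU⟩ := Finset.exists_max_image (univ : Finset (Finset (Fin N)))
    (fun S => crs w S Sᶜ) ⟨∅, mem_univ _⟩
  have hU' : ∀ S, crs w S Sᶜ ≤ crs w U Uᶜ := fun S => hU S (mem_univ _)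
  have hc0 : 0 ≤ crs w U Uᶜ := by
    have := hU' ∅
    simpa [crs] using this
  obtain ⟨c, hc⟩ := Int.eq_ofNat_of_zero_le hc0
  have hex : Ex 0 (m : ℤ) w (c : ℤ) := ⟨hsym, hmk, htot, fun S => hc ▸ hU' S⟩
  have hfc : fl 0 m ≤ c := fl_le hex
  have hhalf := half_le 0 m
  -- the bound for a cut
  have key : ∀ S : Finset (Fin N), ∃ a b : ℕ, inn w S = 2 * (a : ℤ) ∧ inn w Sᶜ = 2 * (b : ℤ) ∧
      (m : ℤ) = a + b + crs w S Sᶜ ∧ (qval G : ℤ) ≤ (a : ℤ) ^ 2 + (b : ℤ) ^ 2 := by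
    intro S
    refine ⟨inside G (S : Set (Fin N)), inside G ((Sᶜ : Finset (Fin N)) : Set (Fin N)),
      ord_eq_inside G S, ord_eq_inside G Sᶜ, ?_, ?_⟩
    · have h1 := tot_split hsym S
      have h2 : inn w S = 2 * (inside G (S : Set (Fin N)) : ℤ) := ord_eq_inside G S
      have h3 : inn w Sᶜ = 2 * (inside G ((Sᶜ : Finset (Fin N)) : Set (Fin N)) : ℤ) :=
        ord_eq_inside G Sᶜ
      rw [htot, h2, h3] at h1
      linarith
    · have h1 := qval_le G S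
      rw [ord_eq_inside G S, ord_eq_inside G Sᶜ] at h1
      nlinarith
  by_cases hcf : c = fl 0 m
  · subst hcf
    have hS : ∃ S, crs w S Sᶜ = fl 0 m ∧ |inn w S - inn w Sᶜ| < 2 * ((Dl 0 m + 1 : ℕ) : ℤ) := by
      by_contra hcon
      push Not at hcon
      have h1 : Dl 0 m + 1 ∈ lowVals 0 m := mem_lowVals hex hcon
      have h2 := le_Dl h1
      omega
    obtain ⟨S, hS1, hS2⟩ := hS
    obtain ⟨a, b, ha, hb, hab, hq⟩ := key S
    rw [hS1] at hab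
    rw [ha, hb, abs_lt] at hS2
    push_cast at hS2
    have h1 : |(a : ℤ) - b| ≤ (Dl 0 m : ℤ) := by
      rw [abs_le]
      constructor
      · linarith [hS2.1, hS2.2]
      · linarith [hS2.1, hS2.2]
    have h2 : ((a : ℤ) - b) ^ 2 ≤ (Dl 0 m : ℤ) ^ 2 := by
      rw [← sq_abs ((a : ℤ) - b)]
      exact pow_le_pow_left₀ (abs_nonneg _) h1 2
    zify [hfm]
    have h3 : (m : ℤ) - (fl 0 m : ℕ) = a + b := by linarith
    rw [h3]
    nlinarith
  · have hcf' : fl 0 m + 1 ≤ c := by omega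
    obtain ⟨a, b, ha, hb, hab, hq⟩ := key U
    rw [hc] at hab
    have hfl := flip_bound hsym htot (fun S => hc ▸ hU' S) U hc
    rw [ha, hb] at hfl
    have h1 : |(a : ℤ) - b| ≤ 2 * (c : ℤ) - m := by
      have h2 : (2 : ℤ) * a - 2 * b = 2 * ((a : ℤ) - b) := by ring
      rw [h2, abs_mul, abs_of_nonneg (by norm_num : (0 : ℤ) ≤ 2)] at hfl
      linarith
    have h2 : ((a : ℤ) - b) ^ 2 ≤ (2 * (c : ℤ) - m) ^ 2 := by
      rw [← sq_abs ((a : ℤ) - b)]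
      exact pow_le_pow_left₀ (abs_nonneg _) h1 2
    have ha0 : (0 : ℤ) ≤ a := Int.natCast_nonneg a
    have hb0 : (0 : ℤ) ≤ b := Int.natCast_nonneg b
    have hkey := qnum9 ((m : ℤ) - fl 0 m) (2 * (fl 0 m : ℤ) - m) ((c : ℤ) - fl 0 m)
      (by push_cast at *; omega) (by linarith) (by linarith) (by push_cast at *; omega)
      (by have h5 : (c : ℤ) ≤ m := by
            rw [hab]
            have : ((c : ℕ) : ℤ) = Int.ofNat c := rfl
            linarith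
          linarith)
    have hab' : (m : ℤ) = a + b + c := by
      rw [hab]
    have e1 : (m : ℤ) - fl 0 m - (c - fl 0 m) = a + b := by linarith
    have e2 : 2 * (fl 0 m : ℤ) - m + 2 * (c - fl 0 m) = 2 * c - m := by ring
    rw [e1, e2] at hkey
    have h3 : 2 * (qval G : ℤ) ≤ ((m : ℤ) - fl 0 m) ^ 2 := by
      rcases hkey with hkey | hkey
      · nlinarith
      · nlinarith [mul_nonneg ha0 hb0]
    have h4 : (0 : ℤ) ≤ (Dl 0 m : ℤ) ^ 2 := sq_nonneg _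
    zify [hfm]
    linarith

/-- The proof of `q_lower` in `Pool.Agent.MP_710317_co.Rec.QId4` with the hypotheses `hfm`, `hq2`. -/
theorem q_lower9 {m : ℕ} (hfm : fl 0 m ≤ m)
    (hq2 : ((2 * (fl 0 m : ℤ) - m) + 2) ^ 2 + 1 ≤ 2 * ((m : ℤ) - fl 0 m)) :
    ∃ (N : ℕ) (G : SimpleGraph (Fin N)), G.edgeSet.ncard = m ∧
      2 * qval G = (m - fl 0 m) ^ 2 + (Dl 0 m) ^ 2 := by
  classical
  obtain ⟨N, G, K, htot, hcut, hd⟩ := Dl_mem 0 m
  have hin : ∀ S : Finset (Fin N), exIn G K S = (inside G (S : Set (Fin N)) : ℤ) := by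
    intro S
    simp [exIn]
  have hG : G.edgeSet.ncard = m := by
    rw [hin] at htot
    have h1 : inside G ((univ : Finset (Fin N)) : Set (Fin N)) = G.edgeSet.ncard := by
      unfold inside
      congr 1
      ext e
      simp
    rw [h1] at htot
    exact_mod_cast htot
  refine ⟨N, G, hG, ?_⟩
  have hup : 2 * qval G ≤ (m - fl 0 m) ^ 2 + (Dl 0 m) ^ 2 := by
    apply QF_upf G hG hfm
    intro S
    obtain ⟨a, b, ha, hb, hab, -⟩ := QF_key G hG S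
    have h1 := hcut S
    unfold exCut at h1
    rw [htot, hin, hin] at h1
    have h2 : inn (ad G) S = 2 * (inside G (S : Set (Fin N)) : ℤ) := ord_eq_inside G S
    have h3 : inn (ad G) Sᶜ = 2 * (inside G ((Sᶜ : Finset (Fin N)) : Set (Fin N)) : ℤ) :=
      ord_eq_inside G Sᶜ
    rw [ha] at h2
    rw [hb] at h3
    linarith
  refine le_antisymm hup ?_
  obtain ⟨U, hU⟩ := exists_qval G
  rw [ord_eq_inside G U, ord_eq_inside G Uᶜ] at hU
  have hcU := hcut U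
  have hdU := hd U
  have hDl := Dl_le 0 m
  have hhalf := half_le 0 m
  unfold exCut at hcU hdU
  rw [htot, hin, hin] at hcU
  rw [htot, hin, hin] at hdU
  set a : ℕ := inside G (U : Set (Fin N)) with ha
  set b : ℕ := inside G ((Uᶜ : Finset (Fin N)) : Set (Fin N)) with hb
  have hq : (qval G : ℤ) = (a : ℤ) ^ 2 + (b : ℤ) ^ 2 := by nlinarith
  zify [hfm]
  have hD : (Dl 0 m : ℤ) ≤ 2 * (fl 0 m : ℤ) - m := by omega
  have hD0 : (0 : ℤ) ≤ (Dl 0 m : ℤ) := Int.natCast_nonneg _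
  by_cases hc : (m : ℤ) - a - b = fl 0 m
  · have h1 := hdU hc
    have h2 : (Dl 0 m : ℤ) ^ 2 ≤ ((a : ℤ) - b) ^ 2 := by
      rw [← sq_abs ((a : ℤ) - b)]
      exact pow_le_pow_left₀ hD0 h1 2
    have h3 : (m : ℤ) - (fl 0 m : ℕ) = a + b := by linarith
    rw [h3, hq]
    nlinarith
  · have h1 : (m : ℤ) - (fl 0 m : ℕ) + 1 ≤ a + b := by omega
    have h2 : (0 : ℤ) ≤ (m : ℤ) - (fl 0 m : ℕ) := by omega
    have h3 : ((m : ℤ) - (fl 0 m : ℕ) + 1) ^ 2 ≤ ((a : ℤ) + b) ^ 2 :=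
      pow_le_pow_left₀ (by linarith) h1 2
    have h4 : (Dl 0 m : ℤ) ^ 2 ≤ (2 * (fl 0 m : ℤ) - m) ^ 2 := pow_le_pow_left₀ hD0 hD 2
    have h5 : (0 : ℤ) ≤ 2 * (fl 0 m : ℤ) - m := by omega
    rw [hq]
    nlinarith [sq_nonneg ((a : ℤ) - b)]

end Pool.Agent.MXC
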