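import Pool.Agent.MXC.Main
import Pool.Agent.MXC.QF
import Pool.Agent.MXC.GUp

/-!
# The least Max-Cut of the graphs with `m` edges, and the formula for `Q(m)`
-/

namespace Pool.Agent.MXC

open Finset Pool.Agent.MP_710317_co Pool.Agent.MP_710317_co.Rec

/-- The number of edges of `G` between `S` and its complement: the number of pairs `(u, v)` of
adjacent vertices with `u ∈ S` and `v ∉ S`. -/
noncomputable def cutSize {V : Type*} (G : SimpleGraph V) (S : Set V) : ℕ :=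
  {p : V × V | p.1 ∈ S ∧ p.2 ∉ S ∧ G.Adj p.1 p.2}.ncard

theorem cutSize_eq {V : Type*} [Fintype V] [DecidableEq V] (G : SimpleGraph V) (S : Finset V) :
    (cutSize G (S : Set V) : ℤ) = crs (ad G) S Sᶜ := by
  classical
  have h1 : {p : V × V | p.1 ∈ (S : Set V) ∧ p.2 ∉ (S : Set V) ∧ G.Adj p.1 p.2} =
      (((S ×ˢ Sᶜ).filter fun p => G.Adj p.1 p.2 : Finset (V × V)) : Set (V × V)) := by
    ext p
    simp only [Set.mem_setOf_eq, coe_filter, mem_product, mem_compl, SetLike.mem_coe]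
    tauto
  unfold cutSize
  rw [h1, Set.ncard_coe_finset, Finset.card_filter, Finset.sum_product]
  push_cast
  unfold crs
  refine Finset.sum_congr rfl fun i _ => Finset.sum_congr rfl fun j _ => ?_
  unfold ad
  split_ifs <;> rfl

theorem ad_sym {V : Type*} [DecidableEq V] (G : SimpleGraph V) : Sym (ad G) :=
  ⟨ad_comm G, ad_self G⟩

/-- every graph with `m` edges has a cut with at least `mc m` edges -/
theorem exists_cut {N m : ℕ} (G : SimpleGraph (Fin N)) (hG : G.edgeSet.ncard = m) :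
    ∃ S : Finset (Fin N), mc m ≤ cutSize G (S : Set (Fin N)) := by
  by_contra hcon
  push Not at hcon
  have hpos : 1 ≤ mc m := by
    have := hcon ∅
    omega
  have h1 : mc m ≤ mc m - 1 := by
    refine mc_le_cut (ad_sym G) (ord_univ_eq G m hG) fun S => ?_
    rw [← cutSize_eq]
    have := hcon S
    exact_mod_cast (by omega : cutSize G (S : Set (Fin N)) ≤ mc m - 1)
  omega

theorem exists_graph_mc (m : ℕ) : ∃ (N : ℕ) (G : SimpleGraph (Fin N)), G.edgeSet.ncard = m ∧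
    ∀ S : Finset (Fin N), cutSize G (S : Set (Fin N)) ≤ mc m := by
  obtain ⟨L, hL, hf⟩ := mc_spec m
  obtain ⟨N, G, hG, hc⟩ := exists_graph L m hL
  refine ⟨N, G, hG, fun S => ?_⟩
  have := hc S
  rw [← cutSize_eq, hf] at this
  exact_mod_cast this

/-- the least Max-Cut -/
theorem least_maxcut (m : ℕ) :
    IsLeast {c | ∃ (N : ℕ) (G : SimpleGraph (Fin N)), G.edgeSet.ncard = m ∧
      IsGreatest (Set.range (cutSize G)) c} (mc m) := by
  classical
  constructor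
  · obtain ⟨N, G, hG, hc⟩ := exists_graph_mc m
    obtain ⟨S, hS⟩ := exists_cut G hG
    refine ⟨N, G, hG, ⟨(S : Set (Fin N)), le_antisymm (hc S) hS⟩, ?_⟩
    rintro x ⟨U, rfl⟩
    have := hc U.toFinset
    rwa [Set.coe_toFinset] at this
  · rintro c ⟨N, G, hG, hc⟩
    obtain ⟨S, hS⟩ := exists_cut G hG
    exact hS.trans (hc.2 ⟨_, rfl⟩)

/-- integer weights -/
theorem weighted {V : Type} [Fintype V] [DecidableEq V] (m : ℕ) (w : V → V → ℤ)
    (h1 : ∀ i j, w i j = w j i) (h2 : ∀ i, w i i = 0) (h3 : ∑ i, ∑ j, w i j = 2 * (m : ℤ)) :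
    ∃ S : Finset V, (mc m : ℤ) ≤ ∑ i ∈ S, ∑ j ∈ Sᶜ, w i j := by
  by_contra hcon
  push Not at hcon
  have hpos : 1 ≤ mc m := by
    have := hcon ∅
    simp at this
    omega
  have h4 : mc m ≤ mc m - 1 := by
    refine mc_le_cut ⟨h1, h2⟩ h3 fun S => ?_
    have := hcon S
    have h5 : ((mc m - 1 : ℕ) : ℤ) = (mc m : ℤ) - 1 := by omega
    rw [h5]
    unfold crs
    linarith
  omega

/-- the least excess cut over `l` marked sets does not depend on `l` -/
theorem fl_eq (l m : ℕ) : fl l m = mc m := by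
  refine le_antisymm ?_ ?_
  · obtain ⟨L, hL, hf⟩ := mc_spec m
    obtain ⟨N, G, hG, hc⟩ := exists_graph L m hL
    refine fl_le (w := ad G) ⟨ad_sym G, ⟨G, fun _ => ∅, fun i j _ => by simp⟩,
      ord_univ_eq G m hG, fun S => ?_⟩
    rw [← hf]
    exact hc S
  · obtain ⟨N, w, h⟩ := fl_spec l m
    exact mc_le_cut h.sym h.tot h.le

theorem q_formula9 (m : ℕ) (hm : 980 ≤ m) : mc m ≤ m ∧ Dl 0 m ≤ 2 * mc m - m ∧
    ∃ q, IsGreatest (qvalues m) q ∧ 2 * q = (m - mc m) ^ 2 + (Dl 0 m) ^ 2 := by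
  obtain ⟨h1, h2⟩ := qnum_T m hm
  have hT : T m = 2 * (mc m : ℤ) - m := rfl
  have hT0 := T_nonneg m
  rw [hT] at h1 h2 hT0
  have hfm : mc m ≤ m := by
    have : (mc m : ℤ) ≤ m := by linarith
    exact_mod_cast this
  have hfl := fl_eq 0 m
  have e1 : ((2 * (fl 0 m : ℤ) - m) + 2) ^ 2 + 1 ≤ 2 * ((m : ℤ) - fl 0 m) := by
    rw [hfl]; linarith
  have e2 : 9 * (2 * (fl 0 m : ℤ) - m) ≤ (m : ℤ) - fl 0 m := by
    rw [hfl]; linarith
  have e0 : fl 0 m ≤ m := by rw [hfl]; exact hfm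
  refine ⟨hfm, by have := Dl_le 0 m; rwa [hfl] at this, ?_⟩
  obtain ⟨N, G, hG, hq⟩ := q_lower9 e0 e1
  refine ⟨qval G, ⟨⟨N, G, hG, rfl⟩, ?_⟩, by rw [hq, hfl]⟩
  rintro x ⟨N', G', hG', rfl⟩
  have := q_upper9 G' hG' e0 e1 e2
  omega

end Pool.Agent.MXC
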