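import Pool.Agent.MXC.Defs

namespace Pool.Agent.MXC

open Finset Pool.Agent.MP_710317_co.Rec

variable {V : Type*} [Fintype V] [DecidableEq V]

omit [DecidableEq V] in
private lemma gen2_bil_comm {v : V → V → ℤ} (hv : Sym v) (x y : V → ℤ) :
    bil v x y = bil v y x := by
  unfold bil
  rw [Finset.sum_comm]
  refine Finset.sum_congr rfl fun i _ => Finset.sum_congr rfl fun j _ => ?_
  rw [hv.symm j i]; ring

omit [DecidableEq V] in
private lemma gen2_bil_add_left (v : V → V → ℤ) (x x' y : V → ℤ) :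
    bil v (fun i => x i + x' i) y = bil v x y + bil v x' y := by
  unfold bil
  rw [← Finset.sum_add_distrib]
  refine Finset.sum_congr rfl fun i _ => ?_
  rw [← Finset.sum_add_distrib]
  refine Finset.sum_congr rfl fun j _ => ?_
  ring

omit [DecidableEq V] in
private lemma gen2_bil_sum_left {P : Type*} [Fintype P] (v : V → V → ℤ) (c : P → ℤ)
    (φ : P → V → ℤ) (y : V → ℤ) :
    bil v (fun i => ∑ p, c p * φ p i) y = ∑ p, c p * bil v (φ p) y := by
  unfold bil
  simp only [Finset.mul_sum, Finset.sum_mul]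
  symm
  rw [Finset.sum_comm]
  refine Finset.sum_congr rfl fun i _ => ?_
  rw [Finset.sum_comm]
  refine Finset.sum_congr rfl fun j _ => Finset.sum_congr rfl fun p _ => ?_
  ring

omit [DecidableEq V] in
private lemma gen2_bil_add_right (v : V → V → ℤ) (x y y' : V → ℤ) :
    bil v x (fun i => y i + y' i) = bil v x y + bil v x y' := by
  unfold bil
  rw [← Finset.sum_add_distrib]
  refine Finset.sum_congr rfl fun i _ => ?_
  rw [← Finset.sum_add_distrib]
  refine Finset.sum_congr rfl fun j _ => ?_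
  ring

omit [DecidableEq V] in
private lemma gen2_bil_sum_right {P : Type*} [Fintype P] (v : V → V → ℤ) (c : P → ℤ)
    (φ : P → V → ℤ) (x : V → ℤ) :
    bil v x (fun i => ∑ p, c p * φ p i) = ∑ p, c p * bil v x (φ p) := by
  unfold bil
  simp only [Finset.mul_sum]
  symm
  rw [Finset.sum_comm]
  refine Finset.sum_congr rfl fun i _ => ?_
  rw [Finset.sum_comm]
  refine Finset.sum_congr rfl fun j _ => Finset.sum_congr rfl fun p _ => ?_
  ring

/-- [MXC-GEN2]  Random signs on blocks `φ p` and units `ψ κ` which are pairwise orthogonal.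

Proof.  Apply `gen_lemma` on the index type `P` (instead of `V`), with the matrix
`W p p' = if p = p' then 0 else bil v (φ p) (φ p')` (it is `Sym`, because `v` is symmetric), with
`g κ p = bil v (φ p) (ψ κ)` and `X = univ`: there are signs `η` on `P` with
`2 #{κ : ∃ p, g κ p ≠ 0} ≤ - ∑_{p,p'} W p p' η p η p' + 2 ∑_κ |∑_p g κ p η p|`.
Put `ε κ = if 0 ≤ ∑_p g κ p η p then -1 else 1`, so `ε κ * ∑_p g κ p η p = - |∑_p g κ p η p|`.
Expand `bil v x x` for `x = ∑ η p φ p + ∑ ε κ ψ κ` (`bil` is additive and homogeneous in both arguments and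
symmetric): the terms are `∑_p bil (φ p) (φ p)` (`η p ^ 2 = 1`), `∑_{p,p'} W p p' η p η p'`,
`2 ∑_κ ε κ ∑_p η p g κ p`, `∑_κ bil (ψ κ) (ψ κ)`, and the products of different units are `0`. -/
theorem gen2 {P K : Type*} [Fintype P] [DecidableEq P] [Fintype K] [DecidableEq K]
    {v : V → V → ℤ} (hv : Sym v) (φ : P → V → ℤ) (ψ : K → V → ℤ)
    (hψ : ∀ κ κ', κ ≠ κ' → bil v (ψ κ) (ψ κ') = 0) :
    ∃ (η : P → ℤ) (ε : K → ℤ), IsSign η ∧ IsSign ε ∧
      2 * (((univ.filter fun κ => ∃ p, bil v (φ p) (ψ κ) ≠ 0).card : ℕ) : ℤ)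
        - ∑ p, bil v (φ p) (φ p) - ∑ κ, bil v (ψ κ) (ψ κ) ≤
      - bil v (fun i => ∑ p, η p * φ p i + ∑ κ, ε κ * ψ κ i)
          (fun i => ∑ p, η p * φ p i + ∑ κ, ε κ * ψ κ i) := by
  classical
  have hW : Sym (fun p p' : P => if p = p' then (0 : ℤ) else bil v (φ p) (φ p')) := by
    refine ⟨fun p p' => ?_, fun p => by simp⟩
    by_cases h : p = p'
    · simp [h]
    · simp only [if_neg h, if_neg (Ne.symm h)]
      exact gen2_bil_comm hv _ _
  obtain ⟨η, hη, hmain⟩ := gen_lemma hW (fun (κ : K) p => bil v (φ p) (ψ κ)) Finset.univ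
  set S : K → ℤ := fun κ => ∑ p, bil v (φ p) (ψ κ) * η p with hS
  set ε : K → ℤ := fun κ => if 0 ≤ S κ then -1 else 1 with hεd
  have hε : IsSign ε := by
    intro κ
    by_cases h : 0 ≤ S κ
    · right; simp [hεd, h]
    · left; simp [hεd, h]
  have hεS : ∀ κ, ε κ * S κ = - |S κ| := by
    intro κ
    by_cases h : 0 ≤ S κ
    · simp [hεd, h, abs_of_nonneg h]
    · have h' : S κ < 0 := not_le.1 h
      simp [hεd, h, abs_of_neg h']
  have hsq : ∀ p, η p * η p = 1 := fun p => by
    rcases hη p with h | h <;> rw [h] <;> norm_num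
  have hsq' : ∀ κ, ε κ * ε κ = 1 := fun p => by
    rcases hε p with h | h <;> rw [h] <;> norm_num
  refine ⟨η, ε, hη, hε, ?_⟩
  set A : V → ℤ := fun i => ∑ p, η p * φ p i with hA
  set B : V → ℤ := fun i => ∑ κ, ε κ * ψ κ i with hB
  have hexp : bil v (fun i => A i + B i) (fun i => A i + B i) =
      bil v A A + 2 * bil v A B + bil v B B := by
    rw [gen2_bil_add_left, gen2_bil_add_right, gen2_bil_add_right, gen2_bil_comm hv B A]
    ring
  have hAA : bil v A A = ∑ p, bil v (φ p) (φ p) +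
      ∑ p, ∑ p', (if p = p' then (0 : ℤ) else bil v (φ p) (φ p')) * η p * η p' := by
    rw [hA, gen2_bil_sum_left, ← Finset.sum_add_distrib]
    refine Finset.sum_congr rfl fun p _ => ?_
    rw [gen2_bil_sum_right]
    have h1 : ∀ p', (if p = p' then (0 : ℤ) else bil v (φ p) (φ p')) * η p * η p' =
        η p * (η p' * bil v (φ p) (φ p')) -
          (if p = p' then bil v (φ p) (φ p') else 0) := by
      intro p'
      by_cases h : p = p'
      · subst h
        simp only [if_true]
        have := hsq p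
        linear_combination (- bil v (φ p) (φ p)) * this
      · simp only [if_neg h]; ring
    simp only [h1]
    rw [Finset.sum_sub_distrib, Finset.sum_ite_eq, if_pos (Finset.mem_univ p), ← Finset.mul_sum]
    ring
  have hAB : bil v A B = ∑ κ, ε κ * S κ := by
    rw [hB, gen2_bil_sum_right]
    refine Finset.sum_congr rfl fun κ _ => ?_
    rw [hA, gen2_bil_sum_left, hS]
    congr 1
    exact Finset.sum_congr rfl fun p _ => mul_comm _ _
  have hBB : bil v B B = ∑ κ, bil v (ψ κ) (ψ κ) := by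
    rw [hB, gen2_bil_sum_left]
    refine Finset.sum_congr rfl fun κ _ => ?_
    rw [gen2_bil_sum_right, Finset.sum_eq_single κ]
    · rw [← mul_assoc, hsq' κ, one_mul]
    · intro κ' _ hne
      rw [hψ κ κ' (Ne.symm hne), mul_zero]
    · intro h; exact absurd (Finset.mem_univ κ) h
  have hABs : bil v A B = - ∑ κ, |S κ| := by
    rw [hAB, ← Finset.sum_neg_distrib]
    exact Finset.sum_congr rfl fun κ _ => hεS κ
  have hcard : (univ.filter fun κ : K => ∃ x ∈ (univ : Finset P), bil v (φ x) (ψ κ) ≠ 0) =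
      (univ.filter fun κ : K => ∃ p, bil v (φ p) (ψ κ) ≠ 0) := by
    simp
  rw [hcard] at hmain
  show _ ≤ - bil v (fun i => A i + B i) (fun i => A i + B i)
  rw [hexp, hAA, hABs, hBB]
  linarith

end Pool.Agent.MXC
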