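import Pool.Agent.MXC.RDefs

/-!
# [MXC-K1]  One complete graph on `n - 1` vertices
-/

namespace Pool.Agent.MXC

open Finset Pool.Agent.MP_710317_co.Rec

private theorem K1_chb (B : ℕ) : chb B = B.choose 2 := (Nat.choose_two_right B).symm

private theorem K1_excm {m : ℕ} (h : excm m = true) : Exc m := by
  simp only [excm, Bool.or_eq_true] at h
  unfold Exc
  rcases h with ((h | h) | h) | h
  · exact Or.inl (Nat.eq_of_beq_eq_true h)
  · exact Or.inr (Or.inl (Nat.eq_of_beq_eq_true h))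
  · exact Or.inr (Or.inr (Or.inl (Nat.eq_of_beq_eq_true h)))
  · exact Or.inr (Or.inr (Or.inr (Nat.eq_of_beq_eq_true h)))

/-- Let `a = T r ≥ 0`, `y = r + n - 1` (`n - 1` in `ℕ`, `n ≥ 2`).
(1) If `a (2 a + 1) < y` then `T y ≥ a + 1` (`T_edw`: `T y ≤ a` would give `y ≤ a (2 a + 1)`), so
`ru n r ≤ n / 2 + a ≤ (n - 1) / 2 + T y`.
(2) If `r ≥ 460` this is so: otherwise `2 r ≤ r + n - 1 ≤ 2 a ^ 2 + a`, `10 r ≤ 10 a ^ 2 + 5 a ≤
8 r + 790 + 5 a` (`T_sq2`), `2 r ≤ 790 + 5 a`, and `5 a ^ 2 ≤ 4 r + 395` is impossible with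
`5 a ≥ 2 r - 790 ≥ 130` (`a ≥ 26` and `a ≥ (2 r - 790) / 5`: `5 a ^ 2 ≥ 26 (2 r - 790) = 52 r - 20540`
`> 4 r + 395` for `r ≥ 460`).
(3) If `r < 460` and `y ≤ a (2 a + 1)`: `a = tab r` (`T_eq_tab`), `n = r + 1 + i` with
`i < a (2 a + 1) + 1 - 2 r` (as `r + n - 1 = 2 r + i`), and `k1chk_all` (`chk_all`, `force_eq`) gives
`k1chk n r`; `y ≤ a (2 a + 1) < 1400` (`a ≤ 21` for `r < 460` by `T_sq2`), so `T y = tab y` (`T_eq_tab`);
unpack (`v = n / 2 + a`, `v' = (n + 1) / 2 + (n - r)`, `ru n r = min v v'`,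
`z = (n - 1) / 2 + T y`). -/
theorem k1 (n r : ℕ) (hn : 2 ≤ n) (hr : r < n) :
    ru n r ≤ (((n - 1) / 2 : ℕ) : ℤ) + T ((r + (n - 1) : ℕ) : ℤ) ∨
    (Exc (n.choose 2 + r) ∧
      ru n r = (((n - 1) / 2 : ℕ) : ℤ) + T ((r + (n - 1) : ℕ) : ℤ) + 2) := by
  have ha0 := T_nonneg (r : ℤ)
  have hy0 := T_nonneg ((r + (n - 1) : ℕ) : ℤ)
  have hed := T_edw (r + (n - 1))
  have hsq := T_sq2 r
  by_cases h1 : T (r : ℤ) * (2 * T r + 1) < ((r + (n - 1) : ℕ) : ℤ)
  · left
    have h2 : T (r : ℤ) < T ((r + (n - 1) : ℕ) : ℤ) := by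
      by_contra hcon
      push Not at hcon
      nlinarith
    have h3 : ru n r ≤ ((n / 2 : ℕ) : ℤ) + T r := min_le_left _ _
    omega
  · push Not at h1
    have hyr : 2 * (r : ℤ) ≤ ((r + (n - 1) : ℕ) : ℤ) := by omega
    have hr460 : r < 460 := by
      by_contra hcon
      push Not at hcon
      have hcon' : (460 : ℤ) ≤ r := by exact_mod_cast hcon
      have h5 : 2 * (r : ℤ) ≤ 790 + 5 * T r := by nlinarith
      have h6 : 26 ≤ T (r : ℤ) := by linarith
      nlinarith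
    have ha := T_eq_tab r (by omega)
    have hale : T (r : ℤ) ≤ 21 := by
      by_contra hcon
      push Not at hcon
      have : (r : ℤ) < 460 := by exact_mod_cast hr460
      nlinarith
    rw [ha] at h1 hale
    have h1' : r + (n - 1) ≤ tab r * (2 * tab r + 1) := by exact_mod_cast h1
    have hale' : tab r ≤ 21 := by exact_mod_cast hale
    have hy1400 : r + (n - 1) < 1400 := by
      calc r + (n - 1) ≤ tab r * (2 * tab r + 1) := h1'
        _ ≤ 21 * (2 * 21 + 1) := Nat.mul_le_mul hale' (by omega)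
        _ < 1400 := by norm_num
    have hy := T_eq_tab _ hy1400
    have hk := chk_all k1chk_all r hr460
    simp only [force_eq] at hk
    have hi : n - 1 - r < Nat.sub (Nat.add (Nat.mul (tab r) (Nat.succ (Nat.mul 2 (tab r)))) 1)
        (Nat.mul 2 r) := by
      show n - 1 - r < (tab r * (2 * tab r + 1) + 1) - 2 * r
      omega
    have hk2 := chk_all hk (n - 1 - r) hi
    have e1 : Nat.add r (n - 1 - r) = n - 1 := by
      show r + (n - 1 - r) = n - 1
      omega
    have e2 : Nat.add (n - 1) 1 = n := by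
      show n - 1 + 1 = n
      omega
    simp only [e1, e2, Bool.or_eq_true] at hk2
    rcases hk2 with hk2 | hk2
    · have := Nat.eq_of_beq_eq_true hk2
      omega
    simp only [k1chk, force_eq, Bool.or_eq_true, Bool.and_eq_true, Nat.ble_eq] at hk2
    have E1 : Nat.add (Nat.div n 2) (tab r) = n / 2 + tab r := rfl
    have E2 : Nat.add (Nat.div (Nat.succ n) 2) (Nat.sub n r) = (n + 1) / 2 + (n - r) := rfl
    have E3 : Nat.add (Nat.div (Nat.pred n) 2) (tab (Nat.add r (Nat.pred n))) =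
      (n - 1) / 2 + tab (r + (n - 1)) := rfl
    have E4 : Nat.add (chb n) r = n.choose 2 + r := by
      rw [← K1_chb]
      rfl
    rw [E1, E2, E3, E4] at hk2
    have hru1 : ru n r = min (((n / 2 : ℕ) : ℤ) + T r) ((((n + 1) / 2 : ℕ) : ℤ) + ((n : ℤ) - r)) := rfl
    rw [ha] at hru1
    rw [hy, hru1]
    rcases hk2 with (hk2 | hk2) | ⟨hex, hk2⟩
    · left
      exact (min_le_left _ _).trans (by omega)
    · left
      exact (min_le_right _ _).trans (by omega)
    · right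
      refine ⟨K1_excm hex, ?_⟩
      rcases hk2 with ⟨h3, h4⟩ | ⟨h3, h4⟩
      · have h4' : n / 2 + tab r ≤ (n + 1) / 2 + (n - r) := h4
        have h3' : n / 2 + tab r = (n - 1) / 2 + tab (r + (n - 1)) + 2 :=
          Nat.eq_of_beq_eq_true h3
        rw [min_eq_left (by omega)]
        omega
      · have h4' : (n + 1) / 2 + (n - r) ≤ n / 2 + tab r := h4
        have h3' : (n + 1) / 2 + (n - r) = (n - 1) / 2 + tab (r + (n - 1)) + 2 :=
          Nat.eq_of_beq_eq_true h3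
        rw [min_eq_right (by omega)]
        omega

end Pool.Agent.MXC
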