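import Pool.Agent.MXC.RDefs

/-!
# [MXC-K2]  The largest complete graph has at most `n - 2` vertices

`m = C(n,2) + r`, `k = n - B`, `y = m - C(B,2)`, `2 y = 2 r + 2 k n - k ^ 2 - k`, `a = T r`.
-/

namespace Pool.Agent.MXC

open Finset Pool.Agent.MP_710317_co.Rec

theorem K2_two (n : ℕ) : 2 * ((n.choose 2 : ℕ) : ℤ) = (n : ℤ) * (n - 1) := by
  induction n with
  | zero => simp
  | succ n ih =>
    rw [Nat.choose_succ_succ' n 1, Nat.choose_one_right]
    push_cast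
    linarith

theorem K2_chb (B : ℕ) : chb B = B.choose 2 := (Nat.choose_two_right B).symm

theorem K2_mono {n B : ℕ} (h : B ≤ n) : B.choose 2 ≤ n.choose 2 := Nat.choose_le_choose 2 h

/-- `2 B < n`: `m ≤ B T m` and `2 m ≥ n (n - 1)`, `2 B ≤ n - 1` give `T m ≥ n`; and `n / 2 + T r ≤ n`
because `T r ^ 2 ≤ r + 26 ≤ n + 25 ≤ ((n + 1) / 2) ^ 2` (`n ≥ 30`).
`2 B ≥ n`, so `2 ≤ k ≤ n / 2`: let `f k = r + k n - k ^ 2 - k - 2 a k - 2 a ^ 2 - a`.  With `h = n / 2`: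
`(h - 2) f k = (h - k) f 2 + (k - 2) f h + (h - 2) (k - 2) (h - k)`, so `f k > 0`.  If
`T m < n / 2 + a` then (all integers) `2 T y = 2 T m - 2 (B / 2) ≤ k + 2 a`
(`2 (n / 2) - 2 (B / 2) ≤ k + 1`), and `T_edw`: `2 y ≤ 2 T y (2 T y + 1) ≤ (k + 2 a) (k + 2 a + 1)`,
which says `f k ≤ 0`. -/
theorem k2_conc (n r B : ℕ) (hn : 30 ≤ n) (hr : r < n) (hB : 2 ≤ B) (hBn : B + 2 ≤ n)
    (h2 : 0 < (r : ℤ) + 2 * n - 2 ^ 2 - 2 - 2 * T r * 2 - 2 * T r ^ 2 - T r)
    (hh : 0 < (r : ℤ) + ((n / 2 : ℕ) : ℤ) * n - ((n / 2 : ℕ) : ℤ) ^ 2 - ((n / 2 : ℕ) : ℤ)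
      - 2 * T r * ((n / 2 : ℕ) : ℤ) - 2 * T r ^ 2 - T r)
    (hT : T ((n.choose 2 + r : ℕ) : ℤ) =
      ((B / 2 : ℕ) : ℤ) + T (((n.choose 2 + r : ℕ) : ℤ) - ((B.choose 2 : ℕ) : ℤ)))
    (hTB : ((n.choose 2 + r : ℕ) : ℤ) ≤ B * T ((n.choose 2 + r : ℕ) : ℤ)) :
    ((n / 2 : ℕ) : ℤ) + T r ≤ T ((n.choose 2 + r : ℕ) : ℤ) := by
  obtain ⟨a, ha⟩ : ∃ a : ℤ, a = T r := ⟨_, rfl⟩
  obtain ⟨M, hM⟩ : ∃ M : ℤ, M = T ((n.choose 2 + r : ℕ) : ℤ) := ⟨_, rfl⟩
  obtain ⟨h, hh'⟩ : ∃ h : ℕ, h = n / 2 := ⟨_, rfl⟩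
  have ha0 : 0 ≤ a := by rw [ha]; exact T_nonneg _
  have hasq : a ^ 2 ≤ (r : ℤ) + 26 := by rw [ha]; exact T_sq r
  have hn2 := K2_two n
  rw [← hM] at hT hTB ⊢
  rw [← ha, ← hh'] at hh ⊢
  rw [← ha] at h2
  have hrn : (r : ℤ) + 1 ≤ n := by exact_mod_cast hr
  have hn30 : (30 : ℤ) ≤ n := by exact_mod_cast hn
  have hh1 : (n : ℤ) ≤ 2 * h + 1 := by
    have : n ≤ 2 * h + 1 := by omega
    exact_mod_cast this
  have hh2 : 2 * (h : ℤ) ≤ n := by
    have : 2 * h ≤ n := by omega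
    exact_mod_cast this
  have hr0 : (0 : ℤ) ≤ r := Nat.cast_nonneg r
  by_cases hcase : 2 * B < n
  · have hB' : 2 * (B : ℤ) + 1 ≤ n := by exact_mod_cast hcase
    have hB0 : (0 : ℤ) ≤ B := Nat.cast_nonneg B
    have hTn : (n : ℤ) ≤ M := by
      by_contra hcon
      push Not at hcon
      have h3 : M ≤ n - 1 := by linarith
      have h4 : (B : ℤ) * M ≤ B * (n - 1) := mul_le_mul_of_nonneg_left h3 hB0
      have h5 : 2 * ((B : ℤ) * (n - 1)) ≤ (n - 1) * (n - 1) := by nlinarith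
      push_cast at hTB
      nlinarith
    have h6 : a ≤ n - h := by
      by_contra hcon
      push Not at hcon
      have h7 : (n : ℤ) - h + 1 ≤ a := by linarith
      nlinarith
    linarith
  · have hBy : B.choose 2 ≤ n.choose 2 + r := (K2_mono (by omega)).trans (Nat.le_add_right _ _)
    obtain ⟨y, hy⟩ : ∃ y : ℕ, y = n.choose 2 + r - B.choose 2 := ⟨_, rfl⟩
    have hyz : ((n.choose 2 + r : ℕ) : ℤ) - ((B.choose 2 : ℕ) : ℤ) = (y : ℤ) := by
      rw [hy, Nat.cast_sub hBy]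
    rw [hyz] at hT
    obtain ⟨k, hk⟩ : ∃ k : ℕ, k = n - B := ⟨_, rfl⟩
    have hBk : (B : ℤ) = n - k := by
      have : B + k = n := by omega
      have : (B : ℤ) + k = n := by exact_mod_cast this
      linarith
    have hk2 : (2 : ℤ) ≤ k := by
      have : 2 ≤ k := by omega
      exact_mod_cast this
    have hkh : (k : ℤ) ≤ h := by
      have : k ≤ h := by omega
      exact_mod_cast this
    have hB2 := K2_two B
    have h15 : (15 : ℤ) ≤ h := by
      have : 15 ≤ h := by omega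
      exact_mod_cast this
    -- concavity
    have hf : 0 < (r : ℤ) + k * n - k ^ 2 - k - 2 * a * k - 2 * a ^ 2 - a := by
      by_contra hcon
      push Not at hcon
      have e1 : ((h : ℤ) - 2) * ((r : ℤ) + k * n - k ^ 2 - k - 2 * a * k - 2 * a ^ 2 - a) =
          (h - k) * ((r : ℤ) + 2 * n - 2 ^ 2 - 2 - 2 * a * 2 - 2 * a ^ 2 - a) +
          (k - 2) * ((r : ℤ) + h * n - h ^ 2 - h - 2 * a * h - 2 * a ^ 2 - a) +
          (h - 2) * (k - 2) * (h - k) := by ring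
      have e2 : (0:ℤ) ≤ (h - k) := by linarith
      have e3 : (0:ℤ) ≤ (k - 2) := by linarith
      have e4 : (0:ℤ) ≤ (h - 2) := by linarith
      have e5 := mul_nonneg (mul_nonneg e4 e3) e2
      have e6 := mul_le_mul_of_nonneg_left (Int.add_one_le_iff.2 h2) e2
      have e7 := mul_le_mul_of_nonneg_left (Int.add_one_le_iff.2 hh) e3
      have e8 := mul_nonpos_of_nonneg_of_nonpos e4 hcon
      linarith
    by_contra hcon
    push Not at hcon
    have hTy0 : 0 ≤ T (y : ℤ) := T_nonneg _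
    have hedw := T_edw y
    have hB1 : (B : ℤ) ≤ 2 * ((B / 2 : ℕ) : ℤ) + 1 := by
      have : B ≤ 2 * (B / 2) + 1 := by omega
      exact_mod_cast this
    have h8 : 2 * T (y : ℤ) ≤ k + 2 * a := by linarith
    have h9 : 2 * (y : ℤ) = 2 * r + 2 * n * k - k ^ 2 - k := by
      rw [← hyz]
      push_cast
      have : 2 * ((B.choose 2 : ℕ) : ℤ) = (n - k) * (n - k - 1) := by rw [hB2, hBk]
      linarith
    have h10 : 2 * (y : ℤ) ≤ (k + 2 * a) * (k + 2 * a + 1) := by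
      have e1 : 2 * (y : ℤ) ≤ (2 * T (y : ℤ)) * (2 * T (y : ℤ) + 1) := by linarith
      have e2 : (2 * T (y : ℤ)) * (2 * T (y : ℤ) + 1) ≤ (k + 2 * a) * (k + 2 * a + 1) := by
        apply mul_le_mul h8 (by linarith) (by linarith) (by linarith)
      linarith
    nlinarith

/-- `k2B W B v = true` with `W = m`: one of: `y < 1400`, `v ≤ B / 2 + tab y` (`T_ge_tab`);
`B (v - 1) < m` (then `T m ≤ v - 1` contradicts `m ≤ B T m`); `v - 1 < B / 2` (`T y ≥ 0`);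
`c (2 c + 1) < y`, `c = v - 1 - B / 2` (natural subtraction; then `T y > c` by `T_edw`).
Each gives `v ≤ T m`.  (`y = W - C(B,2)` is a natural number as `B ≤ n`.) -/
theorem of_k2B {n r B v : ℕ} (hr : r < n) (hB : 2 ≤ B) (hBn : B + 2 ≤ n)
    (h : k2B (n.choose 2 + r) B v = true)
    (hT : T ((n.choose 2 + r : ℕ) : ℤ) =
      ((B / 2 : ℕ) : ℤ) + T (((n.choose 2 + r : ℕ) : ℤ) - ((B.choose 2 : ℕ) : ℤ)))
    (hTB : ((n.choose 2 + r : ℕ) : ℤ) ≤ B * T ((n.choose 2 + r : ℕ) : ℤ)) :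
    (v : ℤ) ≤ T ((n.choose 2 + r : ℕ) : ℤ) := by
  obtain ⟨M, hM⟩ : ∃ M : ℤ, M = T ((n.choose 2 + r : ℕ) : ℤ) := ⟨_, rfl⟩
  have hM0 : 0 ≤ M := by rw [hM]; exact T_nonneg _
  rw [← hM] at hT hTB ⊢
  have hBy : B.choose 2 ≤ n.choose 2 + r := (K2_mono (by omega)).trans (Nat.le_add_right _ _)
  obtain ⟨y, hy⟩ : ∃ y : ℕ, y = n.choose 2 + r - B.choose 2 := ⟨_, rfl⟩
  have hyz : ((n.choose 2 + r : ℕ) : ℤ) - ((B.choose 2 : ℕ) : ℤ) = (y : ℤ) := by
    rw [hy, Nat.cast_sub hBy]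
  rw [hyz] at hT
  have hTy0 : 0 ≤ T (y : ℤ) := T_nonneg _
  unfold k2B at h
  rw [K2_chb] at h
  have hy' : Nat.sub (n.choose 2 + r) (B.choose 2) = y := hy.symm
  rw [hy'] at h
  simp only [force_eq, Bool.or_eq_true, Bool.and_eq_true, Nat.ble_eq] at h
  rcases h with ((h | h) | h) | h
  · have h1 : y < 1400 := h.1
    have h2 : v ≤ B / 2 + tab y := h.2
    have h3 := T_ge_tab y h1
    have h4 : (v : ℤ) ≤ ((B / 2 : ℕ) : ℤ) + (tab y : ℤ) := by exact_mod_cast h2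
    linarith
  · have h1 : B * (v - 1) + 1 ≤ n.choose 2 + r := h
    by_contra hcon
    push Not at hcon
    have hv : 1 ≤ v := by
      have : (0:ℤ) < v := by linarith
      exact_mod_cast this
    have h2 : M ≤ ((v - 1 : ℕ) : ℤ) := by
      rw [Nat.cast_sub hv]
      push_cast
      linarith
    have h3 : (B : ℤ) * M ≤ B * ((v - 1 : ℕ) : ℤ) :=
      mul_le_mul_of_nonneg_left h2 (Nat.cast_nonneg B)
    have h4 : (B : ℤ) * ((v - 1 : ℕ) : ℤ) + 1 ≤ ((n.choose 2 + r : ℕ) : ℤ) := by exact_mod_cast h1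
    linarith
  · have h1 : v - 1 + 1 ≤ B / 2 := h
    have h2 : v ≤ B / 2 := by omega
    have h3 : (v : ℤ) ≤ ((B / 2 : ℕ) : ℤ) := by exact_mod_cast h2
    linarith
  · obtain ⟨c, hc⟩ : ∃ c : ℕ, c = v - 1 - B / 2 := ⟨_, rfl⟩
    have hc' : Nat.sub (Nat.pred v) (Nat.div B 2) = c := hc.symm
    rw [hc'] at h
    have h1 : c * (2 * c + 1) + 1 ≤ y := h
    have h2 : (c : ℤ) + 1 ≤ T (y : ℤ) := by
      by_contra hcon
      push Not at hcon
      have h3 : T (y : ℤ) ≤ c := by linarith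
      have h4 := T_edw y
      have h5 : (c : ℤ) * (2 * c + 1) + 1 ≤ y := by exact_mod_cast h1
      have h6 : T (y : ℤ) * (2 * T (y : ℤ) + 1) ≤ (c : ℤ) * (2 * c + 1) :=
        mul_le_mul h3 (by linarith) (by linarith) (by positivity)
      linarith
    have h3 : v ≤ c + 1 + B / 2 := by omega
    have h4 : (v : ℤ) ≤ c + 1 + ((B / 2 : ℕ) : ℤ) := by exact_mod_cast h3
    linarith

/-- `n ≥ 124`: `k2_conc`; `a = T r`, `a ^ 2 ≤ r + 26 ≤ n + 25` (`T_sq`).  First hypothesis: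
`r + 2 n - 6 - 5 a - 2 a ^ 2 ≥ 2 n - 6 - 5 a - a ^ 2 - 26 ≥ n - 57 - 5 a > 0` as
`25 (n + 25) < (n - 57) ^ 2` for `n ≥ 124`.  Second, `h = n / 2`, `n - 1 ≤ 2 h ≤ n`:
`r + h n - h ^ 2 - h - 2 a h - 2 a ^ 2 - a ≥ h (n - h - 1 - 2 a) - n - 51 - a`, and
`2 a ≤ 2 √(n + 25) ≤ n / 4` etc.
`n < 124`: `k2chk_all` gives `k2chk n r`, `a = tab r = T r` (`T_eq_tab`): either the two `fk` (unpack to the
hypotheses of `k2_conc`, `fk` at `k = 2` and `k = n / 2`), or for `i = B - 2 < n - 3` one of `k2B W B v`,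
`k2B W B v'`: `of_k2B`, and `ru n r ≤ v`, `ru n r ≤ v'`. -/
theorem k2 (n r B : ℕ) (hr : r < n) (hB : 2 ≤ B) (hBn : B + 2 ≤ n)
    (hT : T ((n.choose 2 + r : ℕ) : ℤ) =
      ((B / 2 : ℕ) : ℤ) + T (((n.choose 2 + r : ℕ) : ℤ) - ((B.choose 2 : ℕ) : ℤ)))
    (hTB : ((n.choose 2 + r : ℕ) : ℤ) ≤ B * T ((n.choose 2 + r : ℕ) : ℤ)) :
    ru n r ≤ T ((n.choose 2 + r : ℕ) : ℤ) := by
  by_cases hn : n < 124
  · have h1 := chk_all k2chk_all n hn
    have h2 := chk_all h1 r hr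
    unfold k2chk at h2
    simp only [force_eq, Bool.or_eq_true, Bool.and_eq_true, Nat.ble_eq] at h2
    have ha : T r = (tab r : ℤ) := T_eq_tab r (by omega)
    rcases h2 with ⟨⟨h3, h4⟩, h5⟩ | h3
    · refine (min_le_left _ _).trans ?_
      refine k2_conc n r B h3 hr hB hBn ?_ ?_ hT hTB
      · unfold fk at h4
        rw [Nat.ble_eq] at h4
        have h6 : (2 * 2 + 2 + 2 * tab r * 2 + 2 * tab r * tab r + tab r) + 1 ≤ r + 2 * n := h4
        rw [ha]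
        zify at h6
        linarith
      · unfold fk at h5
        rw [Nat.ble_eq] at h5
        have h6 : ((n / 2) * (n / 2) + n / 2 + 2 * tab r * (n / 2) + 2 * tab r * tab r + tab r) + 1 ≤
            r + (n / 2) * n := h5
        rw [ha]
        obtain ⟨h, hh⟩ : ∃ h : ℕ, h = n / 2 := ⟨_, rfl⟩
        rw [← hh] at h6 ⊢
        zify at h6
        linarith
    · have h4 := chk_all h3 (B - 2) (by
        show B - 2 < n - 3
        omega)
      have h5 : Nat.add (B - 2) 2 = B := by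
        show B - 2 + 2 = B
        omega
      rw [h5] at h4
      have h6 : Nat.add (chb n) r = n.choose 2 + r := by
        show chb n + r = _
        rw [K2_chb]
      rw [h6] at h4
      simp only [Bool.or_eq_true] at h4
      rcases h4 with h4 | h4
      · have h7 := of_k2B hr hB hBn h4 hT hTB
        refine (min_le_left _ _).trans ?_
        rw [ha]
        have h8 : ((Nat.add (Nat.div n 2) (tab r) : ℕ) : ℤ) = ((n / 2 : ℕ) : ℤ) + (tab r : ℤ) := by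
          show ((n / 2 + tab r : ℕ) : ℤ) = _
          push_cast
          rfl
        rw [h8] at h7
        exact h7
      · have h7 := of_k2B hr hB hBn h4 hT hTB
        refine (min_le_right _ _).trans ?_
        have h8 : ((Nat.add (Nat.div (Nat.succ n) 2) (Nat.sub n r) : ℕ) : ℤ) =
            (((n + 1) / 2 : ℕ) : ℤ) + ((n : ℤ) - r) := by
          show (((n + 1) / 2 + (n - r) : ℕ) : ℤ) = _
          rw [Nat.cast_add, Nat.cast_sub hr.le]
        rw [h8] at h7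
        exact h7
  · push Not at hn
    refine (min_le_left _ _).trans ?_
    obtain ⟨a, ha⟩ : ∃ a : ℤ, a = T r := ⟨_, rfl⟩
    obtain ⟨h, hh'⟩ : ∃ h : ℕ, h = n / 2 := ⟨_, rfl⟩
    have ha0 : 0 ≤ a := by rw [ha]; exact T_nonneg _
    have hasq : a ^ 2 ≤ (r : ℤ) + 26 := by rw [ha]; exact T_sq r
    have hrn : (r : ℤ) + 1 ≤ n := by exact_mod_cast hr
    have hn124 : (124 : ℤ) ≤ n := by exact_mod_cast hn
    have hh1 : (n : ℤ) ≤ 2 * h + 1 := by
      have : n ≤ 2 * h + 1 := by omega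
      exact_mod_cast this
    have hh2 : 2 * (h : ℤ) ≤ n := by
      have : 2 * h ≤ n := by omega
      exact_mod_cast this
    have hr0 : (0 : ℤ) ≤ r := Nat.cast_nonneg r
    have h5a : 5 * a < n - 57 := by
      by_contra hcon
      push Not at hcon
      nlinarith
    have h8a : 8 * a ≤ n := by
      by_contra hcon
      push Not at hcon
      nlinarith
    refine k2_conc n r B (by omega) hr hB hBn ?_ ?_ hT hTB
    · rw [← ha]
      linarith
    · rw [← ha, ← hh']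
      have h1 : (30 : ℤ) ≤ h - 1 - 2 * a := by
        by_contra hcon
        push Not at hcon
        have : (h : ℤ) - 1 - 2 * a ≤ 29 := by linarith
        linarith
      have h0 : (61 : ℤ) ≤ h := by linarith
      have h2 : (h : ℤ) * 30 ≤ h * (h - 1 - 2 * a) := mul_le_mul_of_nonneg_left h1 (by linarith)
      have h3 : (h : ℤ) * (2 * h) ≤ h * n := mul_le_mul_of_nonneg_left hh2 (by linarith)
      nlinarith

end Pool.Agent.MXC
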