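import Pool.Agent.MXC.Step
import Pool.Agent.MXC.Contr

/-!
# The lower bound for integer weights
-/

namespace Pool.Agent.MXC

open Finset Pool.Agent.MP_710317_co.Rec

/-- the parity of the surplus -/
theorem en_par {V : Type*} [Fintype V] [DecidableEq V] {w : V → V → ℤ} (hw : Sym w) {W : ℤ}
    (hW : inn w univ = 2 * W) (e : V → ℤ) (he : IsSign e) : ∃ k, en w e = 2 * (2 * k - W) := by
  rw [en_eq hw e he, hW]
  exact ⟨crs w (univ.filter fun i => e i = 1) (univ.filter fun i => e i = 1)ᶜ, by ring⟩

theorem main_lower (n : ℕ) : ∀ (V : Type) [Fintype V] [DecidableEq V], Fintype.card V = n →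
    ∀ (w : V → V → ℤ) (s W : ℤ), Sym w → Sb w s → inn w univ = 2 * W → T W ≤ s := by
  induction n using Nat.strong_induction_on with
  | _ n ih =>
  intro V _ _ hn w s W hw hs hW
  by_cases hneg : ∃ i j, i ≠ j ∧ w i j ≤ 0
  · -- contraction
    obtain ⟨i, j, hij, hle⟩ := hneg
    obtain ⟨V', _, _, w', hcard, hw', hinn, hSb⟩ := contract hw hs hij
    have h1 := ih (Fintype.card V') (hn ▸ hcard) V' rfl w' (s + w i j) (W - w i j) hw' hSb
      (by rw [hinn, hW]; ring)
    have h2 := T_lip W (W - w i j)
    have h3 : |W - (W - w i j)| = - w i j := by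
      have : W - (W - w i j) = w i j := by ring
      rw [this, abs_of_nonpos hle]
    rw [h3] at h2
    linarith
  · -- all weights at least one
    push Not at hneg
    by_contra hcon
    rw [not_le] at hcon
    -- `W` is a natural number
    have hW0 : 0 ≤ W := by
      have h1 : 0 ≤ inn w univ := Finset.sum_nonneg fun i _ => Finset.sum_nonneg fun j _ => by
        by_cases hij : i = j
        · rw [hij, hw.diag]
        · exact (hneg i j hij).le
      linarith
    obtain ⟨m, hm⟩ := Int.eq_ofNat_of_zero_le hW0
    have hSb : Sb w (T W - 2) := by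
      intro e he
      obtain ⟨k, hk⟩ := en_par hw hW e he
      have h1 := hs e he
      have h2 : T W = 2 * (mc W.toNat : ℤ) - W := rfl
      rw [hk] at h1 ⊢
      omega
    set u : V → V → ℤ := fun i j => if i = j then 0 else w i j - 1 with hu
    have H : Hyp w u (T W - 2) (T W - 2 - ((Fintype.card V / 2 : ℕ) : ℤ)) := by
      refine ⟨hw, ⟨fun i j => ?_, fun i => ?_⟩, fun i j => ?_, fun i j hij => ?_, hSb, rfl⟩
      · simp only [hu]
        by_cases hij : i = j
        · rw [if_pos hij, if_pos hij.symm]
        · rw [if_neg hij, if_neg (Ne.symm hij), hw.symm]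
      · simp only [hu, if_true]
      · simp only [hu]
        by_cases hij : i = j
        · rw [if_pos hij]
        · rw [if_neg hij]
          have := hneg i j hij
          linarith
      · simp only [hu]
        rw [if_neg hij]; ring
    have hWm : W = ((m : ℕ) : ℤ) := hm
    subst hWm
    exact step H (W := m) hW rfl fun V' _ _ w' s' W' hc hw' hs' hW' =>
      ih (Fintype.card V') (hn ▸ hc) V' rfl w' s' W' hw' hs' hW'

/-- **The least Max-Cut, lower bound.**  If no cut of an integer weighting of total weight `m` is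
larger than `c` then `mc m ≤ c`. -/
theorem mc_le_cut {V : Type} [Fintype V] [DecidableEq V] {w : V → V → ℤ} (hw : Sym w) {m c : ℕ}
    (hW : inn w univ = 2 * (m : ℤ)) (h : ∀ S : Finset V, crs w S Sᶜ ≤ (c : ℤ)) : mc m ≤ c := by
  have h1 := main_lower (Fintype.card V) V rfl w (2 * (c : ℤ) - m) m hw (Sb_of_le hw hW h) hW
  unfold T at h1
  rw [Int.toNat_natCast] at h1
  omega

end Pool.Agent.MXC
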