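import Pool.Agent.MXC.Defs

/-!
# [MXC-MATCH]  Largest matchings

Joining two fixed points `i ≠ j` of an involution `τ`: `fun x => if x = i then j else if x = j then i
else τ x` (see also `maxp_join`, `maxp_cut` in `Pool.Agent.MP_710317_co.Rec.MaxP`).
-/

namespace Pool.Agent.MXC

open Finset Pool.Agent.MP_710317_co.Rec

variable {V : Type*} [Fintype V] [DecidableEq V]

/-- `id` is a matching; `V → V` is finite (`Finset.exists_max_image` on `univ.filter (PM u)`, classical). -/
theorem exists_maxPM (u : V → V → ℤ) : ∃ τ, MaxPM u τ := by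
  classical
  have hid : PM u id := ⟨fun _ => rfl, fun x hx => absurd rfl hx⟩
  obtain ⟨τ, hτ, hmax⟩ := Finset.exists_max_image (univ.filter (fun σ : V → V => PM u σ))
    (fun σ => (nfx σ).card) ⟨id, by simp [hid]⟩
  refine ⟨τ, (Finset.mem_filter.mp hτ).2, fun σ hσ => hmax σ ?_⟩
  exact Finset.mem_filter.mpr ⟨Finset.mem_univ _, hσ⟩

/-- Otherwise `0 < u i j` (so `i ≠ j` by the zero diagonal); join `i` and `j`: two more non-fixed points. -/
theorem maxPM_indep {u : V → V → ℤ} (hu : Sym u) (u0 : ∀ i j, 0 ≤ u i j) {τ : V → V}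
    (h : MaxPM u τ) {i j : V} (hi : τ i = i) (hj : τ j = j) : u i j = 0 := by
  by_contra hne
  have hpos : 0 < u i j := lt_of_le_of_ne (u0 i j) (Ne.symm hne)
  have hij : i ≠ j := by
    intro h
    rw [h, hu.diag] at hpos
    exact lt_irrefl _ hpos
  have hinv := h.pm.inv
  obtain ⟨σ, hσ⟩ : ∃ σ : V → V, σ = fun x => if x = i then j else if x = j then i else τ x :=
    ⟨_, rfl⟩
  have hσi : σ i = j := by rw [hσ]; simp
  have hσj : σ j = i := by rw [hσ]; simp [hij.symm]
  have hσx : ∀ x, x ≠ i → x ≠ j → σ x = τ x := by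
    intro x h1 h2
    rw [hσ]
    simp [h1, h2]
  have hPM : PM u σ := by
    constructor
    · intro x
      by_cases h1 : x = i
      · rw [h1, hσi, hσj]
      · by_cases h2 : x = j
        · rw [h2, hσj, hσi]
        · have h3 : τ x ≠ i := fun h3 => h1 (by rw [← hinv x, h3, hi])
          have h4 : τ x ≠ j := fun h4 => h2 (by rw [← hinv x, h4, hj])
          rw [hσx x h1 h2, hσx _ h3 h4, hinv]
    · intro x hx
      by_cases h1 : x = i
      · rw [h1, hσi]
        exact hpos
      · by_cases h2 : x = j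
        · rw [h2, hσj, hu.symm]
          exact hpos
        · rw [hσx x h1 h2] at hx ⊢
          exact h.pm.pos x hx
  have hle := h.max σ hPM
  have hlt : (nfx τ).card < (nfx σ).card := by
    apply Finset.card_lt_card
    rw [Finset.ssubset_iff_of_subset]
    · refine ⟨i, ?_, ?_⟩
      · simp only [nfx, Finset.mem_filter, Finset.mem_univ, true_and, hσi]
        exact hij.symm
      · simp only [nfx, Finset.mem_filter, Finset.mem_univ, true_and, hi]
        simp
    · intro x hx
      simp only [nfx, Finset.mem_filter, Finset.mem_univ, true_and] at hx ⊢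
      have h1 : x ≠ i := fun h1 => hx (by rw [h1, hi])
      have h2 : x ≠ j := fun h2 => hx (by rw [h2, hj])
      rw [hσx x h1 h2]
      exact hx
  omega

/-- Otherwise replace the pair `a, τ a` by the pairs `a, i` and `τ a, j`: two more non-fixed points.
(`a`, `τ a`, `i`, `j` are different.) -/
theorem maxPM_aug {u : V → V → ℤ} (hu : Sym u) {τ : V → V} (h : MaxPM u τ) {a i j : V}
    (ha : τ a ≠ a) (hi : τ i = i) (hj : τ j = j) (hij : i ≠ j) :
    ¬ (0 < u a i ∧ 0 < u (τ a) j) := by
  rintro ⟨hai, hbj⟩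
  have hinv := h.pm.inv
  obtain ⟨b, hb⟩ : ∃ b, b = τ a := ⟨_, rfl⟩
  rw [← hb] at ha hbj
  have hτb : τ b = a := by rw [hb, hinv]
  have h_ai : a ≠ i := by
    intro h1
    apply ha
    rw [hb, h1, hi]
  have h_aj : a ≠ j := by
    intro h1
    apply ha
    rw [hb, h1, hj]
  have h_bi : b ≠ i := by
    intro h1
    apply ha
    rw [← hτb, h1, hi]
  have h_bj : b ≠ j := by
    intro h1
    apply ha
    rw [← hτb, h1, hj]
  obtain ⟨σ, hσ⟩ : ∃ σ : V → V, σ = fun x => if x = a then i else if x = i then a else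
    if x = b then j else if x = j then b else τ x := ⟨_, rfl⟩
  have hσa : σ a = i := by rw [hσ]; simp
  have hσi : σ i = a := by rw [hσ]; simp [h_ai.symm]
  have hσb : σ b = j := by rw [hσ]; simp [ha, h_bi]
  have hσj : σ j = b := by rw [hσ]; simp [h_aj.symm, hij.symm, h_bj.symm]
  have hσx : ∀ x, x ≠ a → x ≠ i → x ≠ b → x ≠ j → σ x = τ x := by
    intro x h1 h2 h3 h4
    rw [hσ]
    simp [h1, h2, h3, h4]
  have hPM : PM u σ := by
    constructor
    · intro x
      by_cases h1 : x = a
      · rw [h1, hσa, hσi]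
      by_cases h2 : x = i
      · rw [h2, hσi, hσa]
      by_cases h3 : x = b
      · rw [h3, hσb, hσj]
      by_cases h4 : x = j
      · rw [h4, hσj, hσb]
      have k1 : τ x ≠ a := fun k => h3 (by rw [← hinv x, k, ← hb])
      have k2 : τ x ≠ i := fun k => h2 (by rw [← hinv x, k, hi])
      have k3 : τ x ≠ b := fun k => h1 (by rw [← hinv x, k, hτb])
      have k4 : τ x ≠ j := fun k => h4 (by rw [← hinv x, k, hj])
      rw [hσx x h1 h2 h3 h4, hσx _ k1 k2 k3 k4, hinv]
    · intro x hx
      by_cases h1 : x = a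
      · rw [h1, hσa]
        exact hai
      by_cases h2 : x = i
      · rw [h2, hσi, hu.symm]
        exact hai
      by_cases h3 : x = b
      · rw [h3, hσb]
        exact hbj
      by_cases h4 : x = j
      · rw [h4, hσj, hu.symm]
        exact hbj
      rw [hσx x h1 h2 h3 h4] at hx ⊢
      exact h.pm.pos x hx
  have hle := h.max σ hPM
  have hlt : (nfx τ).card < (nfx σ).card := by
    apply Finset.card_lt_card
    rw [Finset.ssubset_iff_of_subset]
    · refine ⟨i, ?_, ?_⟩
      · simp only [nfx, Finset.mem_filter, Finset.mem_univ, true_and, hσi]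
        exact h_ai
      · simp only [nfx, Finset.mem_filter, Finset.mem_univ, true_and, hi]
        simp
    · intro x hx
      simp only [nfx, Finset.mem_filter, Finset.mem_univ, true_and] at hx ⊢
      have h2 : x ≠ i := fun h2 => hx (by rw [h2, hi])
      have h4 : x ≠ j := fun h4 => hx (by rw [h4, hj])
      by_cases h1 : x = a
      · rw [h1, hσa]
        exact h_ai.symm
      by_cases h3 : x = b
      · rw [h3, hσb]
        exact h_bj.symm
      rw [hσx x h1 h2 h3 h4]
      exact hx
  omega

end Pool.Agent.MXC
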