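import Pool.Agent.MXC.NumDefs

/-!
# [MXC-NUM1]  The numerical lemma, large `n`

Here `W = C(n,2) + r`, `τ` is an upper bound for `T r`, `k = n - N`, `y = W - C(N,2) =
r + k N + k (k - 1) / 2`.
-/

namespace Pool.Agent.MXC

open Finset Pool.Agent.MP_710317_co.Rec

/-- `N ≤ n` as `C(N,2) ≤ W < C(n+1,2)`.  `N ≥ 1`: if `N = 0` then `qf N = 0`, `y ≤ 0`, but `y = W ≥ 1`.
`k ≤ t`: `k N ≤ y ≤ t qf N ≤ t N`.  `t + 3 ≤ 2 τ`: `T W ≤ n / 2 + T r` (`T_step`), so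
`t ≤ n / 2 + τ - 2 - N / 2`, `2 t ≤ k + 2 τ - 3` (`2 (n / 2) ≤ n`, `2 (N / 2) ≥ N - 1`), and `k ≤ t`. -/
theorem num0 (W n r N τ : ℕ) (t : ℤ) (hW : 1 ≤ W) (hr : r < n) (hWn : W = n.choose 2 + r)
    (hτ : T r ≤ (τ : ℤ)) (ht : t ≤ T W - 2 - ((N / 2 : ℕ) : ℤ)) (ht0 : 0 ≤ t)
    (hN : N.choose 2 ≤ W) (hy : (W : ℤ) - ((N.choose 2 : ℕ) : ℤ) ≤ t * qf N) :
    N ≤ n ∧ 1 ≤ N ∧ (n : ℤ) - N ≤ t ∧ t + 3 ≤ 2 * τ := by
  have hNn : N ≤ n := by
    by_contra hc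
    have h1 : (n + 1).choose 2 ≤ N.choose 2 := Nat.choose_le_choose 2 (by omega)
    have h2 : (n + 1).choose 2 = n + n.choose 2 := by
      rw [Nat.choose_succ_succ' n 1, Nat.choose_one_right]
    omega
  have hN1 : 1 ≤ N := by
    by_contra hc
    have h0 : N = 0 := by omega
    subst h0
    have h1 : qf 0 = 0 := by decide
    rw [h1] at hy
    simp at hy
    omega
  have hq : (qf N : ℤ) ≤ N := by
    have : qf N ≤ N := by
      unfold qf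
      split_ifs <;> omega
    exact_mod_cast this
  have hk : (n : ℤ) - N ≤ t := by
    by_contra hc
    push Not at hc
    obtain ⟨k, rfl⟩ := Nat.exists_eq_add_of_le hNn
    have h1 : (N + k).choose 2 = N.choose 2 + N * k + k.choose 2 := by
      clear * -
      induction k with
      | zero => simp
      | succ k ih =>
        rw [← Nat.add_assoc, Nat.choose_succ_succ' (N + k) 1, Nat.choose_one_right,
          Nat.choose_succ_succ' k 1, Nat.choose_one_right, ih]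
        ring
    have h2 : (W : ℤ) = ((N.choose 2 : ℕ) : ℤ) + N * k + ((k.choose 2 : ℕ) : ℤ) + r := by
      rw [hWn, h1]
      push_cast
      ring
    push_cast at hc
    have h3 : t + 1 ≤ (k : ℤ) := by linarith
    have h4 : (N : ℤ) * (t + 1) ≤ N * k := mul_le_mul_of_nonneg_left h3 (by positivity)
    have h5 : t * qf N ≤ t * N := mul_le_mul_of_nonneg_left hq ht0
    have h6 : (0 : ℤ) ≤ ((k.choose 2 : ℕ) : ℤ) := by positivity
    have h7 : (1 : ℤ) ≤ N := by exact_mod_cast hN1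
    have h8 : (0 : ℤ) ≤ r := by positivity
    nlinarith
  refine ⟨hNn, hN1, hk, ?_⟩
  have h1 := T_step n (W : ℤ)
  have h2 : (W : ℤ) - ((n.choose 2 : ℕ) : ℤ) = r := by
    rw [hWn]
    push_cast
    ring
  rw [h2] at h1
  have h3 : 2 * ((n / 2 : ℕ) : ℤ) ≤ n := by omega
  have h4 : (N : ℤ) - 1 ≤ 2 * ((N / 2 : ℕ) : ℤ) := by omega
  linarith

/-- `num0`; `N = n - k ≥ 14 τ - 22 - t ≥ 7 (t + 3) - 22 - t = 6 t - 1`, i.e. `6 t ≤ N + 1`.
* `t ≥ 1`: `3 t + 1 ≤ 6 t - 2 ≤ N - 1`.  `t = 0`: `N ≥ 1`.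
* `s' + 2 σ ≤ s' + 2 (3 t - 2 s') = 6 t - 3 s' ≤ N + 1`: the first alternative of `NumC` always holds. -/
theorem num1 (W n r N τ : ℕ) (t : ℤ) (hW : 1 ≤ W) (hr : r < n) (hWn : W = n.choose 2 + r)
    (hτ : T r ≤ (τ : ℤ)) (hn : 14 * τ ≤ n + 22) (ht : t ≤ T W - 2 - ((N / 2 : ℕ) : ℤ)) (ht0 : 0 ≤ t)
    (hN : N.choose 2 ≤ W) (hy : (W : ℤ) - ((N.choose 2 : ℕ) : ℤ) ≤ t * qf N) : NumC W N t := by
  obtain ⟨h1, h2, h3, h4⟩ := num0 W n r N τ t hW hr hWn hτ ht ht0 hN hy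
  have h5 : (14 : ℤ) * τ ≤ n + 22 := by exact_mod_cast hn
  have h6 : 6 * t ≤ (N : ℤ) + 1 := by linarith
  have h7 : (1 : ℤ) ≤ N := by exact_mod_cast h2
  refine ⟨?_, fun s' σ h8 h9 => Or.inl ?_⟩
  · rcases ht0.eq_or_lt with h0 | h0
    · rw [← h0]
      linarith
    · have : (1 : ℤ) ≤ t := h0
      linarith
  · have h10 : (0 : ℤ) ≤ s' := by positivity
    have h11 : ((s' : ℤ) + 2 * σ) ≤ N + 1 := by linarith
    exact_mod_cast h11

end Pool.Agent.MXC
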