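import Pool.Agent.MXC.Tab
import Pool.Agent.MXC.Defs

namespace Pool.Agent.MXC

/-- `force n f = f n`; makes the kernel evaluate `n` first -/
def force (n : ℕ) (f : ℕ → Bool) : Bool :=
  match n with
  | 0 => f 0
  | k + 1 => f (Nat.succ k)

theorem force_eq (n : ℕ) (f : ℕ → Bool) : force n f = f n := by
  cases n <;> rfl

/-- the exceptional cases -/
def excB (W N t s' σ : ℕ) : Bool :=
  (Nat.beq W 74 && Nat.beq N 11 && Nat.beq t 3 &&
    ((Nat.beq s' 0 && (Nat.beq σ 8 || Nat.beq σ 9)) ||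
      (Nat.beq s' 1 && (Nat.beq σ 6 || Nat.beq σ 7)))) ||
  (Nat.beq W 813 && Nat.beq N 37 && Nat.beq t 7 &&
    ((Nat.beq s' 0 && Nat.beq σ 21) || (Nat.beq s' 1 && Nat.beq σ 19)))

/-- `NumC` for natural numbers -/
def numcB (W N t : ℕ) : Bool :=
  Nat.ble (Nat.add (Nat.mul 3 t) 1) N && chk (fun s' =>
    force (Nat.sub (Nat.add (Nat.mul 3 t) 1) (Nat.mul 2 s')) fun M =>
    chk (fun σ =>
      Nat.ble (Nat.add s' (Nat.mul 2 σ)) (Nat.add N 1) ||
      (Nat.beq s' 0 && Nat.ble (Nat.mul 2 σ) (Nat.add N 3)) ||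
      Nat.ble (s' * (N - σ) + t * qf σ + chb N + 1) W || excB W N t s' σ) M) (Nat.succ t)

/-- for the value `U` (a bound for `T W`): all `t ≤ U - 2 - N / 2`, `W = C(n,2) + r`, `N = n - k` are
excluded or fine -/
def numk (W N k U : ℕ) : Bool :=
  force (Nat.sub U (Nat.add 2 (Nat.div N 2))) fun t1 =>
    Nat.ble (Nat.succ t1) k || Nat.ble (Nat.mul 6 t1) (Nat.succ N) ||
    Nat.ble (Nat.succ (Nat.add (Nat.mul t1 N) (chb N))) W ||
    chk (fun t => Nat.ble (Nat.succ (Nat.add (Nat.mul t (qf N)) (chb N))) W ||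
       (Nat.beq W 63 && Nat.beq N 9 && Nat.beq t 3) || numcB W N t) (Nat.succ t1)

/-- the numerical check for `W = C(n,2) + r` -/
def numchk (n r : ℕ) : Bool :=
  force (tab r) fun a =>
  Nat.ble (Nat.mul 14 a) (Nat.add n 22) || 
  (force (Nat.add (chb n) r) fun W =>
   force (Nat.add (Nat.div n 2) a) fun U1 =>
   force (Nat.add (Nat.div (Nat.succ n) 2) (Nat.sub n r)) fun U2 =>
   force (Nat.add (Nat.div (Nat.pred n) 2) (tab (Nat.add r (Nat.pred n)))) fun U3 =>
   chk (fun k => force (Nat.sub n k) fun N => numk W N k U1 || numk W N k U2 || numk W N k U3)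
     (Nat.sub (Nat.mul 2 a) 2))

theorem numchk_all : chk (fun n => chk (fun r => numchk n r) n) 175 = true := by
  decide +kernel

end Pool.Agent.MXC
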