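import Pool.Agent.MXC.Num1
import Pool.Agent.MXC.Num2chk

/-!
# [MXC-NUM2]  The numerical lemma

The kernel check `numchk_all` is in `Num2chk.lean` (compiled).  `chk_all` (in `Tab.lean`) unpacks it,
`force_eq` removes `force`; `Nat.ble`, `Nat.beq`, `Nat.add`, ... are the usual operations
(`Nat.ble_eq`, `Nat.beq_eq`, `simp`), `chb B = C(B,2)` (`Nat.choose_two_right`).
-/

namespace Pool.Agent.MXC

open Finset Pool.Agent.MP_710317_co.Rec

theorem NUM2_chb (B : ℕ) : chb B = B.choose 2 := (Nat.choose_two_right B).symm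

theorem NUM2_qf_le (N : ℕ) : qf N ≤ N := by
  unfold qf
  split_ifs <;> omega

/-- Unpack the definition of `numcB` (the pairs `(s', σ)` with `s' ≤ t`, `σ ≤ 3 t - 2 s'`). -/
theorem numC_of_numcB {W N t : ℕ} (h : numcB W N t = true) : NumC W N (t : ℤ) := by
  unfold numcB at h
  simp only [force_eq, Bool.and_eq_true, Nat.ble_eq] at h
  obtain ⟨h1, h2⟩ := h
  have h1' : 3 * t + 1 ≤ N := h1
  refine ⟨by exact_mod_cast h1', ?_⟩
  intro s' σ hσ hs'
  have h3 := chk_all h2 s' (by
    show s' < t + 1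
    omega)
  have h4 := chk_all h3 σ (by
    show σ < (3 * t + 1) - 2 * s'
    omega)
  simp only [Bool.or_eq_true, Bool.and_eq_true, Nat.ble_eq, Nat.beq_eq, excB] at h4
  rcases h4 with ((h4 | h4) | h4) | h4
  · left
    exact h4
  · right; left
    exact h4
  · right; right; left
    rw [NUM2_chb] at h4
    have h5 : σ ≤ N := by omega
    zify [h5] at h4
    linarith
  · rcases h4 with ⟨⟨⟨e1, e2⟩, e3⟩, e4⟩ | ⟨⟨⟨e1, e2⟩, e3⟩, e4⟩
    · right; right; right; left
      exact ⟨e1, e2, by exact_mod_cast e3, e4⟩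
    · right; right; right; right
      exact ⟨e1, e2, by exact_mod_cast e3, e4⟩

/-- `s' + 2 σ ≤ 6 t - 3 s' ≤ N + 1`; `3 t + 1 ≤ N` (for `t = 0` by `1 ≤ N`, else `6 t - 1 ≤ N`). -/
theorem numC_of_six {W N t : ℕ} (hN : 1 ≤ N) (h : 6 * t ≤ N + 1) : NumC W N (t : ℤ) := by
  refine ⟨by omega, ?_⟩
  intro s' σ hσ hs'
  left
  omega

/-- `numk W N k U = true`, `N ≥ 1`, `k ≤ t ≤ U - 2 - N / 2` (integers), `W - C(N,2) ≤ t qf N`: with
`t1 = U - (2 + N / 2)` (so `t ≤ t1`) one of: `t1 < k` (impossible), `6 t1 ≤ N + 1` (`numC_of_six`, `6 t ≤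
N + 1`), `t1 N + C(N,2) < W` (impossible as `t qf N ≤ t1 N`), or the `chk`: for this `t` either
`t qf N + C(N,2) < W` (impossible), the exceptional case, or `numcB W N t` (`numC_of_numcB`). -/
theorem of_numk {W N k U t : ℕ} (hN : 1 ≤ N) (h : numk W N k U = true) (hk : k ≤ t)
    (ht : (t : ℤ) ≤ (U : ℤ) - 2 - ((N / 2 : ℕ) : ℤ))
    (hy : (W : ℤ) - ((N.choose 2 : ℕ) : ℤ) ≤ (t : ℤ) * qf N) :
    (W = 63 ∧ N = 9 ∧ t = 3) ∨ NumC W N (t : ℤ) := by
  unfold numk at h
  simp only [force_eq, Bool.or_eq_true, Nat.ble_eq] at h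
  obtain ⟨t1, ht1⟩ : ∃ t1, t1 = U - (2 + N / 2) := ⟨_, rfl⟩
  have e1 : Nat.sub U (Nat.add 2 (Nat.div N 2)) = t1 := ht1.symm
  rw [e1] at h
  have htt : t ≤ t1 := by omega
  have hy' : W ≤ t * qf N + N.choose 2 := by
    have : (W : ℤ) ≤ (t * qf N + N.choose 2 : ℕ) := by
      push_cast
      linarith
    exact_mod_cast this
  have hq := NUM2_qf_le N
  rcases h with ((h | h) | h) | h
  · exfalso
    have h' : t1 + 1 ≤ k := h
    omega
  · right
    have h' : 6 * t1 ≤ N + 1 := h
    exact numC_of_six hN (by omega)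
  · exfalso
    rw [NUM2_chb] at h
    have h' : t1 * N + N.choose 2 + 1 ≤ W := h
    have h2 : t * qf N ≤ t1 * N := Nat.mul_le_mul htt hq
    omega
  · have h3 := chk_all h t (by
      show t < t1 + 1
      omega)
    simp only [Bool.or_eq_true, Bool.and_eq_true, Nat.ble_eq, Nat.beq_eq] at h3
    rcases h3 with (h3 | h3) | h3
    · exfalso
      rw [NUM2_chb] at h3
      have h' : t * qf N + N.choose 2 + 1 ≤ W := h3
      omega
    · left
      exact ⟨h3.1.1, h3.1.2, h3.2⟩
    · right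
      exact numC_of_numcB h3

/-- Let `n` be largest with `C(n,2) ≤ W`, `r = W - C(n,2) < n` (see `qnum2` in
`Pool.Agent.MP_710317_co.Rec.QId2` for this step).
* `n ≥ 175`: `τ = (T r).toNat`, `τ ^ 2 ≤ r + 26 ≤ n + 25` (`T_sq`), so `14 τ ≤ n + 22`: for `n ≥ 177`
  because `196 (n + 25) ≤ (n + 22) ^ 2`, for `n = 175, 176` because `τ ^ 2 ≤ 201` gives `τ ≤ 14`.  `num1`.
* `n < 175`: `a = tab r ≥ T r` (`T_le_tab`).  If `14 a ≤ n + 22`: `num1` with `τ = a`.  Otherwise
  `numchk n r` (`numchk_all`) gives for every `k < 2 a - 2` one of the three `numk W (n - k) k U`, with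
  `U1 = n / 2 + a`, `U2 = (n + 1) / 2 + (n - r)`, `U3 = (n - 1) / 2 + tab (r + (n - 1))`, and
  `T W ≤ U1, U2, U3` (`T_step` with `B = n`, `n + 1`, `n - 1`: `W - C(n,2) = r`,
  `W - C(n+1,2) = -(n - r)` with `T_nonpos`, `W - C(n-1,2) = r + n - 1`; `T_le_tab`, `r + n - 1 < 2400`).
  `num0` gives `N ≤ n`, `1 ≤ N`, `k = n - N ≤ t`, `t + 3 ≤ 2 a`, so `k < 2 a - 2`; `of_numk`. -/
theorem num (W N : ℕ) (t : ℤ) (hW : 1 ≤ W) (ht : t ≤ T W - 2 - ((N / 2 : ℕ) : ℤ)) (ht0 : 0 ≤ t)
    (hN : N.choose 2 ≤ W) (hy : (W : ℤ) - ((N.choose 2 : ℕ) : ℤ) ≤ t * qf N) :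
    (W = 63 ∧ N = 9 ∧ t = 3) ∨ NumC W N t := by
  obtain ⟨n, r, hr, hWn⟩ : ∃ n r : ℕ, r < n ∧ W = n.choose 2 + r := by
    have hex : ∃ n : ℕ, W < (n + 1).choose 2 := by
      refine ⟨W + 1, ?_⟩
      have h3 : (W + 1 + 1).choose 2 = (W + 1).choose 1 + (W + 1).choose 2 := rfl
      rw [h3, Nat.choose_one_right]
      omega
    classical
    set n := Nat.find hex with hn
    have h1 : W < (n + 1).choose 2 := Nat.find_spec hex
    have h2 : n.choose 2 ≤ W := by
      rcases Nat.eq_zero_or_pos n with h0 | h0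
      · rw [h0]; simp
      · have := Nat.find_min hex (m := n - 1) (by omega)
        rw [not_lt] at this
        rwa [Nat.sub_add_cancel h0] at this
    have h3 : (n + 1).choose 2 = n.choose 1 + n.choose 2 := rfl
    rw [Nat.choose_one_right] at h3
    exact ⟨n, W - n.choose 2, by omega, by omega⟩
  rcases le_or_gt 175 n with hn | hn
  · -- large `n`
    right
    have h0 := T_nonneg (r : ℤ)
    obtain ⟨τ, hτ⟩ : ∃ τ : ℕ, (τ : ℤ) = T (r : ℤ) := ⟨(T r).toNat, Int.toNat_of_nonneg h0⟩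
    have h1 := T_sq r
    rw [← hτ] at h1
    have h2 : 14 * τ ≤ n + 22 := by
      by_contra hcon
      push Not at hcon
      have h3 : ((n : ℤ) + 23) ≤ 14 * τ := by
        have : n + 23 ≤ 14 * τ := hcon
        exact_mod_cast this
      have h4 : (r : ℤ) + 1 ≤ n := by exact_mod_cast hr
      have h5 : (175 : ℤ) ≤ n := by exact_mod_cast hn
      nlinarith
    exact num1 W n r N τ t hW hr hWn (le_of_eq hτ.symm) h2 ht ht0 hN hy
  · have ha : T (r : ℤ) ≤ (tab r : ℤ) := T_le_tab r (by omega)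
    rcases le_or_gt (14 * tab r) (n + 22) with hsm | hbig
    · right
      exact num1 W n r N (tab r) t hW hr hWn ha hsm ht ht0 hN hy
    · obtain ⟨hNn, hN1, hk1, hk2⟩ := num0 W n r N (tab r) t hW hr hWn ha ht ht0 hN hy
      obtain ⟨t', rfl⟩ : ∃ t' : ℕ, t = (t' : ℤ) := ⟨t.toNat, (Int.toNat_of_nonneg ht0).symm⟩
      have hc : numchk n r = true := chk_all (chk_all numchk_all n hn) r hr
      unfold numchk at hc
      simp only [force_eq, Bool.or_eq_true, Nat.ble_eq] at hc
      rcases hc with hc | hc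
      · exfalso
        have hc' : 14 * tab r ≤ n + 22 := hc
        omega
      · have hc1 := chk_all hc (n - N) (by
          show n - N < 2 * tab r - 2
          omega)
        simp only [Bool.or_eq_true] at hc1
        have eN : Nat.sub n (n - N) = N := by
          show n - (n - N) = N
          omega
        have eW : Nat.add (chb n) r = W := by
          rw [NUM2_chb]
          exact hWn.symm
        rw [eN, eW] at hc1
        have hkt : n - N ≤ t' := by omega
        -- the three bounds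
        have u1 : T (W : ℤ) ≤ ((n / 2 : ℕ) : ℤ) + (tab r : ℤ) := by
          have h1 := T_step n (W : ℤ)
          have h2 : (W : ℤ) - ((n.choose 2 : ℕ) : ℤ) = (r : ℤ) := by
            rw [hWn]
            push_cast
            ring
          rw [h2] at h1
          linarith
        have hn1 : (n + 1).choose 2 = n + n.choose 2 := by
          have h3 : (n + 1).choose 2 = n.choose 1 + n.choose 2 := rfl
          rw [Nat.choose_one_right] at h3
          exact h3
        have u2 : T (W : ℤ) ≤ (((n + 1) / 2 : ℕ) : ℤ) + ((n : ℤ) - r) := by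
          have h1 := T_step (n + 1) (W : ℤ)
          have h2 : (W : ℤ) - (((n + 1).choose 2 : ℕ) : ℤ) = -((n : ℤ) - r) := by
            rw [hWn, hn1]
            push_cast
            ring
          have h5 : (r : ℤ) < n := by exact_mod_cast hr
          have h6 : T (-((n : ℤ) - r)) = -(-((n : ℤ) - r)) := T_nonpos (by linarith)
          rw [h2, h6, neg_neg] at h1
          exact h1
        have u3 : T (W : ℤ) ≤ (((n - 1) / 2 : ℕ) : ℤ) + (tab (r + (n - 1)) : ℤ) := by
          have h1 := T_step (n - 1) (W : ℤ)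
          have hn2 : n.choose 2 = (n - 1) + (n - 1).choose 2 := by
            obtain ⟨m, rfl⟩ : ∃ m, n = m + 1 := ⟨n - 1, by omega⟩
            have h3 : (m + 1).choose 2 = m.choose 1 + m.choose 2 := rfl
            rw [Nat.choose_one_right] at h3
            exact h3
          have h2 : (W : ℤ) - (((n - 1).choose 2 : ℕ) : ℤ) = ((r + (n - 1) : ℕ) : ℤ) := by
            rw [hWn, hn2]
            push_cast
            ring
          rw [h2] at h1
          have h4 := T_le_tab (r + (n - 1)) (by omega)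
          linarith
        rcases hc1 with (hc1 | hc1) | hc1
        · refine (of_numk hN1 hc1 hkt ?_ hy).imp (fun q => ⟨q.1, q.2.1, by exact_mod_cast q.2.2⟩) id
          have e : ((Nat.add (Nat.div n 2) (tab r) : ℕ) : ℤ) = ((n / 2 : ℕ) : ℤ) + (tab r : ℤ) := by
            show ((n / 2 + tab r : ℕ) : ℤ) = _
            push_cast
            ring
          rw [e]
          linarith
        · refine (of_numk hN1 hc1 hkt ?_ hy).imp (fun q => ⟨q.1, q.2.1, by exact_mod_cast q.2.2⟩) id
          have e : ((Nat.add (Nat.div (Nat.succ n) 2) (Nat.sub n r) : ℕ) : ℤ) =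
              (((n + 1) / 2 : ℕ) : ℤ) + ((n : ℤ) - r) := by
            show (((n + 1) / 2 + (n - r) : ℕ) : ℤ) = _
            rw [Nat.cast_add, Nat.cast_sub hr.le]
          rw [e]
          linarith
        · refine (of_numk hN1 hc1 hkt ?_ hy).imp (fun q => ⟨q.1, q.2.1, by exact_mod_cast q.2.2⟩) id
          have e : ((Nat.add (Nat.div (Nat.pred n) 2) (tab (Nat.add r (Nat.pred n))) : ℕ) : ℤ) =
              (((n - 1) / 2 : ℕ) : ℤ) + (tab (r + (n - 1)) : ℤ) := by
            show (((n - 1) / 2 + tab (r + (n - 1)) : ℕ) : ℤ) = _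
            rw [Nat.cast_add]
          rw [e]
          linarith

end Pool.Agent.MXC
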