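import Pool.Agent.MXC.TU

namespace Pool.Agent.MXC

/-- conclusion of the numerical lemma -/
def NumC (W N : ℕ) (t : ℤ) : Prop :=
  3 * t + 1 ≤ N ∧ ∀ s' σ : ℕ, (σ : ℤ) + 2 * s' ≤ 3 * t → (s' : ℤ) ≤ t →
    (s' + 2 * σ ≤ N + 1 ∨ (s' = 0 ∧ 2 * σ ≤ N + 3) ∨
      ((s' : ℤ) * (N - σ) + t * qf σ < (W : ℤ) - (N.choose 2 : ℕ)) ∨
      (W = 74 ∧ N = 11 ∧ t = 3 ∧ (s' = 0 ∧ (σ = 8 ∨ σ = 9) ∨ s' = 1 ∧ (σ = 6 ∨ σ = 7))) ∨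
      (W = 813 ∧ N = 37 ∧ t = 7 ∧ (s' = 0 ∧ σ = 21 ∨ s' = 1 ∧ σ = 19)))

end Pool.Agent.MXC
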