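import Pool.Agent.MXC.TU

/-!
# [MXC-QN]  Numbers for the formula for `Q(m)`, `m ≥ 980`
-/

namespace Pool.Agent.MXC

open Finset Pool.Agent.MP_710317_co.Rec

/-- As `qnum` in `Pool.Agent.MP_710317_co.Rec.QId1`, with `9 σ ≤ M` instead of `30 σ ≤ M`.
If `10 x ≤ 3 M`: `M² - (M - x)² - (σ + 2 x)² = x (2 M - 4 σ - 5 x) - σ²`, and
`x (2 M - 4 σ - 5 x) ≥ σ²`: the left side is concave in `x`, at `x = 1` it is `2 M - 4 σ - 5 ≥ σ²` (by `h`),
at `10 x = 3 M` it is `0.3 M (0.5 M - 4 σ) ≥ 1.35 σ²`.  Concretely: for `x ≥ 1`, `10 x ≤ 3 M`: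
if `σ = 0` clear; otherwise write `M = 9 σ + p`, or use
`x (2 M - 4 σ - 5 x) - (2 M - 4 σ - 5) = (x - 1) (2 M - 4 σ - 5 x - 5)` for the `x` with
`2 M - 4 σ - 5 x - 5 ≥ 0`, and for the other `x` (then `5 x > 2 M - 4 σ - 5` and `10 x ≤ 3 M`):
`2 M - 4 σ - 5 x ≥ M / 2 - 4 σ ≥ σ / 2`, `x ≥ (2 M - 4 σ - 4) / 5 ≥ (14 σ - 4) / 5 ≥ 2 σ`
(`σ ≥ 1`), so the product is `≥ σ²`.
If `10 x > 3 M`: `2 (M - x)² ≤ 0.98 M²`. -/
theorem qnum9 (M σ x : ℤ) (hσ : 0 ≤ σ) (h : (σ + 2) ^ 2 + 1 ≤ 2 * M) (hM : 9 * σ ≤ M)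
    (hx : 1 ≤ x) (hxM : x ≤ M) :
    (M - x) ^ 2 + (σ + 2 * x) ^ 2 ≤ M ^ 2 ∨ 2 * (M - x) ^ 2 ≤ M ^ 2 := by
  rcases le_or_gt (10 * x) (3 * M) with h1 | h1
  · left
    have key : σ ^ 2 ≤ x * (2 * M - 4 * σ - 5 * x) := by
      rcases le_or_gt 0 (2 * M - 4 * σ - 5 * x - 5) with h2 | h2
      · have h3 : 0 ≤ (x - 1) * (2 * M - 4 * σ - 5 * x - 5) := mul_nonneg (by linarith) h2
        nlinarith [h3, h]
      · have h4 : 2 * σ ≤ x := by
          rcases eq_or_lt_of_le hσ with h0 | h0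
          · omega
          · omega
        have h5 : σ ≤ 2 * (2 * M - 4 * σ - 5 * x) := by omega
        have h6 : 2 * σ * σ ≤ x * (2 * (2 * M - 4 * σ - 5 * x)) :=
          mul_le_mul h4 h5 hσ (by linarith)
        nlinarith [h6]
    nlinarith [key]
  · right
    have h2 : 0 ≤ M - x := by linarith
    have h3 : 10 * (M - x) ≤ 7 * M := by linarith
    have h4 : (10 * (M - x)) * (10 * (M - x)) ≤ (7 * M) * (7 * M) :=
      mul_le_mul h3 h3 (by linarith) (by linarith)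
    nlinarith [h4, sq_nonneg M]

private def qnf (m : ℕ) : Bool :=
  Nat.ble (Nat.add (Nat.add (Nat.mul (Nat.add (tab (Nat.add m 980)) 2) (Nat.add (tab (Nat.add m 980)) 2)) 1)
    (tab (Nat.add m 980))) (Nat.add m 980) && Nat.ble (Nat.mul 19 (tab (Nat.add m 980))) (Nat.add m 980)

private theorem qnf_chk : chk qnf 1420 = true := by decide +kernel

private theorem qnf_all (m : ℕ) (h1 : 980 ≤ m) (h2 : m < 2400) :
    (tab m + 2) * (tab m + 2) + 1 + tab m ≤ m ∧ 19 * tab m ≤ m := by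
  have h := chk_all qnf_chk (m - 980) (by omega)
  have e : m - 980 + 980 = m := by omega
  have h' : (Nat.ble (Nat.add (Nat.add (Nat.mul (Nat.add (tab (m - 980 + 980)) 2) (Nat.add (tab (m - 980 + 980)) 2)) 1)
    (tab (m - 980 + 980))) (m - 980 + 980) && Nat.ble (Nat.mul 19 (tab (m - 980 + 980))) (m - 980 + 980)) = true := h
  rw [e, Bool.and_eq_true, Nat.ble_eq, Nat.ble_eq] at h'
  exact h'

private theorem exists_tri (m : ℕ) : ∃ n : ℕ, n.choose 2 ≤ m ∧ m < (n + 1).choose 2 := by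
  induction m with
  | zero => exact ⟨1, by simp, by simp⟩
  | succ m ih =>
    obtain ⟨n, h1, h2⟩ := ih
    rcases Nat.lt_or_ge (m + 1) ((n + 1).choose 2) with h | h
    · exact ⟨n, by omega, h⟩
    · refine ⟨n + 1, h, ?_⟩
      have e : (n + 1 + 1).choose 2 = (n + 1).choose 1 + (n + 1).choose 2 := Nat.choose_succ_succ _ _
      rw [Nat.choose_one_right] at e
      omega

/-- `980 ≤ m < 2400`: `T_le_tab` and a kernel check of `(tab m + 2) ^ 2 + 1 + tab m ≤ m` and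
`19 * tab m ≤ m` (true, checked).  `m ≥ 2400`: `n ≥ 69` largest with `C(n,2) ≤ m`, `r = m - C(n,2) < n`:
`T m ≤ n / 2 + T r`, `T r ^ 2 ≤ n + 25` (`T_sq`), `8 T r ≤ n + 9` (as `64 (n + 25) ≤ (n + 9) ^ 2` for
`n ≥ 69`: `n² - 46 n - 1519 ≥ 0`), so `8 T m ≤ 5 n + 9` and
`64 ((T m + 2) ^ 2 + 1 + T m) ≤ (5 n + 25) ^ 2 + 64 + 8 (5 n + 9) ≤ 32 n (n - 1)` for `n ≥ 69`;
`19 * 8 T m ≤ 19 (5 n + 9) ≤ 4 n (n - 1)`. -/
theorem qnum_T (m : ℕ) (hm : 980 ≤ m) :
    (T m + 2) ^ 2 + 1 ≤ m - T m ∧ 18 * T m ≤ m - T m := by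
  have hT0 := T_nonneg (m : ℤ)
  rcases Nat.lt_or_ge m 2400 with h2 | h2
  · obtain ⟨h3, h4⟩ := qnf_all m hm h2
    have h5 := T_le_tab m h2
    have h3' : ((tab m : ℤ) + 2) * ((tab m : ℤ) + 2) + 1 + (tab m : ℤ) ≤ (m : ℤ) := by exact_mod_cast h3
    have h4' : 19 * (tab m : ℤ) ≤ (m : ℤ) := by exact_mod_cast h4
    have h6 : (T m + 2) * (T m + 2) ≤ ((tab m : ℤ) + 2) * ((tab m : ℤ) + 2) :=
      mul_le_mul (by linarith) (by linarith) (by linarith) (by linarith)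
    constructor
    · nlinarith [h6]
    · linarith
  · obtain ⟨n, h3, h4⟩ := exists_tri m
    have e : (n + 1).choose 2 = n.choose 1 + n.choose 2 := Nat.choose_succ_succ _ _
    rw [Nat.choose_one_right] at e
    have e2 : n.choose 2 * 2 = n * (n - 1) := by
      rw [Nat.choose_two_right]
      exact Nat.div_mul_cancel (Nat.even_mul_pred_self n).two_dvd
    have hn : 69 ≤ n := by
      by_contra hc
      have h5 : n + 1 ≤ 69 := by omega
      have h6 : (n + 1).choose 2 ≤ (69).choose 2 := Nat.choose_le_choose 2 h5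
      have h7 : (69).choose 2 = 2346 := by decide +kernel
      omega
    have hs := T_step n (m : ℤ)
    have hr : T ((m : ℤ) - ((n.choose 2 : ℕ) : ℤ)) ^ 2 ≤ (n : ℤ) + 25 := by
      have h5 := T_sq (m - n.choose 2)
      have h6 : ((m - n.choose 2 : ℕ) : ℤ) = (m : ℤ) - ((n.choose 2 : ℕ) : ℤ) := by
        push_cast [h3]; ring
      rw [h6] at h5
      have h7 : (m : ℤ) - ((n.choose 2 : ℕ) : ℤ) + 1 ≤ n := by
        have : m + 1 ≤ n + n.choose 2 := by omega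
        have h8 : (m : ℤ) + 1 ≤ n + ((n.choose 2 : ℕ) : ℤ) := by exact_mod_cast this
        linarith
      linarith
    have hr0 := T_nonneg ((m : ℤ) - ((n.choose 2 : ℕ) : ℤ))
    generalize T ((m : ℤ) - ((n.choose 2 : ℕ) : ℤ)) = a at hs hr hr0
    have hnZ : (69 : ℤ) ≤ n := by exact_mod_cast hn
    have h8 : 8 * a ≤ (n : ℤ) + 9 := by
      by_contra hc
      push Not at hc
      have : (n + 9 : ℤ) * (n + 9) < (8 * a) * (8 * a) :=
        mul_lt_mul'' hc hc (by linarith) (by linarith)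
      nlinarith [mul_nonneg (show (0:ℤ) ≤ n - 69 by linarith) (show (0:ℤ) ≤ n by linarith)]
    have hfl : ((n / 2 : ℕ) : ℤ) * 2 ≤ n := by
      have : n / 2 * 2 ≤ n := Nat.div_mul_le_self n 2
      exact_mod_cast this
    have h9 : 8 * T m ≤ 5 * (n : ℤ) + 9 := by linarith
    have h10 : (n : ℤ) * (n - 1) ≤ 2 * m := by
      have h11 : n * (n - 1) ≤ m * 2 := by rw [← e2]; exact Nat.mul_le_mul_right 2 h3
      have h12 : ((n * (n - 1) : ℕ) : ℤ) ≤ ((m * 2 : ℕ) : ℤ) := by exact_mod_cast h11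
      rw [Nat.cast_mul, Nat.cast_mul, Nat.cast_sub (by omega)] at h12
      push_cast at h12
      linarith
    have h13 : (0:ℤ) ≤ (n - 69) * n := mul_nonneg (by linarith) (by linarith)
    have h14 : (8 * T m + 16) * (8 * T m + 16) ≤ (5 * (n : ℤ) + 25) * (5 * (n : ℤ) + 25) :=
      mul_le_mul (by linarith) (by linarith) (by linarith) (by linarith)
    constructor
    · nlinarith [h14, h13, h10, h9]
    · nlinarith [h13, h10, h9]

end Pool.Agent.MXC
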