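import Pool.Agent.MXC.Num2chk

/-!
# Kernel checks for the rule of Alon and Halperin (compiled, no rows here)
-/

namespace Pool.Agent.MXC

/-- `tab m ≤ B / 2 + tab (m - C(B,2))` (resp. `B / 2 + (C(B,2) - m)`) for `2 ≤ B < 62` -/
def gechk (m : ℕ) : Bool :=
  force (tab m) fun a =>
  chk (fun i => force (chb (Nat.add i 2)) fun c =>
    match Nat.ble c m with
    | true => Nat.ble a (Nat.add (Nat.div (Nat.add i 2) 2) (tab (Nat.sub m c)))
    | false => Nat.ble a (Nat.add (Nat.div (Nat.add i 2) 2) (Nat.sub c m))) 60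

theorem gechk_all : chk (fun m => gechk m) 1400 = true := by
  decide +kernel

/-- `5 v ^ 2 ≤ 4 r + 395`, `r = C(n,2) + r'`, for one of the two upper bounds `v` of `T r` -/
def sqchk (n r' : ℕ) : Bool :=
  force (Nat.add (Nat.mul 4 (Nat.add (chb n) r')) 395) fun s =>
  force (Nat.add (Nat.div n 2) (tab r')) fun v =>
  force (Nat.add (Nat.div (Nat.succ n) 2) (Nat.sub n r')) fun v' =>
  Nat.ble (Nat.mul 5 (Nat.mul v v)) s || Nat.ble (Nat.mul 5 (Nat.mul v' v')) s

theorem sqchk_all : chk (fun i => chk (fun r' => sqchk (Nat.add 69 i) r') (Nat.add 69 i)) 16 = true := by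
  decide +kernel

theorem sqchk2_all : chk (fun r => Nat.ble (Nat.mul 5 (Nat.mul (tab r) (tab r)))
    (Nat.add (Nat.mul 4 r) 395)) 2400 = true := by
  decide +kernel

/-- the exceptional values -/
def excm (m : ℕ) : Bool := Nat.beq m 99 || Nat.beq m 1068 || Nat.beq m 2764 || Nat.beq m 4827

/-- `k = 1`, one pair `r < n` -/
def k1chk (n r : ℕ) : Bool :=
  force (Nat.add (Nat.div n 2) (tab r)) fun v =>
  force (Nat.add (Nat.div (Nat.succ n) 2) (Nat.sub n r)) fun v' =>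
  force (Nat.add (Nat.div (Nat.pred n) 2) (tab (Nat.add r (Nat.pred n)))) fun z =>
  Nat.ble v z || Nat.ble v' z ||
    (excm (Nat.add (chb n) r) && ((Nat.beq v (Nat.add z 2) && Nat.ble v v') ||
      (Nat.beq v' (Nat.add z 2) && Nat.ble v' v)))

/-- all `r < 460` and `r < n ≤ 2 a ^ 2 + a - r + 1`, `n = r + 1 + i`, `2 ≤ n` -/
theorem k1chk_all : chk (fun r => force (tab r) fun a =>
    chk (fun i => Nat.beq (Nat.add r i) 0 || k1chk (Nat.add (Nat.add r i) 1) r)
      (Nat.sub (Nat.add (Nat.mul a (Nat.succ (Nat.mul 2 a))) 1) (Nat.mul 2 r))) 460 = true := by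
  decide +kernel

/-- `0 < r + k n - k ^ 2 - k - 2 a k - 2 a ^ 2 - a` -/
def fk (n r a k : ℕ) : Bool :=
  Nat.ble (Nat.succ (k * k + k + 2 * a * k + 2 * a * a + a)) (r + k * n)

/-- one order `B`, `2 ≤ B`, `n / 2 ≤ B ≤ n - 2`; `v = min (n / 2 + a) ((n + 1) / 2 + (n - r))` -/
def k2B (W B v : ℕ) : Bool :=
  force (Nat.sub W (chb B)) fun y =>
  (Nat.ble (Nat.succ y) 1400 && Nat.ble v (Nat.add (Nat.div B 2) (tab y))) ||
  Nat.ble (Nat.succ (Nat.mul B (Nat.pred v))) W ||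
  Nat.ble (Nat.succ (Nat.pred v)) (Nat.div B 2) ||
  (force (Nat.sub (Nat.pred v) (Nat.div B 2)) fun c =>
    Nat.ble (Nat.succ (Nat.mul c (Nat.succ (Nat.mul 2 c)))) y)

def k2chk (n r : ℕ) : Bool :=
  force (tab r) fun a =>
  (Nat.ble 30 n && fk n r a 2 && fk n r a (Nat.div n 2)) ||
  (force (Nat.add (chb n) r) fun W =>
   force (Nat.add (Nat.div n 2) a) fun v =>
   force (Nat.add (Nat.div (Nat.succ n) 2) (Nat.sub n r)) fun v' =>
   chk (fun i => k2B W (Nat.add i 2) v || k2B W (Nat.add i 2) v') (Nat.sub n 3))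

theorem k2chk_all : chk (fun n => chk (fun r => k2chk n r) n) 124 = true := by
  decide +kernel

end Pool.Agent.MXC
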