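import Pool.Agent.MXC.TG

namespace Pool.Agent.MXC

/-- the two bounds for `T (C(n,2) + r)` -/
noncomputable def ru (n r : ℕ) : ℤ :=
  min (((n / 2 : ℕ) : ℤ) + T r) ((((n + 1) / 2 : ℕ) : ℤ) + ((n : ℤ) - r))

/-- the four exceptional numbers -/
def Exc (m : ℕ) : Prop := m = 99 ∨ m = 1068 ∨ m = 2764 ∨ m = 4827

instance (m : ℕ) : Decidable (Exc m) := by unfold Exc; infer_instance

end Pool.Agent.MXC
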