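import Pool.Agent.MXC.K1
import Pool.Agent.MXC.K2

/-!
# [MXC-RULE]  The rule of Alon and Halperin for all `n`
-/

namespace Pool.Agent.MXC

open Finset Pool.Agent.MP_710317_co.Rec

/-- `T_step` with `B = n` (`m - C(n,2) = r`) and `B = n + 1` (`m - C(n+1,2) = -(n - r)`, `T_nonpos`). -/
theorem T_le_ru (n r : ℕ) (hr : r < n) : T ((n.choose 2 + r : ℕ) : ℤ) ≤ ru n r := by
  refine le_min ?_ ?_
  · have h1 := T_step n ((n.choose 2 + r : ℕ) : ℤ)
    have h2 : ((n.choose 2 + r : ℕ) : ℤ) - ((n.choose 2 : ℕ) : ℤ) = (r : ℤ) := by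
      push_cast; ring
    rw [h2] at h1
    exact h1
  · have h1 := T_step (n + 1) ((n.choose 2 + r : ℕ) : ℤ)
    have h2 : ((n.choose 2 + r : ℕ) : ℤ) - (((n + 1).choose 2 : ℕ) : ℤ) = -((n : ℤ) - r) := by
      rw [Nat.choose_succ_succ' n 1, Nat.choose_one_right]
      push_cast
      ring
    have hrn : (r : ℤ) + 1 ≤ n := by exact_mod_cast hr
    have h3 : T (-((n : ℤ) - r)) = -(-((n : ℤ) - r)) := T_nonpos (by linarith)
    rw [h2, h3] at h1
    linarith

/-- `m = C(n,2) + r`.  If `m = 0` then `n = 1`, `r = 0`, both sides are `0` (`T_nonpos`).  Otherwise `T_dec`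
gives `B`.  `B ≥ n + 1`: `T m = B / 2 + (C(B,2) - m) ≥ (n + 1) / 2 + (C(n+1,2) - m) ≥ ru n r`.
`B = n`: `T m = n / 2 + T r ≥ ru n r`.  `B = n - 1`: `T m = (n - 1) / 2 + T (r + n - 1)`
(`C(n,2) = C(n-1,2) + n - 1`): `k1`.  `B ≤ n - 2`: `k2`. -/
theorem ru_le_T (n r : ℕ) (hn : 1 ≤ n) (hr : r < n) :
    ru n r ≤ T ((n.choose 2 + r : ℕ) : ℤ) ∨
    (Exc (n.choose 2 + r) ∧ ru n r ≤ T ((n.choose 2 + r : ℕ) : ℤ) + 2) := by
  have hrn : (r : ℤ) + 1 ≤ n := by exact_mod_cast hr
  by_cases hm : 1 ≤ n.choose 2 + r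
  · obtain ⟨B, hB, hT, hTB⟩ := T_dec _ hm
    by_cases h1 : n + 1 ≤ B
    · left
      refine (min_le_right _ _).trans ?_
      have h2 : (n + 1).choose 2 ≤ B.choose 2 := K2_mono h1
      have h3 : (((n + 1).choose 2 : ℕ) : ℤ) = n + ((n.choose 2 : ℕ) : ℤ) := by
        rw [Nat.choose_succ_succ' n 1, Nat.choose_one_right]
        push_cast
        ring
      have h4 : (((n + 1).choose 2 : ℕ) : ℤ) ≤ ((B.choose 2 : ℕ) : ℤ) := by exact_mod_cast h2
      rw [h3] at h4
      have h5 : (((n + 1) / 2 : ℕ) : ℤ) ≤ ((B / 2 : ℕ) : ℤ) := by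
        have : (n + 1) / 2 ≤ B / 2 := Nat.div_le_div_right h1
        exact_mod_cast this
      have h6 : ((n.choose 2 + r : ℕ) : ℤ) = ((n.choose 2 : ℕ) : ℤ) + r := by push_cast; ring
      rw [hT, h6, T_nonpos (by linarith)]
      linarith
    · by_cases h2 : B = n
      · left
        refine (min_le_left _ _).trans (le_of_eq ?_)
        rw [hT, h2]
        congr 2
        push_cast
        ring
      · by_cases h3 : B = n - 1
        · have hn2 : 2 ≤ n := by omega
          have h4 : ((n.choose 2 + r : ℕ) : ℤ) - ((B.choose 2 : ℕ) : ℤ) = ((r + (n - 1) : ℕ) : ℤ) := by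
            obtain ⟨n', rfl⟩ : ∃ n', n = n' + 1 := ⟨n - 1, by omega⟩
            rw [h3, Nat.add_sub_cancel, Nat.choose_succ_succ' n' 1, Nat.choose_one_right]
            push_cast
            ring
          rw [h4, h3] at hT
          rcases k1 n r hn2 hr with h5 | ⟨h5, h6⟩
          · left
            rw [hT]
            exact h5
          · right
            refine ⟨h5, ?_⟩
            rw [hT]
            exact le_of_eq h6
        · left
          exact k2 n r B hr hB (by omega) hT hTB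
  · left
    have h0 : n.choose 2 + r = 0 := by omega
    have hr0 : r = 0 := by omega
    have hn1 : n = 1 := by
      have h1 : n.choose 2 = 0 := by omega
      have h2 : n < 2 := by
        by_contra hcon
        push Not at hcon
        have := K2_mono hcon
        rw [h1] at this
        exact absurd this (by decide)
      omega
    refine (min_le_left _ _).trans ?_
    rw [h0, hr0, hn1]
    simp

/-- `T_step` with `B = n - 1` and the table (`T_eq_tab` or `T_le_tab`, `decide +kernel` for `tab`):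
`99 = C(14,2) + 8`: `6 + T 21 = 9 = ru - 2`; `1068 = C(46,2) + 33`; `2764 = C(74,2) + 63`;
`4827 = C(98,2) + 74`. -/
theorem T_exc (n r : ℕ) (hr : r < n) (h : Exc (n.choose 2 + r)) :
    T ((n.choose 2 + r : ℕ) : ℤ) + 2 ≤ ru n r := by
  have hrn : (r : ℤ) + 1 ≤ n := by exact_mod_cast hr
  have huniq : ∀ n' r' : ℕ, r' < n' → n'.choose 2 + r' = n.choose 2 + r → n' = n ∧ r' = r := by
    intro n' r' hr' h0
    have h1 : n' = n := by
      rcases lt_trichotomy n' n with h1 | h1 | h1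
      · have h2 := K2_mono (show n' + 1 ≤ n from h1)
        rw [Nat.choose_succ_succ' n' 1, Nat.choose_one_right] at h2
        have : (1 + 1) = 2 := rfl
        rw [this] at h2
        omega
      · exact h1
      · have h2 := K2_mono (show n + 1 ≤ n' from h1)
        rw [Nat.choose_succ_succ' n 1, Nat.choose_one_right] at h2
        have : (1 + 1) = 2 := rfl
        rw [this] at h2
        omega
    subst h1
    exact ⟨rfl, by omega⟩
  have main : ∀ (n' r' u z : ℕ), r' < n' → n'.choose 2 + r' = n.choose 2 + r → 1 ≤ n' →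
      r' < 1400 → r' + (n' - 1) < 1400 → tab r' = u → tab (r' + (n' - 1)) = z →
      ((n' - 1) / 2 + z + 2 ≤ n' / 2 + u) → ((n' - 1) / 2 + z + 2 ≤ (n' + 1) / 2 + (n' - r')) →
      T ((n.choose 2 + r : ℕ) : ℤ) + 2 ≤ ru n r := by
    intro n' r' u z hr' h0 hn' h1 h2 hu hz h3 h4
    obtain ⟨hh1, hh2⟩ := huniq n' r' hr' h0
    subst hh1
    subst hh2
    have h5 := T_step (n' - 1) ((n'.choose 2 + r' : ℕ) : ℤ)
    have h6 : ((n'.choose 2 + r' : ℕ) : ℤ) - (((n' - 1).choose 2 : ℕ) : ℤ) = ((r' + (n' - 1) : ℕ) : ℤ) := by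
      obtain ⟨m, rfl⟩ : ∃ m, n' = m + 1 := ⟨n' - 1, by omega⟩
      rw [Nat.add_sub_cancel, Nat.choose_succ_succ' m 1, Nat.choose_one_right]
      push_cast
      ring
    rw [h6, T_eq_tab _ h2, hz] at h5
    have h7 : (((n' - 1) / 2 : ℕ) : ℤ) + (z : ℤ) + 2 ≤ ((n' / 2 : ℕ) : ℤ) + u := by exact_mod_cast h3
    have h8 : (((n' - 1) / 2 : ℕ) : ℤ) + (z : ℤ) + 2 ≤ (((n' + 1) / 2 : ℕ) : ℤ) + ((n' : ℤ) - r') := by
      have h9 : (((n' - 1) / 2 + z + 2 : ℕ) : ℤ) ≤ (((n' + 1) / 2 + (n' - r') : ℕ) : ℤ) := by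
        exact_mod_cast h4
      rw [Nat.cast_add ((n' + 1) / 2), Nat.cast_sub hr'.le] at h9
      push_cast at h9 ⊢
      linarith
    refine le_min ?_ ?_
    · rw [T_eq_tab _ h1, hu]
      linarith
    · linarith
  rcases h with h | h | h | h
  · exact main 14 8 _ _ (by norm_num) (by rw [h]; decide) (by norm_num) (by norm_num) (by norm_num)
      rfl rfl (by decide +kernel) (by decide +kernel)
  · exact main 46 33 _ _ (by norm_num) (by rw [h]; decide) (by norm_num) (by norm_num) (by norm_num)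
      rfl rfl (by decide +kernel) (by decide +kernel)
  · exact main 74 63 _ _ (by norm_num) (by rw [h]; decide) (by norm_num) (by norm_num) (by norm_num)
      rfl rfl (by decide +kernel) (by decide +kernel)
  · exact main 98 74 _ _ (by norm_num) (by rw [h]; decide) (by norm_num) (by norm_num) (by norm_num)
      rfl rfl (by decide +kernel) (by decide +kernel)

/-- From the previous three theorems.  Translate: `T m = 2 mc m - m`, `2 (n ^ 2 / 4) = C(n,2) + n / 2`
(`two_sq`), `n / 2 + (n + 1) / 2 = n`, so `m + n / 2 + T r = 2 (n ^ 2 / 4 + mc r)` and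
`m + (n + 1) / 2 + (n - r) = 2 (n ^ 2 / 4 + (n + 1) / 2)`. -/
theorem mc_rule (n r : ℕ) (hn : 1 ≤ n) (hr : r < n) :
    mc (n.choose 2 + r) + (if Exc (n.choose 2 + r) then 1 else 0) =
      n ^ 2 / 4 + min ((n + 1) / 2) (mc r) := by
  have hTm : ∀ m : ℕ, T (m : ℤ) = 2 * (mc m : ℤ) - m := by
    intro m
    unfold T
    rw [Int.toNat_natCast]
  have hs := two_sq n
  have hsz : 2 * ((n ^ 2 / 4 : ℕ) : ℤ) = ((n.choose 2 : ℕ) : ℤ) + ((n / 2 : ℕ) : ℤ) := by
    exact_mod_cast hs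
  have hhz : ((n / 2 : ℕ) : ℤ) + (((n + 1) / 2 : ℕ) : ℤ) = n := by
    have : n / 2 + (n + 1) / 2 = n := by omega
    exact_mod_cast this
  have h1 := T_le_ru n r hr
  have h2 := ru_le_T n r hn hr
  have h3 := T_exc n r hr
  have hru : ru n r + ((n.choose 2 + r : ℕ) : ℤ) =
      2 * (((n ^ 2 / 4 : ℕ) : ℤ) + ((min ((n + 1) / 2) (mc r) : ℕ) : ℤ)) := by
    unfold ru
    rw [Nat.cast_min, ← min_add_add_right]
    have e1 : ((n / 2 : ℕ) : ℤ) + T (r : ℤ) + ((n.choose 2 + r : ℕ) : ℤ) =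
        2 * ((n ^ 2 / 4 : ℕ) : ℤ) + 2 * (mc r : ℤ) := by
      rw [hTm]
      push_cast at hsz ⊢
      linarith
    have e2 : (((n + 1) / 2 : ℕ) : ℤ) + ((n : ℤ) - r) + ((n.choose 2 + r : ℕ) : ℤ) =
        2 * ((n ^ 2 / 4 : ℕ) : ℤ) + 2 * (((n + 1) / 2 : ℕ) : ℤ) := by
      push_cast at hsz hhz ⊢
      linarith
    rw [e1, e2, min_comm, min_add_add_left, mul_add]
    congr 1
    rcases le_total (((n + 1) / 2 : ℕ) : ℤ) (mc r : ℤ) with h | h
    · rw [min_eq_left h, min_eq_left (by linarith)]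
    · rw [min_eq_right h, min_eq_right (by linarith)]
  rw [hTm] at h1 h2 h3
  by_cases hE : Exc (n.choose 2 + r)
  · rw [if_pos hE]
    have h4 := h3 hE
    have h5 : ru n r ≤ 2 * (mc (n.choose 2 + r) : ℤ) - ((n.choose 2 + r : ℕ) : ℤ) + 2 := by
      rcases h2 with h2 | h2
      · linarith
      · exact h2.2
    have h6 : 2 * ((mc (n.choose 2 + r) : ℤ) + 1) =
        2 * (((n ^ 2 / 4 : ℕ) : ℤ) + ((min ((n + 1) / 2) (mc r) : ℕ) : ℤ)) := by linarith
    have h7 : (mc (n.choose 2 + r) : ℤ) + 1 =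
        ((n ^ 2 / 4 : ℕ) : ℤ) + ((min ((n + 1) / 2) (mc r) : ℕ) : ℤ) := by linarith
    exact_mod_cast h7
  · rw [if_neg hE]
    have h5 : ru n r ≤ 2 * (mc (n.choose 2 + r) : ℤ) - ((n.choose 2 + r : ℕ) : ℤ) := by
      rcases h2 with h2 | h2
      · exact h2
      · exact absurd h2.1 hE
    have h7 : (mc (n.choose 2 + r) : ℤ) + 0 =
        ((n ^ 2 / 4 : ℕ) : ℤ) + ((min ((n + 1) / 2) (mc r) : ℕ) : ℤ) := by linarith
    exact_mod_cast h7

end Pool.Agent.MXC
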