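import Pool.Agent.MXC.Defs

/-!
# [MXC-SBX]  From the nearly balanced sign vectors to all sign vectors

`hF` : the bound holds for all sign vectors with `|∑ b x| ≤ ρ`.
-/

namespace Pool.Agent.MXC

open Finset Pool.Agent.MP_710317_co.Rec

variable {V : Type*} [Fintype V] [DecidableEq V]

private theorem SBX_upd {v : V → V → ℤ} (hv : Sym v) (x : V → ℤ) (k : V)
    (hk : x k = 1) :
    en v (Function.update x k (-1)) = en v x + 4 * ∑ j, v k j * x j := by
  have h1 : ∀ i, Function.update x k (-1) i = x i - 2 * (if i = k then 1 else 0) := by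
    intro i
    by_cases hi : i = k
    · subst hi
      rw [Function.update_self, hk]
      simp
    · rw [Function.update_of_ne hi]
      simp [hi]
  have h2 : ∑ i, ∑ j, v i j * Function.update x k (-1) i * Function.update x k (-1) j =
      ∑ i, ∑ j, v i j * x i * x j - 2 * ∑ j, v k j * x j - 2 * ∑ i, v i k * x i
        + 4 * v k k := by
    have e1 : ∀ i, ∑ j, v i j * Function.update x k (-1) i * Function.update x k (-1) j =
        ∑ j, v i j * x i * x j - 2 * ((if i = k then 1 else 0) * ∑ j, v i j * x j)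
          - 2 * (v i k * x i) + 4 * ((if i = k then 1 else 0) * v i k) := by
      intro i
      have e2 : ∀ j, v i j * Function.update x k (-1) i * Function.update x k (-1) j =
          v i j * x i * x j - 2 * ((if i = k then 1 else 0) * (v i j * x j))
            - 2 * ((if j = k then 1 else 0) * (v i j * x i))
            + 4 * ((if j = k then 1 else 0) * ((if i = k then 1 else 0) * v i j)) := by
        intro j
        rw [h1, h1]
        ring
      rw [Finset.sum_congr rfl fun j _ => e2 j]
      rw [Finset.sum_add_distrib, Finset.sum_sub_distrib, Finset.sum_sub_distrib,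
        ← Finset.mul_sum, ← Finset.mul_sum, ← Finset.mul_sum, ← Finset.mul_sum]
      simp only [ite_mul, one_mul, zero_mul, Finset.sum_ite_eq', Finset.mem_univ, if_true]
    rw [Finset.sum_congr rfl fun i _ => e1 i]
    rw [Finset.sum_add_distrib, Finset.sum_sub_distrib, Finset.sum_sub_distrib,
      ← Finset.mul_sum, ← Finset.mul_sum, ← Finset.mul_sum]
    simp only [ite_mul, one_mul, zero_mul, Finset.sum_ite_eq', Finset.mem_univ, if_true]
  have h3 : ∑ i, v i k * x i = ∑ j, v k j * x j :=
    Finset.sum_congr rfl fun i _ => by rw [hv.symm i k]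
  unfold en
  rw [h2, h3, hv.diag]
  ring

private theorem SBX_Z {x : V → ℤ} (hx : IsSign x) :
    (∀ i ∈ univ.filter (fun k => x k = 1), x i = 1) ∧
      ∀ i ∈ (univ.filter fun k => x k = 1)ᶜ, x i = -1 := by
  constructor
  · intro i hi
    exact (Finset.mem_filter.1 hi).2
  · intro i hi
    rw [Finset.mem_compl, Finset.mem_filter, not_and] at hi
    exact (hx i).resolve_left (hi (Finset.mem_univ i))

private theorem SBX_neg (v : V → V → ℤ) (x : V → ℤ) : en v (fun i => - x i) = en v x := by
  unfold en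
  congr 1
  exact Finset.sum_congr rfl fun i _ => Finset.sum_congr rfl fun j _ => by ring

private theorem SBX_negsign {x : V → ℤ} (hx : IsSign x) : IsSign (fun i => - x i) := by
  intro i
  rcases hx i with h | h
  · right
    show - x i = -1
    rw [h]
  · left
    show - x i = 1
    rw [h]
    norm_num

private theorem SBX_updsign {x : V → ℤ} (hx : IsSign x) (k : V) :
    IsSign (Function.update x k (-1)) := by
  intro i
  by_cases hi : i = k
  · subst hi
    rw [Function.update_self]
    exact Or.inr rfl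
  · rw [Function.update_of_ne hi]
    exact hx i

private theorem SBX_sum (b : V → ℤ) {x : V → ℤ} (hx : IsSign x) :
    ∑ i, b i * x i = ∑ i, b i - 2 * ∑ i ∈ (univ.filter fun k => x k = 1)ᶜ, b i := by
  obtain ⟨h1, h2⟩ := SBX_Z hx
  rw [← Finset.sum_add_sum_compl (univ.filter fun k => x k = 1),
    ← Finset.sum_add_sum_compl (univ.filter fun k => x k = 1) b]
  rw [Finset.sum_congr rfl fun i hi => by rw [h1 i hi]]
  rw [Finset.sum_congr (s₁ := (univ.filter fun k => x k = 1)ᶜ) rfl
    fun i hi => by rw [h2 i hi]]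
  simp only [mul_one, mul_neg]
  rw [Finset.sum_neg_distrib]
  ring

private theorem SBX_updsum (b : V → ℤ) {x : V → ℤ} (k : V) (hk : x k = 1) :
    ∑ i, b i * Function.update x k (-1) i = ∑ i, b i * x i - 2 * b k := by
  have h1 : ∀ i, b i * Function.update x k (-1) i =
      b i * x i - 2 * ((if i = k then 1 else 0) * b i) := by
    intro i
    by_cases hi : i = k
    · subst hi
      rw [Function.update_self, hk]
      simp
      ring
    · rw [Function.update_of_ne hi]
      simp [hi]
  rw [Finset.sum_congr rfl fun i _ => h1 i, Finset.sum_sub_distrib, ← Finset.mul_sum]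
  simp only [ite_mul, one_mul, zero_mul, Finset.sum_ite_eq', Finset.mem_univ, if_true]

private theorem SBX_const (v : V → V → ℤ) {x : V → ℤ} (h : ∀ i, x i = 1) :
    en v x = - inn v univ := by
  unfold en inn
  congr 1
  exact Finset.sum_congr rfl fun i _ => Finset.sum_congr rfl fun j _ => by
    rw [h i, h j]
    ring

/-- Flip one of the `1`s of `x` and sum.  `Z = {x = 1}`, `A = Zᶜ`.  For `k ∈ Z`:
`en v (update x k (-1)) = en v x + 4 ∑_j v k j x j` (`v k k = 0`).  `∑_{k∈Z} ∑_j v k j x j = inn v Z - crs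
v Z A`; `en v x = 4 crs v Z A - inn v univ` (`en_eq`), `inn v univ = inn v Z + inn v A + 2 crs v Z A`
(`tot_split`). -/
theorem avg1 {v : V → V → ℤ} (hv : Sym v) (x : V → ℤ) (hx : IsSign x) :
    ∑ k ∈ univ.filter (fun k => x k = 1), en v (Function.update x k (-1)) =
      (((univ.filter fun k => x k = 1).card : ℤ) - 3) * en v x + inn v univ
        - 4 * inn v (univ.filter fun k => x k = 1)ᶜ := by
  obtain ⟨h1, h2⟩ := SBX_Z hx
  set Z := univ.filter fun k => x k = 1 with hZ
  have e1 : ∑ k ∈ Z, en v (Function.update x k (-1)) =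
      (Z.card : ℤ) * en v x + 4 * (inn v Z - crs v Z Zᶜ) := by
    rw [Finset.sum_congr rfl fun k hk => SBX_upd hv x k (h1 k hk), Finset.sum_add_distrib,
      Finset.sum_const, nsmul_eq_mul, ← Finset.mul_sum]
    congr 2
    have e2 : ∀ k ∈ Z, ∑ j, v k j * x j = ∑ j ∈ Z, v k j - ∑ j ∈ Zᶜ, v k j := by
      intro k _
      rw [← Finset.sum_add_sum_compl Z, sub_eq_add_neg, ← Finset.sum_neg_distrib]
      congr 1
      · exact Finset.sum_congr rfl fun j hj => by rw [h1 j hj]; ring
      · exact Finset.sum_congr rfl fun j hj => by rw [h2 j hj]; ring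
    rw [Finset.sum_congr rfl e2, Finset.sum_sub_distrib]
    rfl
  have e3 := en_eq hv x hx
  rw [← hZ] at e3
  have e4 := tot_split hv Z
  rw [e1, e3, e4]
  ring

/-- `|∑ b x| ≤ ∑ b ≤ ρ`. -/
theorem sbA {v : V → V → ℤ} {b : V → ℤ} {ρ s' : ℤ} (hb : ∀ i, 0 ≤ b i)
    (hF : ∀ x, IsSign x → |∑ i, b i * x i| ≤ ρ → en v x ≤ 2 * s') (h : ∑ i, b i ≤ ρ) :
    Sb v s' := by
  intro x hx
  refine hF x hx (le_trans ?_ h)
  refine (Finset.abs_sum_le_sum_abs _ _).trans (Finset.sum_le_sum fun i _ => ?_)
  rw [abs_mul]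
  have h1 : |x i| = 1 := by
    rcases hx i with h | h <;> rw [h] <;> norm_num
  rw [h1, mul_one, abs_of_nonneg (hb i)]

/-- If `x` is not constant then `|∑ b x| ≤ ∑ b - 2 ≤ ρ` (one coordinate with each sign, `b ≥ 1`); if
`x` is constant then `en v x = - inn v univ`. -/
theorem sbB {v : V → V → ℤ} {b : V → ℤ} {ρ s' : ℤ} (hb : ∀ i, 1 ≤ b i)
    (hF : ∀ x, IsSign x → |∑ i, b i * x i| ≤ ρ → en v x ≤ 2 * s') (h : ∑ i, b i ≤ ρ + 2)
    (hW : - inn v univ ≤ 2 * s') : Sb v s' := by
  intro x hx
  obtain ⟨h1, h2⟩ := SBX_Z hx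
  have hs := SBX_sum b hx
  by_cases hA : (univ.filter fun k => x k = 1)ᶜ = ∅
  · have hx1 : ∀ i, x i = 1 := by
      intro i
      have h3 : i ∉ (univ.filter fun k => x k = 1)ᶜ := by rw [hA]; exact Finset.notMem_empty i
      rw [Finset.mem_compl, not_not] at h3
      exact h1 i h3
    rw [SBX_const v hx1]
    exact hW
  · by_cases hZ : (univ.filter fun k => x k = 1) = ∅
    · have hx1 : ∀ i, (fun i => - x i) i = 1 := by
        intro i
        have h3 : i ∈ (univ.filter fun k => x k = 1)ᶜ := by
          rw [hZ, Finset.compl_empty]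
          exact Finset.mem_univ i
        show - x i = 1
        rw [h2 i h3]
        norm_num
      rw [← SBX_neg, SBX_const v hx1]
      exact hW
    · refine hF x hx ?_
      obtain ⟨a, ha⟩ := Finset.nonempty_iff_ne_empty.2 hA
      obtain ⟨c, hc⟩ := Finset.nonempty_iff_ne_empty.2 hZ
      have h3 : 1 ≤ ∑ i ∈ (univ.filter fun k => x k = 1)ᶜ, b i :=
        (hb a).trans (Finset.single_le_sum (fun i _ => by linarith [hb i]) ha)
      have h4 : 1 ≤ ∑ i ∈ (univ.filter fun k => x k = 1), b i :=
        (hb c).trans (Finset.single_le_sum (fun i _ => by linarith [hb i]) hc)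
      have h5 := Finset.sum_add_sum_compl (univ.filter fun k => x k = 1) b
      rw [abs_le, hs]
      constructor <;> linarith

/-- By `en v (-x) = en v x` we may assume `0 ≤ ∑ b x`.  If `∑ b x ≤ ρ` use `hF`.  Otherwise let
`A = {x = -1}`; `∑ b x = ∑ b - 2 ∑_A b > ρ ≥ ∑ b - 4`, so `∑_A b ≤ 1`: `A = ∅` (then
`en v x = - inn v univ`, `hW`) or `A = {i}` with `b i = 1`.  In this case all flips `update x k (-1)`,
`k ≠ i`, have `∑ b x' = ∑ b - 2 - 2 b k`, between `-ρ` and `ρ` (`h2`, `b k ≥ 1`), so `avg1` (with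
`inn v A = 0`) gives `(|V| - 4) en v x + inn v univ ≤ (|V| - 1) 2 s'`, and with `h3`
`(|V| - 4) en v x ≤ (|V| - 4) 2 s'`. -/
theorem sbC {v : V → V → ℤ} (hv : Sym v) {b : V → ℤ} {ρ s' : ℤ} (hb : ∀ i, 1 ≤ b i)
    (hF : ∀ x, IsSign x → |∑ i, b i * x i| ≤ ρ → en v x ≤ 2 * s') (hn : 5 ≤ Fintype.card V)
    (h1 : ∑ i, b i ≤ ρ + 4) (h2 : ∀ k, 2 * b k + 2 ≤ ∑ i, b i + ρ)
    (h3 : 6 * s' ≤ inn v univ) (hs : 0 ≤ s') : Sb v s' := by
  have main : ∀ x, IsSign x → 0 ≤ ∑ i, b i * x i → en v x ≤ 2 * s' := by
    intro x hx h0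
    obtain ⟨hx1, hx2⟩ := SBX_Z hx
    have hsx := SBX_sum b hx
    have hcard := Finset.card_add_card_compl (univ.filter fun k => x k = 1)
    have hav := avg1 hv x hx
    by_cases hle : ∑ i, b i * x i ≤ ρ
    · exact hF x hx (by rw [abs_of_nonneg h0]; exact hle)
    · rw [not_le] at hle
      have hA1 : ∑ i ∈ (univ.filter fun k => x k = 1)ᶜ, b i ≤ 1 := by linarith
      have hA2 : (((univ.filter fun k => x k = 1)ᶜ.card : ℕ) : ℤ) ≤
          ∑ i ∈ (univ.filter fun k => x k = 1)ᶜ, b i := by
        have h5 : ∑ i ∈ (univ.filter fun k => x k = 1)ᶜ, (1 : ℤ) ≤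
            ∑ i ∈ (univ.filter fun k => x k = 1)ᶜ, b i := Finset.sum_le_sum fun i _ => hb i
        simpa using h5
      have hA3 : (univ.filter fun k => x k = 1)ᶜ.card ≤ 1 := by
        have : (((univ.filter fun k => x k = 1)ᶜ.card : ℕ) : ℤ) ≤ 1 := hA2.trans hA1
        exact_mod_cast this
      rcases Nat.lt_or_ge (univ.filter fun k => x k = 1)ᶜ.card 1 with hA4 | hA4
      · have hA : (univ.filter fun k => x k = 1)ᶜ = ∅ := Finset.card_eq_zero.1 (by omega)
        have hx3 : ∀ i, x i = 1 := by
          intro i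
          have h3 : i ∉ (univ.filter fun k => x k = 1)ᶜ := by
            rw [hA]; exact Finset.notMem_empty i
          rw [Finset.mem_compl, not_not] at h3
          exact hx1 i h3
        rw [SBX_const v hx3]
        linarith
      · obtain ⟨i, hi⟩ := Finset.card_eq_one.1 (le_antisymm hA3 hA4)
        set Z := univ.filter fun k => x k = 1 with hZ
        rw [hi, Finset.sum_singleton] at hA1 hsx
        have hbi : b i = 1 := le_antisymm hA1 (hb i)
        have hin : inn v ({i} : Finset V) = 0 := by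
          simp [inn, hv.diag]
        rw [hi] at hcard
        rw [hi, hin] at hav
        rw [Finset.card_singleton] at hcard
        have hZc : (Z.card : ℤ) = (Fintype.card V : ℤ) - 1 := by
          have : Z.card + 1 = Fintype.card V := hcard
          omega
        have hup : ∑ k ∈ Z, en v (Function.update x k (-1)) ≤ (Z.card : ℤ) * (2 * s') := by
          have h6 : ∑ k ∈ Z, en v (Function.update x k (-1)) ≤ ∑ k ∈ Z, 2 * s' := by
            refine Finset.sum_le_sum fun k hk => ?_
            refine hF _ (SBX_updsign hx k) ?_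
            rw [SBX_updsum b k (hx1 k hk), hsx, hbi, abs_le]
            have := hb k
            have := h2 k
            constructor <;> linarith
          rw [Finset.sum_const, nsmul_eq_mul] at h6
          exact h6
        rw [hav, hZc] at hup
        have hn' : (5 : ℤ) ≤ Fintype.card V := by exact_mod_cast hn
        by_contra hcon
        rw [not_le] at hcon
        nlinarith
  intro x hx
  rcases le_total 0 (∑ i, b i * x i) with h | h
  · exact main x hx h
  · rw [← SBX_neg]
    refine main _ (SBX_negsign hx) ?_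
    simp only [mul_neg, Finset.sum_neg_distrib]
    linarith

/-- Here `b = 1`, `|V| = 9`, `ρ = 3`, `s' = 3`, total weight `19`.  We may assume `∑ x ≥ 0` (odd).
`∑ x ≤ 3`: `hF`.  `∑ x = 5`: `A = {x = -1}` has two elements `i, j`, the flips have `∑ x' = 3`, `avg1`:
`4 en v x + 38 - 4 * 2 * v i j ≤ 7 * 6`, so `4 en v x ≤ 28`, `en v x ≤ 7`, and `en v x` is even
(`en_eq`: `4 crs - inn`), so `≤ 6`.  `∑ x = 7`: `A = {i}`, the flips have `∑ x' = 5` (previous case),
`avg1`: `5 en v x + 38 ≤ 8 * 6`.  `∑ x = 9`: `en v x = -38`. -/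
theorem sbD {v : V → V → ℤ} (hv : Sym v) (hn : Fintype.card V = 9)
    (hF : ∀ x, IsSign x → |∑ i, x i| ≤ 3 → en v x ≤ 6) (hW : inn v univ = 38)
    (hv3 : ∀ i j, v i j ≤ 3) : Sb v 3 := by
  have hsum : ∀ x : V → ℤ, IsSign x →
      ∑ i, x i = 9 - 2 * (((univ.filter fun k => x k = 1)ᶜ.card : ℕ) : ℤ) := by
    intro x hx
    have h1 := SBX_sum (fun _ => 1) hx
    simp only [one_mul, Finset.sum_const, Finset.card_univ, nsmul_eq_mul, mul_one, hn] at h1
    exact_mod_cast h1
  have hus : ∀ x : V → ℤ, ∀ k, x k = 1 →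
      ∑ i, Function.update x k (-1) i = ∑ i, x i - 2 := by
    intro x k hk
    have h1 := SBX_updsum (fun _ => 1) (x := x) k hk
    simpa using h1
  have key5 : ∀ x, IsSign x → ∑ i, x i = 5 → en v x ≤ 6 := by
    intro x hx h5
    obtain ⟨hx1, hx2⟩ := SBX_Z hx
    have hs := hsum x hx
    have hcard := Finset.card_add_card_compl (univ.filter fun k => x k = 1)
    have hav := avg1 hv x hx
    have hev := en_eq hv x hx
    set Z := univ.filter fun k => x k = 1 with hZ
    have hc2 : Zᶜ.card = 2 := by omega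
    have hZ7 : (Z.card : ℤ) = 7 := by
      have : Z.card + Zᶜ.card = Fintype.card V := hcard
      omega
    obtain ⟨i, j, hij, hA⟩ := Finset.card_eq_two.1 hc2
    have hin : inn v Zᶜ ≤ 6 := by
      rw [hA]
      unfold inn
      rw [Finset.sum_pair hij, Finset.sum_pair hij, Finset.sum_pair hij, hv.diag, hv.diag]
      have := hv3 i j
      have := hv3 j i
      linarith
    have hup : ∑ k ∈ Z, en v (Function.update x k (-1)) ≤ (Z.card : ℤ) * 6 := by
      have h6 : ∑ k ∈ Z, en v (Function.update x k (-1)) ≤ ∑ k ∈ Z, 6 := by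
        refine Finset.sum_le_sum fun k hk => ?_
        refine hF _ (SBX_updsign hx k) ?_
        rw [hus x k (hx1 k hk), h5]
        norm_num
      rw [Finset.sum_const, nsmul_eq_mul] at h6
      exact h6
    rw [hav, hZ7, hW] at hup
    rw [hW] at hev
    omega
  have key7 : ∀ x, IsSign x → ∑ i, x i = 7 → en v x ≤ 6 := by
    intro x hx h5
    obtain ⟨hx1, hx2⟩ := SBX_Z hx
    have hs := hsum x hx
    have hcard := Finset.card_add_card_compl (univ.filter fun k => x k = 1)
    have hav := avg1 hv x hx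
    set Z := univ.filter fun k => x k = 1 with hZ
    have hc2 : Zᶜ.card = 1 := by omega
    have hZ7 : (Z.card : ℤ) = 8 := by
      have : Z.card + Zᶜ.card = Fintype.card V := hcard
      omega
    obtain ⟨i, hA⟩ := Finset.card_eq_one.1 hc2
    have hin : inn v Zᶜ = 0 := by
      rw [hA]
      simp [inn, hv.diag]
    have hup : ∑ k ∈ Z, en v (Function.update x k (-1)) ≤ (Z.card : ℤ) * 6 := by
      have h6 : ∑ k ∈ Z, en v (Function.update x k (-1)) ≤ ∑ k ∈ Z, 6 := by
        refine Finset.sum_le_sum fun k hk => ?_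
        refine key5 _ (SBX_updsign hx k) ?_
        rw [hus x k (hx1 k hk), h5]
        norm_num
      rw [Finset.sum_const, nsmul_eq_mul] at h6
      exact h6
    rw [hav, hZ7, hW, hin] at hup
    omega
  have main : ∀ x, IsSign x → 0 ≤ ∑ i, x i → en v x ≤ 6 := by
    intro x hx h0
    have hs := hsum x hx
    rcases Nat.lt_or_ge (univ.filter fun k => x k = 1)ᶜ.card 3 with h3 | h3
    · interval_cases hc : (univ.filter fun k => x k = 1)ᶜ.card
      · have hA : (univ.filter fun k => x k = 1)ᶜ = ∅ := Finset.card_eq_zero.1 hc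
        have hx3 : ∀ i, x i = 1 := by
          intro i
          have h3 : i ∉ (univ.filter fun k => x k = 1)ᶜ := by
            rw [hA]; exact Finset.notMem_empty i
          rw [Finset.mem_compl, not_not, Finset.mem_filter] at h3
          exact h3.2
        rw [SBX_const v hx3, hW]
        norm_num
      · exact key7 x hx (by rw [hs]; norm_num)
      · exact key5 x hx (by rw [hs]; norm_num)
    · refine hF x hx ?_
      rw [abs_of_nonneg h0, hs]
      omega
  intro x hx
  rw [show (2 : ℤ) * 3 = 6 by norm_num]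
  rcases le_total 0 (∑ i, x i) with h | h
  · exact main x hx h
  · rw [← SBX_neg]
    refine main _ (SBX_negsign hx) ?_
    simp only [Finset.sum_neg_distrib]
    linarith

end Pool.Agent.MXC
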