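import Pool.Agent.MXC.Defs

namespace Pool.Agent.MXC

open Finset Pool.Agent.MP_710317_co.Rec

variable {V : Type*} [Fintype V] [DecidableEq V]

private theorem tight_all {w : V → V → ℤ} (hw : Sym w) (hW : inn w univ = 126)
    (hs : Sb w 7) (f : ZMod 9 ≃ V) : ∑ z, w (f z) (f (-z)) = 14 := by
  let τ : ZMod 9 → V → V := fun k x => f (k - f.symm x)
  have hτ : ∀ k x, τ k (τ k x) = x := by
    intro k x
    simp [τ]
  have h1 : ∀ k, ∑ x, w x (τ k x) ≤ 14 := fun k => by
    have := pair_bound hw hs (τ k) (hτ k)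
    linarith
  have h2 : ∑ k, ∑ x, w x (τ k x) = 126 := by
    rw [Finset.sum_comm, ← hW]
    unfold inn
    refine Finset.sum_congr rfl fun x _ => ?_
    exact Fintype.sum_equiv ((Equiv.subRight (f.symm x)).trans f) _ _ fun k => rfl
  have h3 : ∑ x, w x (τ 0 x) = ∑ z, w (f z) (f (-z)) := by
    symm
    refine Fintype.sum_equiv f _ _ fun z => ?_
    simp [τ]
  rw [← h3]
  have h4 : ∑ k ∈ (univ.erase (0 : ZMod 9)), ∑ x, w x (τ k x) ≤ 8 * 14 := by
    have h5 := Finset.sum_le_card_nsmul (univ.erase (0 : ZMod 9)) (fun k => ∑ x, w x (τ k x)) 14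
      fun k _ => h1 k
    have h6 : (univ.erase (0 : ZMod 9)).card = 8 := by decide
    rw [h6] at h5
    simpa using h5
  have h7 := Finset.add_sum_erase univ (fun k => ∑ x, w x (τ k x)) (mem_univ (0 : ZMod 9))
  have h8 := h1 0
  linarith

private theorem tight_sum (F : Fin 9 → ℤ) :
    ∑ z, F z = F 0 + F 1 + F 2 + F 3 + F 4 + F 5 + F 6 + F 7 + F 8 := by
  rw [Fin.sum_univ_castSucc, Fin.sum_univ_eight]
  rfl

private theorem tight_swap {w : V → V → ℤ} (hw : Sym w) (hW : inn w univ = 126)
    (hs : Sb w 7) (f : ZMod 9 ≃ V) : w (f 1) (f 8) = w (f 1) (f 0) := by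
  have h1 := tight_all hw hW hs f
  have h2 := tight_all hw hW hs ((Equiv.swap (0 : ZMod 9) 8).trans f)
  have e1 : ∑ z, w (f z) (f (-z)) = w (f 0) (f 0) + w (f 1) (f 8) + w (f 2) (f 7) +
      w (f 3) (f 6) + w (f 4) (f 5) + w (f 5) (f 4) + w (f 6) (f 3) + w (f 7) (f 2) +
      w (f 8) (f 1) := tight_sum (fun z : ZMod 9 => w (f z) (f (-z)))
  have e2 : ∑ z, w (((Equiv.swap (0 : ZMod 9) 8).trans f) z)
      (((Equiv.swap (0 : ZMod 9) 8).trans f) (-z)) = w (f 8) (f 8) + w (f 1) (f 0) +
      w (f 2) (f 7) + w (f 3) (f 6) + w (f 4) (f 5) + w (f 5) (f 4) + w (f 6) (f 3) +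
      w (f 7) (f 2) + w (f 0) (f 1) :=
    tight_sum (fun z : ZMod 9 => w (((Equiv.swap (0 : ZMod 9) 8).trans f) z)
      (((Equiv.swap (0 : ZMod 9) 8).trans f) (-z)))
  rw [e1] at h1
  rw [e2] at h2
  rw [hw.diag] at h1 h2
  rw [hw.symm (f 8) (f 1)] at h1
  rw [hw.symm (f 0) (f 1)] at h2
  linarith

omit [Fintype V] in
private theorem tight_setValue (f : ZMod 9 ≃ V) (x : ZMod 9) (y : V) (z : ZMod 9) (h1 : z ≠ x)
    (h2 : f z ≠ y) : (f.setValue x y) z = f z := by
  unfold Equiv.setValue
  rw [Equiv.trans_apply, Equiv.swap_apply_of_ne_of_ne h1]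
  intro h3
  exact h2 (by rw [h3, Equiv.apply_symm_apply])

private theorem tight_tri {w : V → V → ℤ} (hw : Sym w) (hn : Fintype.card V = 9)
    (hW : inn w univ = 126) (hs : Sb w 7) {a b c : V} (hab : a ≠ b) (hac : a ≠ c) (hbc : b ≠ c) :
    w a b = w a c := by
  obtain ⟨f⟩ : Nonempty (ZMod 9 ≃ V) := ⟨Fintype.equivOfCardEq (by rw [hn]; rfl)⟩
  set f1 := f.setValue 0 c with hf1
  have h1 : f1 0 = c := Equiv.setValue_eq _ _ _
  set f2 := f1.setValue 1 a with hf2
  have h2 : f2 1 = a := Equiv.setValue_eq _ _ _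
  have h3 : f2 0 = c := by
    rw [hf2, tight_setValue _ _ _ _ (by decide) (by rw [h1]; exact hac.symm), h1]
  set f3 := f2.setValue 8 b with hf3
  have h4 : f3 8 = b := Equiv.setValue_eq _ _ _
  have h5 : f3 0 = c := by
    rw [hf3, tight_setValue _ _ _ _ (by decide) (by rw [h3]; exact hbc.symm), h3]
  have h6 : f3 1 = a := by
    rw [hf3, tight_setValue _ _ _ _ (by decide) (by rw [h2]; exact hab), h2]
  have h7 := tight_swap hw hW hs f3
  rwa [h4, h5, h6] at h7

/-- [MXC-TIGHT]  Nine vertices, total weight `63`, all surpluses at most `7`: impossible.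

Proof.  For a bijection `e : V ≃ ZMod 9` and `k : ZMod 9` let `τ_{e,k} x = e.symm (k - e x)`, an
involution; `∑_k ∑_x w x (τ_{e,k} x) = inn w univ = 126 = 9 * 14`, and every inner sum is
`≤ 2 * 7 = 14` (`pair_bound`), so all are equal to `14`, in particular the one with `k = 0`:
`∑ x, w x (e.symm (- e x)) = 14` for every `e` (*).
Let `a, b, c` be different.  Choose `e` with `e c = 0`, `e a = 1`, `e b = -1` (compose some bijection
with a permutation of `ZMod 9`) and let `e' = (Equiv.swap b c).trans e` (`e' b = 0`, `e' c = -1`,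
`e' x = e x` otherwise).  In (*) for `e` the pairs are `{a, b}`, fixed point `c`, and three others; for
`e'` the pairs are `{a, c}`, fixed point `b`, and the same three others.  Subtract: `2 w a b = 2 w a c`.
So (symmetry) `w` is constant off the diagonal, `w a b = κ` for `a ≠ b`, and
`126 = inn w univ = 72 κ`, impossible. -/
theorem tight {w : V → V → ℤ} (hw : Sym w) (hn : Fintype.card V = 9) (hW : inn w univ = 126)
    (hs : Sb w 7) : False := by
  have hc : 1 < Fintype.card V := by omega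
  obtain ⟨p, q, hpq⟩ := Fintype.exists_pair_of_one_lt_card hc
  have key : ∀ a b, a ≠ b → w a b = w p q := by
    have hp : ∀ b, p ≠ b → w p b = w p q := by
      intro b hb
      by_cases hbq : b = q
      · rw [hbq]
      · exact tight_tri hw hn hW hs hb hpq hbq
    intro a b hab
    by_cases hap : a = p
    · rw [hap]
      exact hp b (by rw [← hap]; exact hab)
    · have h1 : w a b = w a p := by
        by_cases hbp : b = p
        · rw [hbp]
        · exact tight_tri hw hn hW hs hab hap hbp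
      rw [h1, hw.symm a p]
      exact hp a (Ne.symm hap)
  have h1 : ∀ i, ∑ j, w i j = 8 * w p q := by
    intro i
    rw [← Finset.add_sum_erase univ _ (mem_univ i), hw.diag, zero_add,
      Finset.sum_congr rfl (fun j hj => key i j (ne_of_mem_erase hj).symm), Finset.sum_const,
      card_erase_of_mem (mem_univ i), card_univ, hn]
    simp
  have h2 : inn w univ = 72 * w p q := by
    unfold inn
    rw [Finset.sum_congr rfl (fun i _ => h1 i), Finset.sum_const, card_univ, hn]
    simp only [nsmul_eq_mul]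
    push_cast
    ring
  rw [h2] at hW
  omega

end Pool.Agent.MXC
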