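import Pool.Agent.MXC.Str
import Pool.Agent.MXC.Edge
import Pool.Agent.MXC.Sbx
import Pool.Agent.MXC.Ext1
import Pool.Agent.MXC.Tight
import Pool.Agent.MXC.Num2

/-!
# The induction step for weights at least one
-/

namespace Pool.Agent.MXC

open Finset Pool.Agent.MP_710317_co.Rec

theorem two_choose_int (n : ℕ) : 2 * ((n.choose 2 : ℕ) : ℤ) = (n : ℤ) * (n - 1) := by
  have h : n.choose 2 * 2 = n * (n - 1) := by
    rw [Nat.choose_two_right]
    exact Nat.div_mul_cancel (Nat.even_mul_pred_self n).two_dvd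
  rcases Nat.eq_zero_or_pos n with h0 | h0
  · subst h0; simp
  · have h1 : ((n - 1 : ℕ) : ℤ) = (n : ℤ) - 1 := by omega
    have h2 : ((n.choose 2 : ℕ) : ℤ) * 2 = (n : ℤ) * ((n - 1 : ℕ) : ℤ) := by exact_mod_cast h
    rw [h1] at h2
    linarith

/-- the last step: from the rest to the whole -/
theorem ext2 (W s c : ℤ) (B : ℕ) (hc : 0 ≤ c)
    (h : T (W - ((B.choose 2 : ℕ) : ℤ) + c) ≤ s - ((B / 2 : ℕ) : ℤ) - c) : T W ≤ s := by
  have h1 := T_step B W
  have h2 := T_lip (W - ((B.choose 2 : ℕ) : ℤ)) (W - ((B.choose 2 : ℕ) : ℤ) + c)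
  have h3 : |W - ((B.choose 2 : ℕ) : ℤ) - (W - ((B.choose 2 : ℕ) : ℤ) + c)| = c := by
    have : W - ((B.choose 2 : ℕ) : ℤ) - (W - ((B.choose 2 : ℕ) : ℤ) + c) = -c := by ring
    rw [this, abs_neg, abs_of_nonneg hc]
  rw [h3] at h2
  linarith

theorem inn_u {V : Type*} [Fintype V] [DecidableEq V] {w u : V → V → ℤ} {s t : ℤ}
    (H : Hyp w u s t) :
    inn u univ = inn w univ - (Fintype.card V : ℤ) * ((Fintype.card V : ℤ) - 1) := by
  have h1 : ∀ i j, u i j = w i j - 1 + if i = j then 1 else 0 := by
    intro i j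
    by_cases hij : i = j
    · subst hij
      rw [H.usym.diag, H.sym.diag, if_pos rfl]; ring
    · rw [if_neg hij, H.wu i j hij]; ring
  unfold inn
  have h2 : ∀ i ∈ (univ : Finset V), ∑ j, u i j = ∑ j, w i j - (Fintype.card V : ℤ) + 1 := by
    intro i _
    rw [Finset.sum_congr rfl (fun j _ => h1 i j), Finset.sum_add_distrib, Finset.sum_sub_distrib,
      Finset.sum_ite_eq]
    simp
  rw [Finset.sum_congr rfl h2, Finset.sum_add_distrib, Finset.sum_sub_distrib]
  simp only [Finset.sum_const, Finset.card_univ, nsmul_eq_mul]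
  ring

theorem t_nonneg {V : Type*} [Fintype V] [DecidableEq V] {w u : V → V → ℤ} {s t : ℤ}
    (H : Hyp w u s t) : 0 ≤ t := by
  have h := mat_bound H id (fun _ => rfl)
  have h2 : ∑ x, u x (id x) = 0 := Finset.sum_eq_zero fun x _ => H.usym.diag x
  rw [h2] at h
  linarith

theorem u_le_t {V : Type*} [Fintype V] [DecidableEq V] {w u : V → V → ℤ} {s t : ℤ}
    (H : Hyp w u s t) (a b : V) : u a b ≤ t := by
  by_cases hab : a = b
  · subst hab
    rw [H.usym.diag]
    exact t_nonneg H
  · have h := mat_bound H (Equiv.swap a b) (fun x => Equiv.swap_apply_self a b x)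
    have h2 : u a b + u b a ≤ ∑ x, u x (Equiv.swap a b x) := by
      have h3 : ∑ x ∈ ({a, b} : Finset V), u x (Equiv.swap a b x) = u a b + u b a := by
        rw [Finset.sum_pair hab, Equiv.swap_apply_left, Equiv.swap_apply_right]
      rw [← h3]
      exact Finset.sum_le_sum_of_subset_of_nonneg (Finset.subset_univ _) fun i _ _ => H.u0 _ _
    rw [H.usym.symm b a] at h2
    linarith

/-- Induction step: all weights at least `1`. -/
theorem step {V : Type} [Fintype V] [DecidableEq V] {w u : V → V → ℤ} {s t : ℤ}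
    (H : Hyp w u s t) {W : ℕ} (hW : inn w univ = 2 * (W : ℤ)) (hs : s = T W - 2)
    (IH : ∀ (V' : Type) [Fintype V'] [DecidableEq V'] (w' : V' → V' → ℤ) (s' W' : ℤ),
      Fintype.card V' < Fintype.card V → Sym w' → Sb w' s' → inn w' univ = 2 * W' → T W' ≤ s') :
    False := by
  classical
  set N := Fintype.card V with hNdef
  have ht0 := t_nonneg H
  have hu := inn_u H
  rw [hW] at hu
  have hch := two_choose_int N
  have hu2 : inn u univ = 2 * ((W : ℤ) - ((N.choose 2 : ℕ) : ℤ)) := by rw [hu]; linarith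
  have hu0 : 0 ≤ inn u univ := Finset.sum_nonneg fun i _ => Finset.sum_nonneg fun j _ => H.u0 i j
  have havg := avg H univ
  rw [Finset.card_univ, ← hNdef, hu2] at havg
  have hy : (W : ℤ) - ((N.choose 2 : ℕ) : ℤ) ≤ t * qf N := by linarith
  have hNW : N.choose 2 ≤ W := by
    have : ((N.choose 2 : ℕ) : ℤ) ≤ W := by linarith
    exact_mod_cast this
  have htt := H.ht
  rw [← hNdef] at htt
  have hW1 : 1 ≤ W := by
    rcases Nat.eq_zero_or_pos W with h0 | h0
    · exfalso
      have h1 : T ((W : ℕ) : ℤ) = 0 := by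
        rw [h0]; simpa using T_nonpos (le_refl (0 : ℤ))
      rw [h1] at hs
      have h2 : (0 : ℤ) ≤ ((N / 2 : ℕ) : ℤ) := by positivity
      linarith
    · exact h0
  have ht : t ≤ T W - 2 - ((N / 2 : ℕ) : ℤ) := by rw [htt, hs]
  rcases num W N t hW1 ht ht0 hNW hy with ⟨h63, h9, h3⟩ | ⟨hN3, hnum⟩
  · -- the tight case
    have hs7 : s = 7 := by rw [h9, h3] at htt; norm_num at htt; linarith
    refine tight H.sym h9 ?_ (hs7 ▸ H.sb)
    rw [hW, h63]; norm_num
  obtain ⟨R, β, hβ0, hβR, hRrow, hcard, hβt⟩ := structure_thm H hN3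
  have hRc : (Rᶜ).card + R.card = N := by
    rw [Finset.card_compl, ← hNdef]
    have := Finset.card_le_univ R
    rw [← hNdef] at this
    omega
  set b : V → ℤ := fun i => 1 + β i with hb
  have hT : Twin w b R := by
    refine ⟨fun r hr => by rw [hb]; simp [hβR r hr], fun r hr j hj => ?_⟩
    rw [H.wu r j (Ne.symm hj), hRrow r hr j]
  obtain ⟨s', hs'⟩ := Int.eq_ofNat_of_zero_le (Finset.sum_nonneg fun j (_ : j ∈ univ) => hβ0 j)
  have hs'' : ∑ j, β j = (s' : ℤ) := hs'
  have hBsum : ∑ i, b i = ((N + s' : ℕ) : ℤ) := by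
    rw [hb, Finset.sum_add_distrib, hs'']
    simp [hNdef]
  have hb1 : ∀ i, 1 ≤ b i := fun i => by have := hβ0 i; simp only [hb]; linarith
  obtain ⟨c, hc⟩ : ∃ c : ℤ, ∑ i, (b i ^ 2 - b i) = 2 * c := by
    have h1 : ∀ i : V, b i ^ 2 - b i = 2 * ((b i ^ 2 - b i) / 2) := by
      intro i
      have h2 : Even (b i ^ 2 - b i) := by
        have : b i ^ 2 - b i = b i * (b i - 1) := by ring
        rw [this]; exact Int.even_mul_pred_self (b i)
      exact (Int.mul_ediv_cancel' h2.two_dvd).symm
    refine ⟨∑ i, (b i ^ 2 - b i) / 2, ?_⟩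
    rw [Finset.mul_sum]
    exact Finset.sum_congr rfl fun i _ => h1 i
  have hc0 : 0 ≤ c := by
    have h1 : 0 ≤ ∑ i, (b i ^ 2 - b i) := Finset.sum_nonneg fun i _ => by
      have := hb1 i
      nlinarith
    linarith
  have hb2 : ∑ i, b i ^ 2 = ((N + s' : ℕ) : ℤ) + 2 * c := by
    rw [Finset.sum_sub_distrib, hBsum] at hc
    linarith
  set B : ℕ := N + s' with hBdef
  set sv : ℤ := s - ((B / 2 : ℕ) : ℤ) - c with hsv
  have hVcard : Fintype.card {x // x ∉ R} = (Rᶜ).card := by
    rw [Fintype.card_subtype]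
    congr 1
    ext x; simp
  have hsub : ∑ i : {x // x ∉ R}, b i = ((Rᶜ).card : ℤ) + s' := by
    have h1 : ∑ i : {x // x ∉ R}, b i = ∑ i ∈ Rᶜ, b i := by
      refine (Finset.sum_subtype Rᶜ (fun x => by simp) _).symm
    rw [h1, hb, Finset.sum_add_distrib]
    have h2 : ∑ i ∈ Rᶜ, β i = ∑ i, β i := by
      rw [← Finset.sum_compl_add_sum R β, Finset.sum_eq_zero hβR, add_zero]
    rw [h2, hs'']
    simp
  have hF : ∀ x : {x // x ∉ R} → ℤ, IsSign x →
      |∑ i : {x // x ∉ R}, b i * x i| ≤ (R.card : ℤ) + 1 →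
      en (rv w b R) x ≤ 2 * sv := by
    intro x hx hle
    have h1 := ext1 H.sym H.sb hT x hx hle
    rw [hb2, hBsum] at h1
    have h2 : 2 * ((B / 2 : ℕ) : ℤ) + ((B : ℕ) : ℤ) % 2 = B := by omega
    rw [hsv]
    linarith
  have hinn : inn (rv w b R) univ = 2 * ((W : ℤ) - ((B.choose 2 : ℕ) : ℤ) + c) := by
    rw [rv_inn H.sym hT, hW, hBsum, hb2]
    have := two_choose_int B
    nlinarith
  have hRpos : (Rᶜ).card < N := by
    have h1 : (0 : ℤ) ≤ ∑ j, β j := Finset.sum_nonneg fun j _ => hβ0 j
    have h2 : (((Rᶜ).card : ℕ) : ℤ) < (N : ℤ) := by linarith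
    exact_mod_cast h2
  have finish : ¬ Sb (rv w b R) sv := by
    intro hSb
    have h1 := IH {x // x ∉ R} (rv w b R) sv ((W : ℤ) - ((B.choose 2 : ℕ) : ℤ) + c)
      (by rw [hVcard]; exact hRpos) (rv_sym H.sym b R) hSb hinn
    have h2 := ext2 (W : ℤ) s c B hc0 h1
    linarith
  have hb1' : ∀ i : {x // x ∉ R}, 1 ≤ b i := fun i => hb1 i
  have hb0' : ∀ i : {x // x ∉ R}, 0 ≤ b i := fun i => by have := hb1' i; linarith
  rw [hs''] at hcard hβt
  have hRcz : ((Rᶜ).card : ℤ) + (R.card : ℤ) = N := by exact_mod_cast hRc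
  -- facts when `s' = 0` or `s' = 1`
  have hc1 : s' ≤ 1 → c = s' := by
    intro h1
    have h2 : ∀ i : V, b i ^ 2 - b i = 2 * β i := by
      intro i
      have h3 : β i ≤ ∑ j, β j := Finset.single_le_sum (fun j _ => hβ0 j) (Finset.mem_univ i)
      rw [hs''] at h3
      have h4 : (s' : ℤ) ≤ 1 := by exact_mod_cast h1
      have h5 := hβ0 i
      have h6 : β i = 0 ∨ β i = 1 := by omega
      rcases h6 with h6 | h6 <;> simp only [hb, h6] <;> norm_num
    rw [Finset.sum_congr rfl (fun i _ => h2 i), ← Finset.mul_sum, hs''] at hc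
    linarith
  have hble : ∀ i : {x // x ∉ R}, b i ≤ 1 + s' := by
    intro i
    have h3 : β i ≤ ∑ j, β j := Finset.single_le_sum (fun j _ => hβ0 j) (Finset.mem_univ (i : V))
    rw [hs''] at h3
    simp only [hb]; linarith
  rcases hnum s' (Rᶜ).card hcard hβt with h1 | h1 | h1 | h1 | h1
  · -- all sign vectors can be balanced
    refine finish (sbA hb0' hF ?_)
    rw [hsub]
    have : (s' : ℤ) + 2 * ((Rᶜ).card : ℤ) ≤ N + 1 := by exact_mod_cast h1
    linarith
  · -- no hubs, constant vectors
    obtain ⟨h0, h2⟩ := h1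
    have hc' := hc1 (by omega)
    have h3 : 2 * ((Rᶜ).card : ℤ) ≤ N + 3 := by exact_mod_cast h2
    refine finish (sbB hb1' hF ?_ ?_)
    · rw [hsub, h0]
      push_cast
      linarith
    · rw [hinn, hsv, hc', hBdef, h0]
      have h4 : ((N.choose 2 : ℕ) : ℤ) ≤ W := by exact_mod_cast hNW
      simp only [add_zero]
      push_cast
      push_cast at htt
      linarith
  · -- too few edges
    have h2 := edge_bound H hβR hRrow
    rw [hu2, hs''] at h2
    have h3 : (R.card : ℤ) = N - (Rᶜ).card := by linarith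
    rw [h3] at h2
    linarith
  · obtain ⟨h74, h11, h3, h4⟩ := h1
    have hs8 : s = 8 := by rw [h11, h3] at htt; norm_num at htt; linarith
    rcases h4 with ⟨h0, h5 | h5⟩ | ⟨h0, h5 | h5⟩
    · have hc' := hc1 (by omega)
      have hR : R.card = 3 := by omega
      have hsv3 : sv = 3 := by rw [hsv, hs8, hc', hBdef, h0, h11]; norm_num
      have hin : inn (rv w b R) univ = 38 := by
        rw [hinn, hc', hBdef, h0, h11, h74]; decide +kernel
      refine finish ?_
      rw [hsv3]
      rw [hsv3] at hF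
      refine sbC (rv_sym H.sym b R) hb1' hF (by rw [hVcard]; omega) ?_ ?_ ?_ (by norm_num)
      · rw [hsub, h5, h0, hR]; norm_num
      · intro k
        have := hble k
        rw [hsub, h5, h0, hR]
        rw [h0] at this
        push_cast at this ⊢
        linarith
      · rw [hin]; norm_num
    · have hc' := hc1 (by omega)
      have hR : R.card = 2 := by omega
      have hsv3 : sv = 3 := by rw [hsv, hs8, hc', hBdef, h0, h11]; norm_num
      have hin : inn (rv w b R) univ = 38 := by
        rw [hinn, hc', hBdef, h0, h11, h74]; decide +kernel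
      refine finish ?_
      rw [hsv3]
      rw [hsv3] at hF
      have hβ : ∀ i, β i = 0 := by
        intro i
        have h6 : β i ≤ ∑ j, β j := Finset.single_le_sum (fun j _ => hβ0 j) (Finset.mem_univ i)
        rw [hs'', h0] at h6
        have := hβ0 i
        push_cast at h6
        linarith
      have hbb : ∀ i, b i = 1 := fun i => by simp only [hb, hβ i]; norm_num
      refine sbD (rv_sym H.sym b R) (by rw [hVcard]; omega) ?_ hin ?_
      · intro x hx hle
        have := hF x hx (by
          rw [hR]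
          have h7 : ∑ i : {x // x ∉ R}, b i * x i = ∑ i, x i :=
            Finset.sum_congr rfl fun i _ => by rw [hbb, one_mul]
          rw [h7]
          push_cast
          linarith)
        linarith
      · intro i j
        unfold rv
        by_cases hij : i = j
        · rw [if_pos hij]; norm_num
        · rw [if_neg hij, hbb, hbb, H.wu i j (fun h => hij (Subtype.ext h))]
          have := u_le_t H (i : V) j
          rw [h3] at this
          linarith
    · have hc' := hc1 (by omega)
      have hR : R.card = 5 := by omega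
      have hsv3 : sv = 1 := by rw [hsv, hs8, hc', hBdef, h0, h11]; norm_num
      have hin : inn (rv w b R) univ = 18 := by
        rw [hinn, hc', hBdef, h0, h11, h74]; decide +kernel
      refine finish ?_
      rw [hsv3]
      rw [hsv3] at hF
      refine sbC (rv_sym H.sym b R) hb1' hF (by rw [hVcard]; omega) ?_ ?_ ?_ (by norm_num)
      · rw [hsub, h5, h0, hR]; norm_num
      · intro k
        have := hble k
        rw [hsub, h5, h0, hR]
        rw [h0] at this
        push_cast at this ⊢
        linarith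
      · rw [hin]; norm_num
    · have hc' := hc1 (by omega)
      have hR : R.card = 4 := by omega
      have hsv3 : sv = 1 := by rw [hsv, hs8, hc', hBdef, h0, h11]; norm_num
      have hin : inn (rv w b R) univ = 18 := by
        rw [hinn, hc', hBdef, h0, h11, h74]; decide +kernel
      refine finish ?_
      rw [hsv3]
      rw [hsv3] at hF
      refine sbC (rv_sym H.sym b R) hb1' hF (by rw [hVcard]; omega) ?_ ?_ ?_ (by norm_num)
      · rw [hsub, h5, h0, hR]; norm_num
      · intro k
        have := hble k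
        rw [hsub, h5, h0, hR]
        rw [h0] at this
        push_cast at this ⊢
        linarith
      · rw [hin]; norm_num
  · obtain ⟨h813, h37, h7, h4⟩ := h1
    have hs25 : s = 25 := by rw [h37, h7] at htt; norm_num at htt; linarith
    rcases h4 with ⟨h0, h5⟩ | ⟨h0, h5⟩
    · have hc' := hc1 (by omega)
      have hR : R.card = 16 := by omega
      have hsv3 : sv = 7 := by rw [hsv, hs25, hc', hBdef, h0, h37]; norm_num
      have hin : inn (rv w b R) univ = 294 := by
        rw [hinn, hc', hBdef, h0, h37, h813]; decide +kernel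
      refine finish ?_
      rw [hsv3]
      rw [hsv3] at hF
      refine sbC (rv_sym H.sym b R) hb1' hF (by rw [hVcard]; omega) ?_ ?_ ?_ (by norm_num)
      · rw [hsub, h5, h0, hR]; norm_num
      · intro k
        have := hble k
        rw [hsub, h5, h0, hR]
        rw [h0] at this
        push_cast at this ⊢
        linarith
      · rw [hin]; norm_num
    · have hc' := hc1 (by omega)
      have hR : R.card = 18 := by omega
      have hsv3 : sv = 5 := by rw [hsv, hs25, hc', hBdef, h0, h37]; norm_num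
      have hin : inn (rv w b R) univ = 222 := by
        rw [hinn, hc', hBdef, h0, h37, h813]; decide +kernel
      refine finish ?_
      rw [hsv3]
      rw [hsv3] at hF
      refine sbC (rv_sym H.sym b R) hb1' hF (by rw [hVcard]; omega) ?_ ?_ ?_ (by norm_num)
      · rw [hsub, h5, h0, hR]; norm_num
      · intro k
        have := hble k
        rw [hsub, h5, h0, hR]
        rw [h0] at this
        push_cast at this ⊢
        linarith
      · rw [hin]; norm_num

end Pool.Agent.MXC
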