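import Pool.Agent.MXC.Cfg5

namespace Pool.Agent.MXC

open Finset Pool.Agent.MP_710317_co.Rec

variable {V : Type*} [Fintype V] [DecidableEq V]

/-- [MXC-STR]  The structure theorem: a large twin class.

Proof.  `t = 0` (by `mat_bound` with `id`, `t ≥ 0`): every pair has `u = 0` (`mat_bound` for the
transposition `Equiv.swap a b`: `2 u a b ≤ 0`), take `β = 0`, `R = univ`.
`t ≥ 1`: `cfg_exists`.  Let `R = (IP τ δ).filter (fun r => Good u τ δ r ∧ ∀ a ∈ Mr τ δ, u a r = 0)`,
`β a = if a ∈ Hb τ δ then δ a else 0`.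
* `r ∈ R`: `u r j = β j`: `j ∈ Hb`: `Good` and symmetry; `j ∈ Mr`: `0` (and `j ∉ Hb`); `j ∈ IP`:
  `cfg_indep`, and `j ∉ Hb` (`IP`, `Hb`, `Mr` are disjoint, as in `cfg_IP`).  `β r = 0` as `r ∈ IP`.
* `bad = IP.filter (Good ∧ ∃ a ∈ Mr, u a r ≠ 0)`: `2 |bad| ≤ |Mr|`.  For `r ∈ bad` let
  `n r = {a ∈ Mr : 0 < u a r}`; it is closed under `τ` (`Good`: `u a r = u (τ a) r`; `τ a ∈ Mr`), so has
  at least two elements `a, τ a`; the sets `n r` are disjoint for different `r` (`cfg_bad`); so
  `2 |bad| ≤ ∑_{r ∈ bad} |n r| = |⋃ n r| ≤ |Mr|` (`Finset.card_biUnion`).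
* `|Rᶜ| = |Hb| + |Mr| + |X| + |bad|` (`cfg_IP`), `X = IP.filter (¬ Good)`, `∑ β = ∑_{Hb} δ =: s'`.
  By `cfg_X`, `cfg_Mr_le`, `cfg_Hb_le` with `UM' = ∑_{Mr} u x (τ x)`:
  `2 |X| + 2 s' + UM' ≤ 2 t`, `|Mr| ≤ UM'`, `|Hb| ≤ s'`, `2 |bad| ≤ |Mr|`: linear arithmetic gives
  `2 |Rᶜ| + 4 s' ≤ 2 s' + 3 UM' + 2 |X| + 4 s' ≤ 6 t` and `s' ≤ t`. -/
theorem structure_thm {w u : V → V → ℤ} {s t : ℤ} (H : Hyp w u s t)
    (hN : 3 * t + 1 ≤ Fintype.card V) :
    ∃ (R : Finset V) (β : V → ℤ), (∀ j, 0 ≤ β j) ∧ (∀ r ∈ R, β r = 0) ∧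
      (∀ r ∈ R, ∀ j, u r j = β j) ∧ (((Rᶜ).card : ℕ) : ℤ) + 2 * ∑ j, β j ≤ 3 * t ∧
      ∑ j, β j ≤ t := by
  classical
  have ht0 : 0 ≤ t := by
    have h1 := mat_bound H (fun x => x) (fun x => rfl)
    simp only [H.usym.diag, Finset.sum_const_zero] at h1
    omega
  rcases eq_or_lt_of_le ht0 with ht | ht
  · have hu0 : ∀ a b, u a b = 0 := by
      intro a b
      by_cases hab : a = b
      · rw [hab, H.usym.diag]
      · have h1 := mat_bound H (fun x => Equiv.swap a b x) (fun x => by simp [Equiv.swap_apply_self])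
        rw [← ht] at h1
        have h2 : u a b + u b a ≤ ∑ x, u x (Equiv.swap a b x) := by
          have h3 : u a (Equiv.swap a b a) + u b (Equiv.swap a b b) = ∑ x ∈ ({a, b} : Finset V),
              u x (Equiv.swap a b x) := by
            rw [Finset.sum_pair hab]
          rw [Equiv.swap_apply_left, Equiv.swap_apply_right] at h3
          rw [h3]
          exact Finset.sum_le_univ_sum_of_nonneg fun x => H.u0 _ _
        rw [H.usym.symm b a] at h2
        have h4 := H.u0 a b
        linarith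
    refine ⟨univ, fun _ => 0, fun _ => le_refl _, fun _ _ => rfl, fun r _ j => hu0 r j, ?_, ?_⟩
    · simp [← ht]
    · simp [← ht]
  · obtain ⟨τ, δ, h⟩ := cfg_exists H (by omega) hN
    have hu := h.hyp.usym
    have hmIP : ∀ x, x ∈ IP τ δ ↔ τ x = x ∨ τ x ∈ Hb τ δ := by
      intro x
      simp only [IP, mem_filter, mem_univ, true_and]
    have hmHb : ∀ x, x ∈ Hb τ δ ↔ τ x ≠ x ∧ 0 < δ x := by
      intro x
      simp only [Hb, mem_filter, mem_univ, true_and]
    have hmMr : ∀ x, x ∈ Mr τ δ ↔ τ x ≠ x ∧ x ∉ Hb τ δ ∧ τ x ∉ Hb τ δ := by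
      intro x
      simp only [Mr, mem_filter, mem_univ, true_and]
    have hHbIP : ∀ x ∈ Hb τ δ, x ∉ IP τ δ := by
      intro x hx hx'
      rw [hmIP] at hx'
      rcases hx' with h1 | h1
      · exact ((hmHb x).1 hx).1 h1
      · have h2 := ((hmHb x).1 hx).2
        have h3 := ((hmHb _).1 h1).2
        rw [cfg_neg h] at h3
        linarith
    have hMrIP : ∀ x ∈ Mr τ δ, x ∉ IP τ δ := by
      intro x hx hx'
      rw [hmIP] at hx'
      rcases hx' with h1 | h1
      · exact ((hmMr x).1 hx).1 h1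
      · exact ((hmMr x).1 hx).2.2 h1
    have hinv := h.max.pm.inv
    have hMrτ : ∀ x ∈ Mr τ δ, τ x ∈ Mr τ δ := by
      intro x hx
      rw [hmMr] at hx ⊢
      refine ⟨?_, hx.2.2, ?_⟩
      · rw [hinv]
        exact fun h1 => hx.1 h1.symm
      · rw [hinv]
        exact hx.2.1
    set R : Finset V := (IP τ δ).filter (fun r => Good u τ δ r ∧ ∀ a ∈ Mr τ δ, u a r = 0) with hR
    set X : Finset V := (IP τ δ).filter (fun r => ¬ Good u τ δ r) with hX
    set bad : Finset V := (IP τ δ).filter (fun r => Good u τ δ r ∧ ¬ ∀ a ∈ Mr τ δ, u a r = 0) with hbad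
    have hIPcard : (IP τ δ).card = R.card + X.card + bad.card := by
      have h1 : IP τ δ = R ∪ X ∪ bad := by
        ext x
        simp only [hR, hX, hbad, mem_union, mem_filter]
        tauto
      have h2 : Disjoint R X := by
        rw [Finset.disjoint_left]
        intro x hx hx'
        simp only [hR, hX, mem_filter] at hx hx'
        exact hx'.2 hx.2.1
      have h3 : Disjoint (R ∪ X) bad := by
        rw [Finset.disjoint_left]
        intro x hx hx'
        simp only [hR, hX, hbad, mem_union, mem_filter] at hx hx'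
        rcases hx with h4 | h4
        · exact hx'.2.2 h4.2.2
        · exact h4.2 hx'.2.1
      calc (IP τ δ).card = (R ∪ X ∪ bad).card := by rw [← h1]
        _ = R.card + X.card + bad.card := by
          rw [card_union_of_disjoint h3, card_union_of_disjoint h2]
    have hbadle : 2 * bad.card ≤ (Mr τ δ).card := by
      set n : V → Finset V := fun r => (Mr τ δ).filter fun a => 0 < u a r with hn
      have hdis : ∀ r ∈ bad, ∀ r' ∈ bad, r ≠ r' → Disjoint (n r) (n r') := by
        intro r hr r' hr' hne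
        rw [Finset.disjoint_left]
        intro a ha ha'
        simp only [hn, mem_filter] at ha ha'
        simp only [hbad, mem_filter] at hr hr'
        have h5 := hr'.2.1.2 a ha.1
        rw [h5] at ha'
        exact cfg_bad h ha.1 hr.1 hr'.1 hne ⟨ha.2, ha'.2⟩
      have htwo : ∀ r ∈ bad, 2 ≤ (n r).card := by
        intro r hr
        simp only [hbad, mem_filter] at hr
        obtain ⟨hr1, hr2, hr3⟩ := hr
        push Not at hr3
        obtain ⟨a, ha, hane⟩ := hr3
        have hpos : 0 < u a r := lt_of_le_of_ne (h.hyp.u0 _ _) (Ne.symm hane)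
        have h1 : a ∈ n r := by
          simp only [hn, mem_filter]
          exact ⟨ha, hpos⟩
        have h2 : τ a ∈ n r := by
          simp only [hn, mem_filter]
          refine ⟨hMrτ a ha, ?_⟩
          rw [← hr2.2 a ha]
          exact hpos
        have h3 : a ≠ τ a := fun h4 => ((hmMr a).1 ha).1 h4.symm
        calc 2 = ({a, τ a} : Finset V).card := (card_pair h3).symm
          _ ≤ (n r).card := card_le_card (by
            intro x hx
            simp only [mem_insert, mem_singleton] at hx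
            rcases hx with rfl | rfl
            · exact h1
            · exact h2)
      calc 2 * bad.card = ∑ r ∈ bad, 2 := by rw [sum_const, smul_eq_mul, mul_comm]
        _ ≤ ∑ r ∈ bad, (n r).card := sum_le_sum htwo
        _ = (bad.biUnion n).card := (card_biUnion hdis).symm
        _ ≤ (Mr τ δ).card := card_le_card (by
          intro x hx
          simp only [hn, mem_biUnion, mem_filter] at hx
          obtain ⟨r, _, h1, _⟩ := hx
          exact h1)
    have hβsum : ∑ j, (if j ∈ Hb τ δ then δ j else 0) = ∑ a ∈ Hb τ δ, δ a := by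
      rw [Finset.sum_ite_mem, univ_inter]
    have hIP := cfg_IP h
    have h1 := cfg_X h
    have h2 := cfg_Mr_le h
    have h3 := cfg_Hb_le h
    have hRc : (Rᶜ).card + R.card = Fintype.card V := by
      rw [card_compl]
      have := card_le_univ R
      omega
    refine ⟨R, fun j => if j ∈ Hb τ δ then δ j else 0, ?_, ?_, ?_, ?_, ?_⟩
    · intro j
      dsimp only
      split_ifs with hj
      · exact ((hmHb j).1 hj).2.le
      · exact le_refl _
    · intro r hr
      simp only [hR, mem_filter] at hr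
      dsimp only
      rw [if_neg fun h4 => hHbIP r h4 hr.1]
    · intro r hr j
      simp only [hR, mem_filter] at hr
      dsimp only
      by_cases hj : j ∈ Hb τ δ
      · rw [if_pos hj, hu.symm]
        exact hr.2.1.1 j hj
      · rw [if_neg hj]
        by_cases hj2 : j ∈ Mr τ δ
        · rw [hu.symm]
          exact hr.2.2 j hj2
        · have hj3 : j ∈ IP τ δ := by
            rw [hmIP]
            by_contra h5
            push Not at h5
            exact hj2 ((hmMr j).2 ⟨h5.1, hj, h5.2⟩)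
          exact cfg_indep h hr.1 hj3
    · rw [hβsum]
      rw [← hX] at h1
      zify at hbadle hIPcard hIP hRc ⊢
      linarith
    · rw [hβsum]
      rw [← hX] at h1
      have h4 : (0 : ℤ) ≤ (X.card : ℤ) := Nat.cast_nonneg _
      have h5 : (0 : ℤ) ≤ ((Mr τ δ).card : ℤ) := Nat.cast_nonneg _
      linarith

end Pool.Agent.MXC
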