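import Pool.Agent.MXC.Tab

/-!
# [MXC-TU]  Upper bounds for `T`
-/

namespace Pool.Agent.MXC

open Finset Pool.Agent.MP_710317_co.Rec

theorem TU_chb (B : ℕ) : chb B = B.choose 2 := (Nat.choose_two_right B).symm

theorem TU_tabchk (m : ℕ) (h0 : 1 ≤ m) (hm : m < 2400) : tabchk m = true := by
  have h := chk_all tabchk_aux (m - 1) (by omega)
  have e : Nat.add (m - 1) 1 = m := by
    show m - 1 + 1 = m
    omega
  simp only [e] at h
  exact h

/-- `m = 0`: `tab 0 = 0` (`decide +kernel`), `T_nonpos`.  Strong induction: `tabchk_all` gives with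
`B = cert m`, `c = B (B - 1) / 2 = C(B,2)` (`Nat.choose_two_right`) either `c ≤ m`, `B ≥ 2` (so `c ≥ 1`) and
`B / 2 + tab (m - c) ≤ tab m`: `T_step` and the induction hypothesis; or `m < c` and
`B / 2 + (c - m) ≤ tab m`: `T_step`, `T_nonpos`. -/
theorem T_le_tab (m : ℕ) (hm : m < 2400) : T m ≤ (tab m : ℤ) := by
  induction m using Nat.strong_induction_on with
  | _ m ih =>
    rcases Nat.eq_zero_or_pos m with rfl | h0
    · have : T ((0 : ℕ) : ℤ) = 0 := by
        have := T_nonpos (m := ((0 : ℕ) : ℤ)) (by simp)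
        simpa using this
      rw [this]
      exact Int.natCast_nonneg _
    · have h := TU_tabchk m h0 hm
      have hst := T_step (cert m) (m : ℤ)
      rw [← TU_chb] at hst
      unfold tabchk at h
      cases hb : Nat.ble (chb (cert m)) m with
      | true =>
        rw [hb] at h
        have h' : (Nat.ble 2 (cert m) &&
          Nat.ble (Nat.add (Nat.div (cert m) 2) (tab (Nat.sub m (chb (cert m))))) (tab m)) = true := h
        rw [Bool.and_eq_true] at h'
        have h1 : 2 ≤ cert m := Nat.le_of_ble_eq_true h'.1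
        have h2 : cert m / 2 + tab (m - chb (cert m)) ≤ tab m := Nat.le_of_ble_eq_true h'.2
        have h3 : chb (cert m) ≤ m := Nat.le_of_ble_eq_true hb
        have h4 : 1 ≤ chb (cert m) := by
          rw [TU_chb]
          have : Nat.choose 2 2 ≤ (cert m).choose 2 := Nat.choose_le_choose 2 h1
          simpa using this
        have h5 := ih (m - chb (cert m)) (by omega) (by omega)
        rw [Nat.cast_sub h3] at h5
        have h6 : ((cert m / 2 : ℕ) : ℤ) + (tab (m - chb (cert m)) : ℤ) ≤ (tab m : ℤ) := by exact_mod_cast h2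
        linarith
      | false =>
        rw [hb] at h
        have h' : Nat.ble (Nat.add (Nat.div (cert m) 2) (Nat.sub (chb (cert m)) m)) (tab m) = true := h
        have h2 : cert m / 2 + (chb (cert m) - m) ≤ tab m := Nat.le_of_ble_eq_true h'
        have h3 : m < chb (cert m) := by
          by_contra hc
          have : Nat.ble (chb (cert m)) m = true := Nat.ble_eq_true_of_le (not_lt.1 hc)
          rw [hb] at this
          exact absurd this (by simp)
        have h4 := T_nonpos (m := (m : ℤ) - ((chb (cert m) : ℕ) : ℤ)) (by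
          have : (m : ℤ) < ((chb (cert m) : ℕ) : ℤ) := by exact_mod_cast h3
          linarith)
        rw [h4] at hst
        have h6 : ((cert m / 2 : ℕ) : ℤ) + (((chb (cert m) : ℕ) : ℤ) - (m : ℤ)) ≤ (tab m : ℤ) := by
          have : ((cert m / 2 + (chb (cert m) - m) : ℕ) : ℤ) ≤ (tab m : ℤ) := by exact_mod_cast h2
          rw [Nat.cast_add, Nat.cast_sub h3.le] at this
          exact this
        linarith

theorem TU_small_aux : chk (fun r => Nat.ble (Nat.mul (tab r) (tab r)) (Nat.add r 26)) 780 = true := by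
  decide +kernel

theorem TU_small (r : ℕ) (hr : r < 780) : T r ^ 2 ≤ (r : ℤ) + 26 := by
  have h := chk_all TU_small_aux r hr
  have h1 : tab r * tab r ≤ r + 26 := Nat.le_of_ble_eq_true h
  have h2 : (tab r : ℤ) * (tab r : ℤ) ≤ (r : ℤ) + 26 := by exact_mod_cast h1
  have h3 := T_le_tab r (by omega)
  have h4 := T_nonneg (r : ℤ)
  have h5 : T r * T r ≤ (tab r : ℤ) * (tab r : ℤ) := mul_self_le_mul_self h4 h3
  rw [pow_two]
  linarith

theorem TU_greatest (r : ℕ) : ∃ n : ℕ, n.choose 2 ≤ r ∧ r < (n + 1).choose 2 := by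
  classical
  have hex : ∃ n : ℕ, r < (n + 1).choose 2 := by
    refine ⟨r + 1, ?_⟩
    have e : (r + 1 + 1).choose 2 = (r + 1).choose 1 + (r + 1).choose 2 := Nat.choose_succ_succ _ _
    rw [Nat.choose_one_right] at e
    omega
  refine ⟨Nat.find hex, ?_, Nat.find_spec hex⟩
  rcases Nat.eq_zero_or_pos (Nat.find hex) with h | h
  · rw [h]; simp
  · have := Nat.find_min hex (m := Nat.find hex - 1) (by omega)
    rw [Nat.sub_add_cancel h] at this
    exact not_lt.1 this

/-- For `r < 780`: `T_le_tab` and `decide +kernel` for `∀ r < 780, tab r ^ 2 ≤ r + 26` (true, checked).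
For `r ≥ 780`: let `n ≥ 40` be largest with `C(n,2) ≤ r`, `r' = r - C(n,2) < n`.
`T r ≤ n / 2 + T r'` (`T_step`), `T r' ^ 2 ≤ r' + 26 ≤ n + 25` (strong induction, `r' < r`).  With
`a = T r' ≥ 0`: `(n / 2 + a) ^ 2 ≤ n ^ 2 / 4 + n a + a ^ 2 ≤ n ^ 2 / 4 + n a + r' + 26`, and
`n ^ 2 / 4 + n a ≤ n (n - 1) / 2`, i.e. `4 a ≤ n - 2`, because `(4 a) ^ 2 ≤ 16 (n + 25) ≤ (n - 2) ^ 2` for
`n ≥ 33` (`n ^ 2 - 20 n - 396 ≥ 0`). -/
theorem T_sq (r : ℕ) : T r ^ 2 ≤ (r : ℤ) + 26 := by
  induction r using Nat.strong_induction_on with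
  | _ r ih =>
    rcases Nat.lt_or_ge r 780 with hr | hr
    · exact TU_small r hr
    · obtain ⟨n, hn1, hn2⟩ := TU_greatest r
      have hn : 40 ≤ n := by
        by_contra hc
        have h1 : (n + 1).choose 2 ≤ Nat.choose 40 2 := Nat.choose_le_choose 2 (by omega)
        have h2 : Nat.choose 40 2 = 780 := by rw [Nat.choose_two_right]
        omega
      have e : (n + 1).choose 2 = n + n.choose 2 := by
        have := Nat.choose_succ_succ n 1
        rw [Nat.choose_one_right] at this
        exact this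
      have e2 : 2 * n.choose 2 + n = n * n := by
        have h := Nat.choose_two_right n
        have h' : 2 ∣ n * (n - 1) := (Nat.even_mul_pred_self n).two_dvd
        rw [h]
        have h3 := Nat.mul_div_cancel' h'
        obtain ⟨k, rfl⟩ : ∃ k, n = k + 1 := ⟨n - 1, by omega⟩
        rw [Nat.add_sub_cancel] at h3 ⊢
        rw [h3]
        ring
      have hc1 : 1 ≤ n.choose 2 := by
        have : Nat.choose 2 2 ≤ n.choose 2 := Nat.choose_le_choose 2 (by omega)
        simpa using this
      have hst := T_step n (r : ℤ)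
      have hih := ih (r - n.choose 2) (by omega)
      rw [Nat.cast_sub hn1] at hih
      have ha := T_nonneg ((r : ℤ) - ((n.choose 2 : ℕ) : ℤ))
      have hT := T_nonneg (r : ℤ)
      generalize T ((r : ℤ) - ((n.choose 2 : ℕ) : ℤ)) = a at hst hih ha
      generalize T (r : ℤ) = t at hst hT
      have hh : 2 * ((n / 2 : ℕ) : ℤ) ≤ (n : ℤ) := by
        have : 2 * (n / 2) ≤ n := Nat.mul_div_le n 2
        exact_mod_cast this
      have hh0 : (0 : ℤ) ≤ ((n / 2 : ℕ) : ℤ) := Int.natCast_nonneg _
      generalize ((n / 2 : ℕ) : ℤ) = h at hst hh hh0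
      have e2' : 2 * ((n.choose 2 : ℕ) : ℤ) + (n : ℤ) = (n : ℤ) * n := by exact_mod_cast e2
      have hr' : (r : ℤ) < (n : ℤ) + ((n.choose 2 : ℕ) : ℤ) := by
        have : r < n + n.choose 2 := by omega
        exact_mod_cast this
      generalize ((n.choose 2 : ℕ) : ℤ) = c at hst hih e2' hr'
      have hn' : (40 : ℤ) ≤ (n : ℤ) := by exact_mod_cast hn
      generalize (n : ℤ) = N at *
      generalize (r : ℤ) = R at *
      have h4a : 4 * a ≤ N - 2 := by
        by_contra hc
        have hc' : N - 1 ≤ 4 * a := by omega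
        have h5 : (N - 1) * (N - 1) ≤ (4 * a) * (4 * a) := by
          apply mul_self_le_mul_self _ hc'
          linarith
        have h5' : (4 * a) * (4 * a) = 16 * a ^ 2 := by ring
        have h5'' : (N - 1) * (N - 1) = (N - 40) * (N - 40) + 78 * (N - 40) + 1521 := by ring
        have h5c : 0 ≤ (N - 40) * (N - 40) := mul_self_nonneg _
        rw [h5', h5''] at h5
        linarith
      have h6 : t ^ 2 ≤ (h + a) ^ 2 := by
        apply pow_le_pow_left₀ hT hst
      have h7 : (2 * h) * (2 * h) ≤ N * N := mul_self_le_mul_self (by linarith) hh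
      have h8 : (2 * h) * (4 * a) ≤ N * (4 * a) := mul_le_mul_of_nonneg_right hh (by linarith)
      have h9 : N * (4 * a) ≤ N * (N - 2) := mul_le_mul_of_nonneg_left h4a (by linarith)
      have h10 : (h + a) ^ 2 = h * h + 2 * (h * a) + a ^ 2 := by ring
      have h11 : (2 * h) * (2 * h) = 4 * (h * h) := by ring
      have h12 : (2 * h) * (4 * a) = 8 * (h * a) := by ring
      have h13 : N * (N - 2) = N * N - 2 * N := by ring
      rw [h11] at h7
      rw [h12] at h8
      rw [h13] at h9
      rw [h10] at h6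
      linarith

end Pool.Agent.MXC
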