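import Pool.Agent.MXC.Dec
import Pool.Agent.MXC.TU
import Pool.Agent.MXC.RChk

/-!
# [MXC-TG]  Exact values of `T` for `m < 1400`, and a better bound
-/

namespace Pool.Agent.MXC

open Finset Pool.Agent.MP_710317_co.Rec

private theorem TG_chb (B : ℕ) : chb B = B.choose 2 := (Nat.choose_two_right B).symm

private theorem TG_tab_lt (m : ℕ) : tab m < 64 := by
  have : tab m ≤ 63 := Nat.and_le_right
  omega

/-- `tab m < 64` (`Nat.land _ 63`).  `m = 0`: `tab 0 = 0`.  Strong induction, `m ≥ 1`: `T_dec` gives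
`B ≥ 2` with `T m = B / 2 + T (m - C(B,2))`.  If `B ≥ 62`: `C(B,2) ≥ 1891 > m + 64`, so
`T m ≥ C(B,2) - m ≥ 64` (`T_nonpos`).  If `B < 62`: `gechk m` (`gechk_all`, `chk_all`, `force_eq`) with
`i = B - 2`: if `C(B,2) ≤ m` then `tab m ≤ B / 2 + tab (m - C(B,2)) ≤ T m` (induction hypothesis,
`C(B,2) ≥ 1`), else `tab m ≤ B / 2 + (C(B,2) - m) = T m` (`T_nonpos`). -/
theorem T_ge_tab (m : ℕ) (hm : m < 1400) : (tab m : ℤ) ≤ T m := by
  induction m using Nat.strong_induction_on with
  | _ m ih =>
    rcases Nat.eq_zero_or_pos m with rfl | hpos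
    · have h0 : tab 0 = 0 := by decide +kernel
      have := T_nonneg ((0 : ℕ) : ℤ)
      rw [h0]
      exact_mod_cast this
    · obtain ⟨B, hB2, hT, -⟩ := T_dec m hpos
      have h64 := TG_tab_lt m
      have hch := TG_chb B
      by_cases hB : 62 ≤ B
      · have hc : 1891 ≤ B.choose 2 := by
          calc 1891 = (62 : ℕ).choose 2 := by decide
            _ ≤ B.choose 2 := Nat.choose_le_choose 2 hB
        rw [T_nonpos (m := (m : ℤ) - ((B.choose 2 : ℕ) : ℤ)) (by omega)] at hT
        omega
      · have hg : gechk m = true := chk_all gechk_all m hm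
        rw [gechk, force_eq] at hg
        have h2 := chk_all hg (B - 2) (by omega)
        have e : Nat.add (B - 2) 2 = B := by
          show B - 2 + 2 = B
          omega
        have hc1 : 1 ≤ B.choose 2 := by
          calc 1 = (2 : ℕ).choose 2 := by decide
            _ ≤ B.choose 2 := Nat.choose_le_choose 2 hB2
        simp only [force_eq, e, hch] at h2
        by_cases hc : B.choose 2 ≤ m
        · have hb : Nat.ble (B.choose 2) m = true := Nat.ble_eq_true_of_le hc
          rw [hb] at h2
          have h3 := Nat.le_of_ble_eq_true h2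
          have h3' : tab m ≤ B / 2 + tab (m - B.choose 2) := h3
          have h4 := ih (m - B.choose 2) (by omega) (by omega)
          have e3 : ((m - B.choose 2 : ℕ) : ℤ) = (m : ℤ) - ((B.choose 2 : ℕ) : ℤ) := by
            push_cast [Nat.cast_sub hc]
            ring
          rw [e3] at h4
          rw [hT]
          omega
        · have hb : Nat.ble (B.choose 2) m = false := by
            rw [← Bool.not_eq_true, Nat.ble_eq]
            exact hc
          rw [hb] at h2
          have h3 := Nat.le_of_ble_eq_true h2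
          have h3' : tab m ≤ B / 2 + (B.choose 2 - m) := h3
          rw [T_nonpos (m := (m : ℤ) - ((B.choose 2 : ℕ) : ℤ)) (by omega)] at hT
          omega

/-- `T_ge_tab`, `T_le_tab`. -/
theorem T_eq_tab (m : ℕ) (hm : m < 1400) : T m = (tab m : ℤ) :=
  le_antisymm (T_le_tab m (by omega)) (T_ge_tab m hm)

private theorem TG_tri (r : ℕ) : ∃ n r' : ℕ, r = n.choose 2 + r' ∧ r' < n := by
  induction r with
  | zero => exact ⟨1, 0, by decide, by decide⟩
  | succ r ih =>
    obtain ⟨n, r', h, hr⟩ := ih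
    rcases Nat.lt_or_ge (r' + 1) n with h1 | h1
    · exact ⟨n, r' + 1, by omega, h1⟩
    · refine ⟨n + 1, 0, ?_, by omega⟩
      have : (n + 1).choose 2 = n + n.choose 2 := by
        rw [Nat.choose_succ_succ' n 1, Nat.choose_one_right]
      omega

/-- `r < 2400`: `sqchk2_all` and `T_le_tab` (`T ≥ 0`).  Otherwise `n ≥ 69` largest with `C(n,2) ≤ r`,
`r' = r - C(n,2) < n` (see `qnum2` in `Pool.Agent.MP_710317_co.Rec.QId2` for this step).
`n < 85`: `sqchk_all`: one of `v = n / 2 + tab r'`, `v' = (n + 1) / 2 + (n - r')` has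
`5 v ^ 2 ≤ 4 r + 395`, and `T r ≤ v`, `T r ≤ v'` (`T_step` with `n`, `n + 1`; `T_le_tab`; `T_nonpos`).
`n ≥ 85`: strong induction, `a = T r'`, `5 a ^ 2 ≤ 4 r' + 395 ≤ 4 n + 391`, `T r ≤ n / 2 + a`:
`5 (n / 2 + a) ^ 2 ≤ 5 n ^ 2 / 4 + 5 n a + 4 r' + 395 ≤ 2 n (n - 1) + 4 r' + 395`, because
`5 a ≤ 3 n / 4 - 2`, i.e. `20 a ≤ 3 n - 8`: `400 a ^ 2 ≤ 80 (4 n + 391) ≤ (3 n - 8) ^ 2` for `n ≥ 85`
(`9 n ^ 2 - 368 n - 31216 ≥ 0`). -/
theorem T_sq2 (r : ℕ) : 5 * T r ^ 2 ≤ 4 * (r : ℤ) + 395 := by
  induction r using Nat.strong_induction_on with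
  | _ r ih =>
    have hT0 := T_nonneg (r : ℤ)
    by_cases hr : r < 2400
    · have h1 := T_le_tab r hr
      have h2 := chk_all sqchk2_all r hr
      have h3 := Nat.le_of_ble_eq_true h2
      have h3' : 5 * (tab r * tab r) ≤ 4 * r + 395 := h3
      have h4 : 5 * ((tab r : ℤ) * tab r) ≤ 4 * r + 395 := by exact_mod_cast h3'
      nlinarith
    · obtain ⟨n, r', hr', hlt⟩ := TG_tri r
      have h2c : 2 * n.choose 2 = n * (n - 1) := by
        rw [Nat.choose_two_right, Nat.mul_div_cancel' (Nat.even_mul_pred_self n).two_dvd]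
      have hn69 : 69 ≤ n := by
        by_contra hlt'
        have h68 : n.choose 2 ≤ (68 : ℕ).choose 2 := Nat.choose_le_choose 2 (by omega)
        have : (68 : ℕ).choose 2 = 2278 := by decide
        omega
      have hs1 : (n + 1).choose 2 = n + n.choose 2 := by
        rw [Nat.choose_succ_succ' n 1, Nat.choose_one_right]
      have hstep := T_step n r
      have e1 : (r : ℤ) - ((n.choose 2 : ℕ) : ℤ) = (r' : ℤ) := by omega
      rw [e1] at hstep
      by_cases hn : n < 85
      · have h1 := chk_all sqchk_all (n - 69) (by omega)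
        have e : Nat.add 69 (n - 69) = n := by
          show 69 + (n - 69) = n
          omega
        simp only [e] at h1
        have h2 := chk_all h1 r' hlt
        simp only [sqchk, force_eq, Bool.or_eq_true] at h2
        rcases h2 with h2 | h2
        · have h3 := Nat.le_of_ble_eq_true h2
          have h3' : 5 * ((n / 2 + tab r') * (n / 2 + tab r')) ≤ 4 * (chb n + r') + 395 := h3
          rw [TG_chb, ← hr'] at h3'
          have h4 : 5 * (((n / 2 : ℕ) + tab r' : ℤ) * ((n / 2 : ℕ) + tab r')) ≤ 4 * r + 395 := by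
            exact_mod_cast h3'
          have h5 := T_le_tab r' (by omega)
          have h6 : T (r : ℤ) ≤ (n / 2 : ℕ) + tab r' := by omega
          nlinarith
        · have h3 := Nat.le_of_ble_eq_true h2
          have h3' : 5 * (((n + 1) / 2 + (n - r')) * ((n + 1) / 2 + (n - r'))) ≤
            4 * (chb n + r') + 395 := h3
          rw [TG_chb, ← hr'] at h3'
          have h4 : 5 * ((((n + 1) / 2 : ℕ) + (n - r' : ℕ) : ℤ) * (((n + 1) / 2 : ℕ) + (n - r' : ℕ))) ≤
            4 * r + 395 := by
            exact_mod_cast h3'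
          have h5 := T_step (n + 1) r
          rw [T_nonpos (m := (r : ℤ) - (((n + 1).choose 2 : ℕ) : ℤ)) (by omega)] at h5
          have h6 : T (r : ℤ) ≤ ((n + 1) / 2 : ℕ) + (n - r' : ℕ) := by omega
          nlinarith
      · have hrn : r' < r := by
          have : n ≤ n.choose 2 := by nlinarith [Nat.sub_add_cancel (show 1 ≤ n by omega)]
          omega
        have hih := ih r' hrn
        have ha0 := T_nonneg (r' : ℤ)
        set a := T (r' : ℤ)
        have h2c' : 2 * (n.choose 2 : ℤ) = n * (n - 1) := by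
          have : ((2 * n.choose 2 : ℕ) : ℤ) = ((n * (n - 1) : ℕ) : ℤ) := by rw [h2c]
          rw [Nat.cast_mul, Nat.cast_mul, Nat.cast_sub (by omega)] at this
          exact_mod_cast this
        have hn85 : (85 : ℤ) ≤ n := by omega
        have hr'n : (r' : ℤ) ≤ n - 1 := by omega
        have h20 : 20 * a ≤ 3 * n - 8 := by
          by_contra hcon
          push Not at hcon
          have : (3 * (n : ℤ) - 8) ^ 2 < (20 * a) ^ 2 := by
            apply pow_lt_pow_left₀ hcon (by linarith) (by norm_num)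
          nlinarith
        have hhalf : 2 * ((n / 2 : ℕ) : ℤ) ≤ n := by omega
        have hhalf0 : 0 ≤ ((n / 2 : ℕ) : ℤ) := by positivity
        have hr2 : (r : ℤ) = n.choose 2 + r' := by exact_mod_cast hr'
        have hTle : T (r : ℤ) ≤ ((n / 2 : ℕ) : ℤ) + a := hstep
        have h2T : (2 * T (r : ℤ)) ^ 2 ≤ (n + 2 * a) ^ 2 := by
          apply pow_le_pow_left₀ (by linarith)
          linarith
        have h5 : 5 * (n + 2 * a) ^ 2 ≤ 16 * (r : ℤ) + 4 * 395 := by
          have e5 : 5 * ((n : ℤ) + 2 * a) ^ 2 = 5 * n ^ 2 + n * (20 * a) + 4 * (5 * a ^ 2) := by ring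
          have h6 : (n : ℤ) * (20 * a) ≤ n * (3 * n - 8) := by
            apply mul_le_mul_of_nonneg_left h20 (by linarith)
          rw [e5, hr2]
          nlinarith
        nlinarith

end Pool.Agent.MXC
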