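import Pool.Agent.MXC.Defs

/-!
# [MXC-TP]  Elementary properties of `mc` and `T`

Facts used: `B.choose 2 = B (B - 1) / 2`, `2 * (B ^ 2 / 4) = B.choose 2 + B / 2` (cases `B = 2 k`,
`B = 2 k + 1`).
-/

namespace Pool.Agent.MXC

open Finset Pool.Agent.MP_710317_co.Rec

/-- Cases `B = 2 k`, `B = 2 k + 1`; `Nat.choose_two_right`. -/
theorem two_sq (B : ℕ) : 2 * (B ^ 2 / 4) = B.choose 2 + B / 2 := by
  rcases Nat.even_or_odd' B with ⟨k, rfl | rfl⟩
  · rw [Nat.choose_two_right]
    have h1 : (2 * k) ^ 2 / 4 = k ^ 2 := by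
      rw [show (2 * k) ^ 2 = 4 * k ^ 2 by ring]
      exact Nat.mul_div_cancel_left _ (by norm_num)
    have h2 : 2 * k * (2 * k - 1) / 2 = k * (2 * k - 1) := by
      rw [mul_assoc]
      exact Nat.mul_div_cancel_left _ (by norm_num)
    have h3 : 2 * k / 2 = k := by omega
    rw [h1, h2, h3]
    cases k with
    | zero => simp
    | succ k =>
      rw [show 2 * (k + 1) - 1 = 2 * k + 1 by omega]
      ring
  · rw [Nat.choose_two_right]
    have h1 : (2 * k + 1) ^ 2 / 4 = k ^ 2 + k := by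
      rw [show (2 * k + 1) ^ 2 = 4 * (k ^ 2 + k) + 1 by ring]
      omega
    have h2 : (2 * k + 1) * (2 * k + 1 - 1) / 2 = (2 * k + 1) * k := by
      rw [show 2 * k + 1 - 1 = 2 * k by omega,
        show (2 * k + 1) * (2 * k) = 2 * ((2 * k + 1) * k) by ring]
      exact Nat.mul_div_cancel_left _ (by norm_num)
    have h3 : (2 * k + 1) / 2 = k := by omega
    rw [h1, h2, h3]
    ring

/-- The set in the definition of `mc` is not empty (`L = List.replicate m 2`: `cl L = m`),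
`Nat.sInf_mem`. -/
theorem mc_spec (m : ℕ) : ∃ L : List ℕ, m ≤ cl L ∧ fq L = mc m := by
  have hne : {c | ∃ L : List ℕ, m ≤ cl L ∧ fq L = c}.Nonempty :=
    ⟨fq (List.replicate m 2), List.replicate m 2, by simp [cl], rfl⟩
  exact Nat.sInf_mem hne

/-- `Nat.sInf_le`. -/
theorem mc_le {m : ℕ} {L : List ℕ} (h : m ≤ cl L) : mc m ≤ fq L := by
  exact Nat.sInf_le ⟨L, h, rfl⟩

theorem mc_mono {m m' : ℕ} (h : m ≤ m') : mc m ≤ mc m' := by
  obtain ⟨L, hL, e⟩ := mc_spec m'
  rw [← e]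
  exact mc_le (h.trans hL)

/-- From `L` for `m` take `B :: L`. -/
theorem mc_step (B m : ℕ) : mc (B.choose 2 + m) ≤ B ^ 2 / 4 + mc m := by
  obtain ⟨L, hL, e⟩ := mc_spec m
  rw [← e]
  have h1 : B.choose 2 + m ≤ cl (B :: L) := by
    simp only [cl, List.map_cons, List.sum_cons] at hL ⊢
    omega
  have h2 := mc_le h1
  simpa [fq] using h2

/-- `mc_step` with `B = 2`. -/
theorem mc_succ (m : ℕ) : mc (m + 1) ≤ mc m + 1 := by
  have h := mc_step 2 m
  rw [show Nat.choose 2 2 = 1 by decide, show 2 ^ 2 / 4 = 1 by norm_num, add_comm 1 m,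
    add_comm 1 (mc m)] at h
  exact h

/-- Induction on `L`, `two_sq`. -/
theorem cl_le (L : List ℕ) : cl L ≤ 2 * fq L := by
  induction L with
  | nil => simp [cl]
  | cons B L ih =>
    have h := two_sq B
    simp only [cl, fq, List.map_cons, List.sum_cons] at ih ⊢
    omega

/-- `mc_spec`, `cl_le`; for `m ≤ 0` it is `-m`. -/
theorem T_nonneg (m : ℤ) : 0 ≤ T m := by
  obtain ⟨L, hL, e⟩ := mc_spec m.toNat
  have h := cl_le L
  unfold T
  omega

/-- `mc 0 = 0` (the empty list). -/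
theorem T_nonpos {m : ℤ} (h : m ≤ 0) : T m = -m := by
  have h1 : m.toNat = 0 := by omega
  have h2 : mc 0 ≤ fq [] := mc_le (by simp)
  have h3 : fq [] = 0 := by simp [fq]
  unfold T
  rw [h1]
  omega

private theorem TP_add (a d : ℕ) : mc (a + d) ≤ mc a + d := by
  induction d with
  | zero => simp
  | succ d ih =>
    have h := mc_succ (a + d)
    rw [← add_assoc]
    omega

/-- One step up and one step down change `T` by at most `1` (`mc_mono`, `mc_succ`); induction. -/
theorem T_lip (m m' : ℤ) : T m ≤ T m' + |m - m'| := by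
  unfold T
  rcases le_or_gt m m' with h | h
  · have h1 : mc m.toNat ≤ mc m'.toNat := mc_mono (by omega)
    rw [abs_of_nonpos (by omega)]
    omega
  · have h1 := TP_add m'.toNat (m.toNat - m'.toNat)
    rw [show m'.toNat + (m.toNat - m'.toNat) = m.toNat by omega] at h1
    rw [abs_of_pos (by omega)]
    omega

/-- If `C(B,2) ≤ m`: `mc_step` and `two_sq`.  If `m < C(B,2)`, `0 ≤ m`: `mc m ≤ B ^ 2 / 4` (`mc_le` with
`L = [B]`) and `T (m - C(B,2)) = C(B,2) - m` (`T_nonpos`), `two_sq`.  If `m < 0`: `T_nonpos` twice. -/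
theorem T_step (B : ℕ) (m : ℤ) :
    T m ≤ ((B / 2 : ℕ) : ℤ) + T (m - ((B.choose 2 : ℕ) : ℤ)) := by
  have hs := two_sq B
  rcases lt_or_ge m 0 with h | h
  · rw [T_nonpos h.le, T_nonpos (by omega)]
    omega
  · rcases lt_or_ge m ((B.choose 2 : ℕ) : ℤ) with h2 | h2
    · rw [T_nonpos (m := m - ((B.choose 2 : ℕ) : ℤ)) (by omega)]
      have h3 : mc m.toNat ≤ fq [B] := mc_le (by simp [cl]; omega)
      have h4 : fq [B] = B ^ 2 / 4 := by simp [fq]
      unfold T
      omega
    · have h3 := mc_step B (m - ((B.choose 2 : ℕ) : ℤ)).toNat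
      rw [show B.choose 2 + (m - ((B.choose 2 : ℕ) : ℤ)).toNat = m.toNat by omega] at h3
      unfold T
      omega

end Pool.Agent.MXC
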